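import Pool.Agent.LibRR.G14

/-!
[RR G15] RIEMANN-ROCH for a normal projective surface `Y` (not necessarily smooth). By
`exists_noether` (N01) `primes Y = upP L x y` and `hypZ Y Q = hInf x y Q - Q.ord x₀`; by
`canOrd_eq_canR` `canOrd Q ω = canR x y Q + Q.ord u`. Multiplication by `x₀ ^ n`, `u`, identifies
the spaces (`finrank_mul`): for `P`, `v ≠ 0`, `D' = D + ord v` on `P`: `HZ P D' ≃ HZ P D`,
`f ↦ f v`. `b`, `χ` are the functions obtained by choice from `riemannRoch_up` (`0` if the support is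
not finite); `χ (K - D) = χ D` and `b (K - D) = - b D` because polynomials of degree `2` with the same
values for all large `n` have the same coefficients.
-/

set_option autoImplicit false

open Pool.Agent.LibGMM Pool.Agent.LibCov80 Pool.Agent.LibK
open Pool.Agent.LibKB1a (planeAll IsInf Aff Ess Pol ev)

namespace Pool.Agent.LibRR

variable {L : Type} [Field L] [Algebra ℂ L]

theorem finrank_mul (P : Set (DVal L)) {D D' : DVal L → ℤ} {v : L} (hv : v ≠ 0)
    (h : ∀ Q ∈ P, D' Q = D Q + Q.ord v) :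
    Module.finrank ℂ (HZ P D') = Module.finrank ℂ (HZ P D) ∧
      (Module.Finite ℂ (HZ P D) → Module.Finite ℂ (HZ P D')) := by
  let e : L ≃ₗ[ℂ] L := LinearEquiv.ofLinearMap (LinearMap.mulLeft ℂ v) (LinearMap.mulLeft ℂ v⁻¹)
    (by
      ext f
      simp only [LinearMap.comp_apply, LinearMap.mulLeft_apply, LinearMap.id_apply]
      rw [← mul_assoc, mul_inv_cancel₀ hv, one_mul])
    (by
      ext f
      simp only [LinearMap.comp_apply, LinearMap.mulLeft_apply, LinearMap.id_apply]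
      rw [← mul_assoc, inv_mul_cancel₀ hv, one_mul])
  have he : ∀ f, e f = v * f := fun f => rfl
  have hmap : (HZ P D').map (e : L →ₗ[ℂ] L) = HZ P D := by
    ext f
    rw [Submodule.mem_map]
    constructor
    · rintro ⟨g, hg, rfl⟩
      rw [mem_HZ] at hg ⊢
      intro ν hν hf
      have hg0 : g ≠ 0 := by
        rintro rfl
        exact hf (map_zero _)
      have h1 := hg ν hν hg0
      have h2 : ν.ord ((e : L →ₗ[ℂ] L) g) = ν.ord v + ν.ord g := ν.ord_mul' hv hg0
      rw [h2]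
      have h3 := h ν hν
      omega
    · intro hf
      refine ⟨v⁻¹ * f, ?_, ?_⟩
      · rw [mem_HZ] at hf ⊢
        intro ν hν hg
        have hf0 : f ≠ 0 := by
          rintro rfl
          exact hg (mul_zero _)
        have h1 := hf ν hν hf0
        rw [ν.ord_mul' (inv_ne_zero hv) hf0, ν.ord_inv]
        have h3 := h ν hν
        omega
      · change v * (v⁻¹ * f) = f
        rw [← mul_assoc, mul_inv_cancel₀ hv, one_mul]
  constructor
  · rw [← hmap]
    exact (LinearEquiv.finrank_map_eq e (HZ P D')).symm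
  · intro hfin
    rw [← hmap] at hfin
    exact Module.Finite.equiv (e.submoduleMap (HZ P D')).symm

/-- two eventually equal linear functions -/
theorem rrG15_lin {a b c d m : ℤ} (h : ∀ n, m ≤ n → a * n + b = c * n + d) : a = c ∧ b = d := by
  have h1 := h m le_rfl
  have h2 := h (m + 1) (by omega)
  have h3 : a = c := by linarith
  subst h3
  exact ⟨rfl, by linarith⟩

/-- **Riemann-Roch** for normal projective surfaces. -/
theorem riemannRoch (Y : NormalModel L) (hd : Algebra.trdeg ℂ L = 2) {ω : TopForm L}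
    (hω : ω ≠ 0) :
    ∃ (deg : ℤ) (b χ : (DVal L → ℤ) → ℤ), 0 < deg ∧
      ∀ D : DVal L → ℤ, {ν | ν ∈ primes Y ∧ D ν ≠ 0}.Finite →
        Module.Finite ℂ (H0 (primes Y) fun ν => (D ν : ℚ)) ∧
        (∃ n₀ : ℤ, ∀ n : ℤ, n₀ ≤ n →
          Module.finrank ℂ (H0 (primes Y) fun ν => ((D ν - n * hypZ Y ν : ℤ) : ℚ)) = 0 ∧
          2 * (Module.finrank ℂ (H0 (primes Y) fun ν =>
            ((D ν + n * hypZ Y ν : ℤ) : ℚ)) : ℤ) = deg * n ^ 2 + b D * n + 2 * χ D) ∧
        χ D ≤ Module.finrank ℂ (H0 (primes Y) fun ν => (D ν : ℚ)) +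
          Module.finrank ℂ (H0 (primes Y) fun ν => ((canOrd ν ω - D ν : ℤ) : ℚ)) ∧
        χ (fun ν => canOrd ν ω - D ν) = χ D ∧ b (fun ν => canOrd ν ω - D ν) = - b D := by
  obtain ⟨k, x, y, x0, hfd, hxy, hx0, hpr, hhyp⟩ := exists_noether Y hd
  obtain ⟨u, hu, hcan⟩ := canOrd_eq_canR (L := L) hxy hω
  have key : ∀ D : DVal L → ℤ, ∃ b χ : ℤ, FinSup (L := L) x y D → ∃ n₀ : ℤ,
      (∀ n, Module.Finite ℂ (VD x y D n)) ∧
      (∀ n, n ≤ -n₀ → VD x y D n = ⊥) ∧
      (∀ n, n₀ ≤ n → 2 * (Module.finrank ℂ (VD x y D n) : ℤ) =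
        (Module.finrank k L : ℤ) * n ^ 2 + b * n + 2 * χ) ∧
      (∀ n, n₀ ≤ n → 2 * (Module.finrank ℂ (VD x y (fun Q => canR x y Q - D Q) n) : ℤ) =
        (Module.finrank k L : ℤ) * n ^ 2 - b * n + 2 * χ) ∧
      χ ≤ Module.finrank ℂ (VD x y D 0) +
        Module.finrank ℂ (VD x y (fun Q => canR x y Q - D Q) 0) := by
    intro D
    by_cases hD : FinSup (L := L) x y D
    · obtain ⟨b, χ, n₀, h⟩ := riemannRoch_up hxy D hD
      exact ⟨b, χ, fun _ => ⟨n₀, h⟩⟩
    · exact ⟨0, 0, fun h => absurd h hD⟩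
  choose b χ hbχ using key
  refine ⟨(Module.finrank k L : ℤ), b, χ, ?_, ?_⟩
  · have : 0 < Module.finrank k L := Module.finrank_pos
    exact_mod_cast this
  intro D hD
  have hD' : FinSup (L := L) x y D := by
    unfold FinSup
    rw [← hpr]
    exact hD
  -- the canonical divisor
  have hKD : FinSup (L := L) x y (fun ν => canOrd ν ω - D ν) := by
    have h1 := finSup_ramE (L := L) hxy
    have h2 := finSup_hInf (L := L) hxy
    have h3 := finDiv_upP (L := L) hxy u hu
    unfold FinSup at h1 h2 hD' ⊢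
    refine (((h1.union h2).union h3).union hD').subset ?_
    rintro Q ⟨hQ, hne⟩
    by_contra hcon
    simp only [Set.mem_union, Set.mem_ofPred_eq, not_or, not_and, not_not] at hcon
    obtain ⟨⟨⟨a1, a2⟩, a3⟩, a4⟩ := hcon
    apply hne
    have b1 := hcan Q hQ
    have b2 := a1 hQ
    have b3 := a2 hQ
    have b4 := a3 hQ
    have b5 := a4 hQ
    change canOrd Q ω - D Q = 0
    rw [b1, b4, b5]
    unfold canR
    rw [b3]
    omega
  obtain ⟨n₀, c1, c2, c3, c4, c5⟩ := hbχ D hD'
  obtain ⟨n₁, d1, d2, d3, d4, d5⟩ := hbχ _ hKD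
  have hP : primes Y = upP L x y := hpr
  -- the spaces
  have e1 : ∀ n : ℤ, Module.finrank ℂ (HZ (primes Y) fun ν => D ν + n * hypZ Y ν) =
      Module.finrank ℂ (VD x y D n) := by
    intro n
    have := (finrank_mul (primes Y) (D := fun ν => D ν + n * hInf x y ν)
      (D' := fun ν => D ν + n * hypZ Y ν) (v := x0 ^ (-n)) (zpow_ne_zero _ hx0) (fun Q hQ => by
        have h1 := hhyp Q hQ
        rw [Q.ord_zpow, ← h1]
        ring)).1
    rw [this]
    unfold VD
    rw [hP]
  have e2 : ∀ n : ℤ, Module.finrank ℂ (VD x y (fun Q => canOrd Q ω - D Q) n) =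
      Module.finrank ℂ (VD x y (fun Q => canR x y Q - D Q) n) := by
    intro n
    unfold VD
    exact (finrank_mul (upP L x y) (D := fun Q => canR x y Q - D Q + n * hInf x y Q)
      (D' := fun Q => canOrd Q ω - D Q + n * hInf x y Q) (v := u) hu (fun Q hQ => by
        rw [hcan Q hQ]
        ring)).1
  have e3 : ∀ E : DVal L → ℤ, HZ (primes Y) E = VD x y E 0 := by
    intro E
    unfold VD
    rw [hP]
    congr 1
    funext Q
    ring
  have hlin : b (fun ν => canOrd ν ω - D ν) = - b D ∧ 2 * χ (fun ν => canOrd ν ω - D ν) = 2 * χ D := by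
    apply rrG15_lin (m := max n₀ n₁)
    intro n hn
    have f1 := c4 n (le_trans (le_max_left _ _) hn)
    have f2 := d3 n (le_trans (le_max_right _ _) hn)
    rw [e2 n] at f2
    linarith
  refine ⟨?_, ⟨n₀, fun n hn => ⟨?_, ?_⟩⟩, ?_, by linarith [hlin.2], hlin.1⟩
  · change Module.Finite ℂ (HZ (primes Y) D)
    rw [e3 D]
    exact c1 0
  · change Module.finrank ℂ (HZ (primes Y) fun ν => D ν - n * hypZ Y ν) = 0
    have h1 := e1 (-n)
    have h2 : (fun ν => D ν + -n * hypZ Y ν) = fun ν => D ν - n * hypZ Y ν := by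
      funext ν
      ring
    rw [h2] at h1
    rw [h1, c2 (-n) (by omega)]
    exact finrank_bot ℂ L
  · change 2 * (Module.finrank ℂ (HZ (primes Y) fun ν => D ν + n * hypZ Y ν) : ℤ) = _
    rw [e1 n]
    exact c3 n hn
  · change χ D ≤ Module.finrank ℂ (HZ (primes Y) D) +
      Module.finrank ℂ (HZ (primes Y) fun ν => canOrd ν ω - D ν)
    rw [e3 D, e3 (fun ν => canOrd ν ω - D ν), e2 0]
    exact c5

end Pool.Agent.LibRR
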