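import Pool.Agent.LibK.Base
import Pool.Agent.LibGMM.G3
import Pool.Agent.LibGMM.G5
import Pool.Agent.LibCov80.Loc

/-!
[RR G17] Forms which vanish on given prime divisors but not at a given point.
-/

set_option autoImplicit false

open Pool.Agent.LibGMM Pool.Agent.LibCov80 Pool.Agent.LibK

namespace Pool.Agent.LibRR

variable {L : Type} [Field L] [Algebra ℂ L]

theorem ord_add_hypZ_nonneg (Y : NormalModel L) (i : Y.ι) (μ : DVal L) :
    0 ≤ μ.ord (Y.g i : L) + hypZ Y μ := by
  have := Y.fin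
  have h1 : (⨅ j : Y.ι, μ.ord (Y.g j : L)) ≤ μ.ord (Y.g i : L) :=
    ciInf_le (Set.finite_range _).bddBelow i
  unfold hypZ
  omega

theorem exists_ord_add_hypZ (Y : NormalModel L) (μ : DVal L) :
    ∃ i, μ.ord (Y.g i : L) + hypZ Y μ = 0 := by
  have := Y.fin
  have := Y.ne
  obtain ⟨i, hi⟩ := exists_eq_ciInf_of_finite (f := fun j : Y.ι => μ.ord (Y.g j : L))
  refine ⟨i, ?_⟩
  unfold hypZ
  rw [← hi]
  ring

/-- The element `b` has order `≥ -m (ord g_i + hyp)` everywhere. -/
def FormLe (Y : NormalModel L) (i : Y.ι) (m : ℕ) (b : L) : Prop :=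
  ∀ μ : DVal L, b ≠ 0 → 0 ≤ μ.ord b + m * (μ.ord (Y.g i : L) + hypZ Y μ)

theorem FormLe.mono {Y : NormalModel L} {i : Y.ι} {m m' : ℕ} {b : L} (h : FormLe Y i m b)
    (hm : m ≤ m') : FormLe Y i m' b := by
  intro μ hb
  have h1 := h μ hb
  have h2 := ord_add_hypZ_nonneg Y i μ
  have h3 : (m : ℤ) ≤ m' := by exact_mod_cast hm
  nlinarith [mul_le_mul_of_nonneg_right h3 h2]

theorem FormLe.mul {Y : NormalModel L} {i : Y.ι} {m m' : ℕ} {b b' : L} (h : FormLe Y i m b)
    (h' : FormLe Y i m' b') : FormLe Y i (m + m') (b * b') := by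
  intro μ hb
  have hb1 : b ≠ 0 := left_ne_zero_of_mul hb
  have hb2 : b' ≠ 0 := right_ne_zero_of_mul hb
  have h1 := h μ hb1
  have h2 := h' μ hb2
  rw [μ.ord_mul' hb1 hb2]
  push_cast
  nlinarith

theorem FormLe.add {Y : NormalModel L} {i : Y.ι} {m m' : ℕ} {b b' : L} (h : FormLe Y i m b)
    (h' : FormLe Y i m' b') : FormLe Y i (max m m') (b + b') := by
  have h1 := h.mono (le_max_left m m')
  have h2 := h'.mono (le_max_right m m')
  intro μ hb
  have h3 := μ.ord_add_ge (a := b) (b := b')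
    (n := -((max m m' : ℕ) * (μ.ord (Y.g i : L) + hypZ Y μ))) (by
      by_cases h0 : b = 0
      · exact Or.inl h0
      · right
        have := h1 μ h0
        omega) (by
      by_cases h0 : b' = 0
      · exact Or.inl h0
      · right
        have := h2 μ h0
        omega)
  have h4 := h3.resolve_left hb
  omega

theorem exists_formLe (Y : NormalModel L) (i : Y.ι) (b : L) (hb : b ∈ chart Y.g i) :
    ∃ m : ℕ, FormLe Y i m b := by
  refine Algebra.adjoin_induction (p := fun b _ => ∃ m : ℕ, FormLe Y i m b) ?_ ?_ ?_ ?_ hb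
  · rintro _ ⟨j, rfl⟩
    refine ⟨1, fun μ _ => ?_⟩
    rw [μ.ord_div (Units.ne_zero _) (Units.ne_zero _)]
    have h1 := ord_add_hypZ_nonneg Y j μ
    push_cast
    linarith
  · intro c
    refine ⟨0, fun μ _ => ?_⟩
    rw [μ.ord_const]
    simp
  · rintro a b _ _ ⟨m, hm⟩ ⟨m', hm'⟩
    exact ⟨_, hm.add hm'⟩
  · rintro a b _ _ ⟨m, hm⟩ ⟨m', hm'⟩
    exact ⟨_, hm.mul hm'⟩

theorem exists_avoid (Y : NormalModel L) (p : Y.Pt) {ν : DVal L}
    (hp : ¬ Y.Through ν p) :
    ∃ (m : ℕ) (b : chart Y.g p.i), b ∉ p.P ∧ FormLe Y p.i m (b : L) ∧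
      1 ≤ ν.ord (b : L) + m * (ν.ord (Y.g p.i : L) + hypZ Y ν) := by
  have := p.prime
  by_cases h0 : ν.ord (Y.g p.i : L) + hypZ Y ν = 0
  · -- the chart is contained in the ring of `ν`
    have hle : ∀ a ∈ chart Y.g p.i, 0 ≤ ν.ord a := by
      intro a ha
      obtain ⟨m, hm⟩ := exists_formLe Y p.i a ha
      by_cases ha0 : a = 0
      · rw [ha0, ν.ord_zero]
      have h1 := hm ν ha0
      rw [h0] at h1
      omega
    unfold NormalModel.Through at hp
    push Not at hp
    obtain ⟨x, ⟨a, b, hb, hx⟩, hlt⟩ := hp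
    have hb0 : (b : L) ≠ 0 := coe_ne Y p hb
    have ha0 : (a : L) ≠ 0 := by
      intro h
      rw [hx, h, zero_div, ν.ord_zero] at hlt
      exact lt_irrefl _ hlt
    obtain ⟨m, hm⟩ := exists_formLe Y p.i b b.2
    refine ⟨m, b, hb, hm, ?_⟩
    rw [h0]
    rw [hx, ν.ord_div ha0 hb0] at hlt
    have h1 := hle a a.2
    omega
  · refine ⟨1, 1, ?_, ?_, ?_⟩
    · exact fun h => this.ne_top ((Ideal.eq_top_iff_one _).2 h)
    · intro μ _
      have h1 := ord_add_hypZ_nonneg Y p.i μ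
      have h2 : μ.ord (((1 : chart Y.g p.i) : L)) = 0 := by
        rw [OneMemClass.coe_one, μ.ord_one]
      rw [h2]
      push_cast
      linarith
    · have h1 := ord_add_hypZ_nonneg Y p.i ν
      have h2 : ν.ord (((1 : chart Y.g p.i) : L)) = 0 := by
        rw [OneMemClass.coe_one, ν.ord_one]
      rw [h2]
      push_cast
      omega

/-- Forms which vanish to high order on finitely many prime divisors but not at the point `p`. -/
theorem exists_avoid_finset (Y : NormalModel L) (p : Y.Pt) (S : Finset (DVal L))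
    (hS : ∀ ν ∈ S, ¬ Y.Through ν p) (N : ℕ) :
    ∃ (m : ℕ) (b : chart Y.g p.i), b ∉ p.P ∧ FormLe Y p.i m (b : L) ∧
      ∀ ν ∈ S, (N : ℤ) ≤ ν.ord (b : L) + m * (ν.ord (Y.g p.i : L) + hypZ Y ν) := by
  classical
  have hprime := p.prime
  induction S using Finset.induction_on with
  | empty =>
    refine ⟨0, 1, fun h => hprime.ne_top ((Ideal.eq_top_iff_one _).2 h), ?_, by simp⟩
    intro μ _
    rw [OneMemClass.coe_one, μ.ord_one]
    simp
  | insert ν S hν ih =>
    obtain ⟨m, b, hb, hm, hN⟩ := ih fun μ hμ => hS μ (by simp [hμ])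
    obtain ⟨m', b', hb', hm', h1⟩ := exists_avoid Y p (hS ν (by simp))
    -- powers
    have hpow : ∀ n : ℕ, b' ^ n ∉ p.P := fun n h => hb' (hprime.mem_of_pow_mem n h)
    have hne' : (b' : L) ≠ 0 := coe_ne Y p hb'
    have hne : (b : L) ≠ 0 := coe_ne Y p hb
    have hpowle : ∀ n : ℕ, FormLe Y p.i (n * m') ((b' ^ n : chart Y.g p.i) : L) := by
      intro n μ _
      have h2 := hm' μ hne'
      rw [SubmonoidClass.coe_pow, μ.ord_pow]
      push_cast
      have h3 : (n : ℤ) * μ.ord (b' : L) + n * m' * (μ.ord (Y.g p.i : L) + hypZ Y μ) =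
          n * (μ.ord (b' : L) + m' * (μ.ord (Y.g p.i : L) + hypZ Y μ)) := by ring
      rw [h3]
      positivity
    refine ⟨m + N * m', b * b' ^ N, ?_, ?_, ?_⟩
    · intro h
      rcases hprime.mem_or_mem h with h | h
      · exact hb h
      · exact hpow N h
    · rw [MulMemClass.coe_mul]
      exact hm.mul (hpowle N)
    · intro μ hμ
      have hne2 : ((b' ^ N : chart Y.g p.i) : L) ≠ 0 := by
        rw [SubmonoidClass.coe_pow]
        exact pow_ne_zero _ hne'
      rw [MulMemClass.coe_mul, μ.ord_mul' hne hne2]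
      have h2 := hm μ hne
      have h3 := hpowle N μ hne2
      push_cast at h3 ⊢
      rcases Finset.mem_insert.1 hμ with rfl | hμ
      · rw [SubmonoidClass.coe_pow, μ.ord_pow] at *
        have h4 : (N : ℤ) * 1 ≤
            N * (μ.ord (b' : L) + m' * (μ.ord (Y.g p.i : L) + hypZ Y μ)) :=
          mul_le_mul_of_nonneg_left h1 (by positivity)
        nlinarith
      · have h4 := hN μ hμ
        nlinarith

end Pool.Agent.LibRR
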