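import Pool.Agent.LibRR.G16
import Pool.Agent.LibRR.G17
import Pool.Agent.LibGMM.G4

/-!
[RR G18] Serre generation: for `n` large `D + n H` has, at every point at which `D` is principal, a
section which generates.
-/

set_option autoImplicit false

open Pool.Agent.LibGMM Pool.Agent.LibCov80 Pool.Agent.LibK

namespace Pool.Agent.LibRR

variable {L : Type} [Field L] [Algebra ℂ L]

/-- A form divided by a power of a coordinate is in the chart. -/
theorem rrG18_chart (Y : NormalModel L) (i : Y.ι) {x : Fin 3 → L}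
    (hx : ∀ j, x j ∈ Submodule.span ℂ (Set.range fun i => (Y.g i : L))) {m : ℤ} {a : A3}
    (ha : a ∈ HP m) :
    ∃ c ∈ chart Y.g i, MvPolynomial.aeval x a = (Y.g i : L) ^ m * c := by
  have hne : (Y.g i : L) ≠ 0 := Units.ne_zero _
  have h1 : ∀ j, x j / (Y.g i : L) ∈ chart Y.g i := by
    intro j
    have h2 : ∀ z ∈ Submodule.span ℂ (Set.range fun i => (Y.g i : L)),
        z / (Y.g i : L) ∈ chart Y.g i := by
      intro z hz
      induction hz using Submodule.span_induction with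
      | mem z hz =>
        obtain ⟨l, rfl⟩ := hz
        exact Algebra.subset_adjoin ⟨l, rfl⟩
      | zero => rw [zero_div]; exact Subalgebra.zero_mem _
      | add z w _ _ hz hw => rw [add_div]; exact Subalgebra.add_mem _ hz hw
      | smul c z _ hz => rw [smul_div_assoc]; exact Subalgebra.smul_mem _ hz c
    exact h2 _ (hx j)
  refine ⟨MvPolynomial.aeval (fun j => x j / (Y.g i : L)) a, ?_, ?_⟩
  · have h2 : (MvPolynomial.aeval (fun j => x j / (Y.g i : L)) a) ∈
        Algebra.adjoin ℂ (Set.range fun j => x j / (Y.g i : L)) := by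
      rw [Algebra.adjoin_range_eq_range_aeval]
      exact ⟨a, rfl⟩
    refine (Algebra.adjoin_le ?_ : _ ≤ chart Y.g i) h2
    rintro _ ⟨j, rfl⟩
    exact h1 j
  · rw [← rrG16_homog _ _ ha]
    congr 2
    funext j
    field_simp

/-- A finite sum of elements of the maximal ideal is in the maximal ideal. -/
theorem rrG18_sum (Y : NormalModel L) (p : Y.Pt) {I : Type} (s : Finset I) (t : I → L)
    (h : ∀ i ∈ s, t i ∈ maxI Y p) : ∑ i ∈ s, t i ∈ maxI Y p := by
  classical
  induction s using Finset.induction_on with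
  | empty =>
    rw [Finset.sum_empty]
    have h1 : ((0 : chart Y.g p.i) : L) ∈ maxI Y p := (mem_maxI_iff Y p 0).2 p.P.zero_mem
    exact h1
  | insert i s hi ih =>
    rw [Finset.sum_insert hi]
    exact maxI_add Y p (h i (by simp)) (ih fun j hj => h j (by simp [hj]))

/-- The coordinate of the chart of `p` generates `H` at `p`. -/
theorem ord_add_hypZ_through (Y : NormalModel L) (p : Y.Pt) {ν : DVal L} (h : Y.Through ν p) :
    ν.ord (Y.g p.i : L) + hypZ Y ν = 0 := by
  obtain ⟨j, hj⟩ := exists_ord_add_hypZ Y ν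
  have h1 := h _ (Y.ratio_mem_loc p j)
  rw [ν.ord_div (Units.ne_zero _) (Units.ne_zero _)] at h1
  have h2 := ord_add_hypZ_nonneg Y p.i ν
  omega

/-- Serre generation. -/
theorem exists_generated (Y : NormalModel L) (hd : Algebra.trdeg ℂ L = 2) (D : DVal L → ℤ)
    (hD : {ν | ν ∈ primes Y ∧ D ν ≠ 0}.Finite) :
    ∃ n₀ : ℤ, ∀ n, n₀ ≤ n → ∀ p : Y.Pt,
      (∃ f : L, f ≠ 0 ∧ ∀ ν ∈ primes Y, Y.Through ν p → ν.ord f + D ν = 0) →
      ∃ s ∈ HZ (primes Y) (fun ν => D ν + n * hypZ Y ν), s ≠ 0 ∧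
        ∀ ν ∈ primes Y, Y.Through ν p → ν.ord s + (D ν + n * hypZ Y ν) = 0 := by
  classical
  obtain ⟨I, _, x, d, e, hx, he, hgen⟩ := exists_gens Y hd D hD
  refine ⟨∑ i, |d i|, fun n hn p hf => ?_⟩
  obtain ⟨f, hf0, hf⟩ := hf
  have hdn : ∀ i, d i ≤ n := fun i => (le_abs_self _).trans
    ((Finset.single_le_sum (f := fun i => |d i|) (fun j _ => abs_nonneg _)
      (Finset.mem_univ i)).trans hn)
  -- the bad prime divisors
  have hfin : {ν | ν ∈ primes Y ∧ ν.ord f + D ν < 0}.Finite := by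
    refine ((Y.finite_ord_ne (Units.mk0 f hf0)).union hD).subset ?_
    rintro ν ⟨hν, hlt⟩
    by_cases h0 : D ν = 0
    · left
      refine ⟨hν, ?_⟩
      rw [Units.val_mk0]
      omega
    · exact Or.inr ⟨hν, h0⟩
  let B := hfin.toFinset
  have hB : ∀ ν ∈ B, ¬ Y.Through ν p := by
    intro ν hν hthr
    obtain ⟨h1, h2⟩ := hfin.mem_toFinset.1 hν
    have h3 := hf ν h1 hthr
    omega
  let N : ℕ := ∑ ν ∈ B, (ν.ord f + D ν).natAbs
  obtain ⟨m, b, hb, hm, hN⟩ := exists_avoid_finset Y p B hB N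
  have hb0 : (b : L) ≠ 0 := coe_ne Y p hb
  set g : L := (Y.g p.i : L) with hg
  have hg0 : g ≠ 0 := Units.ne_zero _
  have hPf : (b : L) * g ^ m * f ∈ HZ (primes Y) (fun ν => D ν + (m : ℤ) * hypZ Y ν) := by
    rw [mem_HZ]
    intro ν hν _
    rw [ν.ord_mul' (mul_ne_zero hb0 (pow_ne_zero _ hg0)) hf0,
      ν.ord_mul' hb0 (pow_ne_zero _ hg0), ν.ord_pow]
    have h1 := hm ν hb0
    by_cases hνB : ν ∈ B
    · have h2 := hN ν hνB
      have h3 : (ν.ord f + D ν).natAbs ≤ N :=
        Finset.single_le_sum (f := fun ν : DVal L => (ν.ord f + D ν).natAbs)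
          (fun _ _ => Nat.zero_le _) hνB
      have h4 : ((ν.ord f + D ν).natAbs : ℤ) ≤ N := by exact_mod_cast h3
      have h5 : -(ν.ord f + D ν) ≤ ((ν.ord f + D ν).natAbs : ℤ) := by
        rw [Int.natCast_natAbs]
        exact neg_le_abs _
      nlinarith
    · have h2 : 0 ≤ ν.ord f + D ν := by
        by_contra hcon
        exact hνB (hfin.mem_toFinset.2 ⟨hν, by omega⟩)
      nlinarith
  obtain ⟨a, ha, hsum⟩ := hgen m _ hPf
  choose c hc hc' using fun i => rrG18_chart Y p.i hx (ha i)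
  -- some `e i` generates at `p`
  let t : I → L := fun i => e i / (g ^ (d i) * f)
  have ht0 : ∀ i, g ^ (d i) * f ≠ 0 := fun i => mul_ne_zero (zpow_ne_zero _ hg0) hf0
  have htord : ∀ i, e i ≠ 0 → ∀ ν ∈ primes Y, Y.Through ν p →
      ν.ord (t i) = ν.ord (e i) + (D ν + d i * hypZ Y ν) := by
    intro i hei ν hν hthr
    have h1 := ord_add_hypZ_through Y p hthr
    have h2 := hf ν hν hthr
    change ν.ord (e i / (g ^ (d i) * f)) = _
    rw [ν.ord_div hei (ht0 i), ν.ord_mul' (zpow_ne_zero _ hg0) hf0, ν.ord_zpow]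
    have h3 : ν.ord g = - hypZ Y ν := by
      rw [hg]
      omega
    have h4 : ν.ord f = - D ν := by omega
    rw [h3, h4]
    ring
  have htloc : ∀ i, t i ∈ Y.loc p := by
    intro i
    refine Y.mem_loc p _ fun ν hν hthr => ?_
    by_cases hei : e i = 0
    · change 0 ≤ ν.ord (e i / (g ^ (d i) * f))
      rw [hei, zero_div, ν.ord_zero]
    rw [htord i hei ν hν hthr]
    exact mem_HZ.1 (he i) ν hν hei
  by_cases hall : ∀ i, t i ∈ maxI Y p
  · exfalso
    apply hb
    rw [← mem_maxI_iff]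
    have h1 : (b : L) = ∑ i, c i * t i := by
      have h2 : (b : L) = ((b : L) * g ^ m * f) / (g ^ m * f) := by
        field_simp
      rw [h2, hsum, Finset.sum_div]
      refine Finset.sum_congr rfl fun i _ => ?_
      change _ = c i * (e i / (g ^ (d i) * f))
      rw [hc' i, ← hg]
      have h3 : (g : L) ^ (m : ℕ) = g ^ ((m : ℤ) - d i) * g ^ (d i) := by
        rw [← zpow_add₀ hg0, sub_add_cancel, zpow_natCast]
      rw [h3]
      have h4 : g ^ ((m : ℤ) - d i) ≠ 0 := zpow_ne_zero _ hg0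
      have h5 : g ^ (d i) ≠ 0 := zpow_ne_zero _ hg0
      field_simp
    rw [h1]
    refine rrG18_sum Y p _ _ fun i _ => maxI_mul Y p ?_ (hall i)
    exact ⟨⟨c i, hc i⟩, 1, fun h => p.prime.ne_top ((Ideal.eq_top_iff_one _).2 h), by simp⟩
  · push Not at hall
    obtain ⟨i, hi⟩ := hall
    have hinv := inv_mem_loc Y p (htloc i) hi
    have hei : e i ≠ 0 := by
      intro h
      apply hi
      have h1 : t i = ((0 : chart Y.g p.i) : L) := by
        change e i / (g ^ (d i) * f) = _
        rw [h, zero_div]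
        rfl
      rw [h1, mem_maxI_iff]
      exact p.P.zero_mem
    obtain ⟨r, hr⟩ := Int.eq_ofNat_of_zero_le (sub_nonneg.2 (hdn i))
    refine ⟨g ^ r * e i, ?_, mul_ne_zero (pow_ne_zero _ hg0) hei, ?_⟩
    · rw [mem_HZ]
      intro ν hν _
      rw [ν.ord_mul' (pow_ne_zero _ hg0) hei, ν.ord_pow]
      have h1 := mem_HZ.1 (he i) ν hν hei
      have h2 := ord_add_hypZ_nonneg Y p.i ν
      rw [← hg] at h2
      have h3 : (0 : ℤ) ≤ r * (ν.ord g + hypZ Y ν) := by positivity
      have h4 : n = d i + r := by omega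
      rw [h4]
      nlinarith
    · intro ν hν hthr
      rw [ν.ord_mul' (pow_ne_zero _ hg0) hei, ν.ord_pow]
      have h1 := ord_add_hypZ_through Y p hthr
      rw [← hg] at h1
      have h2 := mem_HZ.1 (he i) ν hν hei
      have h3 := hthr _ hinv
      rw [ν.ord_inv, htord i hei ν hν hthr] at h3
      have h4 : n = d i + r := by omega
      have h5 : ν.ord g = - hypZ Y ν := by omega
      rw [h4, h5]
      have h6 : ν.ord (e i) = -(D ν + d i * hypZ Y ν) := by omega
      rw [h6]
      ring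

end Pool.Agent.LibRR
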