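import Pool.Agent.LibRR.Geo

/-!
[RR G01] Weak approximation for discrete valuations, finiteness of the fibres.

`exists_sep`: if `P.ring ≤ Q.ring` then `P = Q` (`LibGMM.ext_ring`, Api.lean). So there are `a`, `b`
with `0 ≤ P.ord a`, `Q.ord a < 0`, `0 ≤ Q.ord b`, `P.ord b < 0`; take `b / a`: `P.ord < 0`,
`Q.ord > 0`.
`exists_sep_finset` (induction on `S`): `a` with `P.ord a < 0` and `Q.ord a > 0` for all `Q ∈ S`. Step
for `insert Q S`: `a` from the induction, `c` with `P.ord c < 0 < Q.ord c`. If `Q.ord a > 0`: ok. If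
`Q.ord a = 0`: `a ^ n * c` with `n` large. If `Q.ord a < 0`: `a ^ n / (1 + a ^ n) * c`: at `P` and `Q` the
first factor has order `0` (and `1 + a ^ n ≠ 0`), at the valuations of `S` the order is `n * ord a`,
choose `n` large.
`weak_approx`: `w = a ^ N / (1 + a ^ N)`, `w - 1 = - 1 / (1 + a ^ N)`; `P.ord (1 + a ^ N) =
N * P.ord a`, `Q.ord (1 + a ^ N) = 0` (`ord_add_eq`; `1 + a ^ N ≠ 0` because `P.ord (a ^ N) < 0`,
for `N ≥ 1`; for `N = 0` use `N = 1`).
`finite_bel`: if `Q₁, …, Q_r` are different valuations over `q`, take `w i` with `Q_i.ord (w i) = 0`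
(`weak_approx`) and `Q_j.ord (w i) ≥ M` for `j ≠ i`, `M = 1`. They are linearly independent over
`k`: in a relation `∑ a i • w i = 0` with `a i ∈ k` not all zero let `q.ord (a i₀)` be minimal among
the `a i ≠ 0`; at `Q_{i₀}` (index `e`): `ord (a i₀ w i₀) = e * q.ord (a i₀)`, all the other terms are `0` or have
order `≥ e * q.ord (a i₀) + 1`. So `r ≤ finrank k L` (`LinearIndependent.fintype_card_le_finrank`),
and a set all whose finite subsets have at most `n` elements is finite.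
-/

set_option autoImplicit false

open Pool.Agent.LibGMM Pool.Agent.LibCov80 Pool.Agent.LibK

namespace Pool.Agent.LibRR

section

variable {F : Type} [Field F] [Algebra ℂ F]

private theorem rr01_symm {P Q : DVal F} (h : P ≠ Q) : ∃ a : F, 0 ≤ P.ord a ∧ Q.ord a < 0 := by
  by_contra hcon
  push Not at hcon
  exact h (DVal.ext_ring fun x hx => hcon x hx)

theorem exists_sep {P Q : DVal F} (h : P ≠ Q) : ∃ a : F, a ≠ 0 ∧ P.ord a < 0 ∧ 0 < Q.ord a := by
  obtain ⟨a, ha, ha'⟩ := rr01_symm h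
  obtain ⟨b, hb, hb'⟩ := rr01_symm h.symm
  have ha0 : a ≠ 0 := by rintro rfl; simp at ha'
  have hb0 : b ≠ 0 := by rintro rfl; simp at hb'
  refine ⟨b / a, div_ne_zero hb0 ha0, ?_, ?_⟩
  · rw [P.ord_div hb0 ha0]; omega
  · rw [Q.ord_div hb0 ha0]; omega

/-- The orders of `1 + a ^ n`. -/
private theorem rr01_neg (P : DVal F) {a : F} (ha0 : a ≠ 0) (ha : P.ord a < 0) {n : ℕ}
    (hn : 0 < n) : 1 + a ^ n ≠ 0 ∧ P.ord (1 + a ^ n) = n * P.ord a := by
  have h1 : P.ord (a ^ n) = n * P.ord a := P.ord_pow a n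
  have hn' : (0 : ℤ) < n := by exact_mod_cast hn
  have h2 : P.ord (a ^ n) < P.ord (1 : F) := by
    rw [h1, P.ord_one]
    exact mul_neg_of_pos_of_neg hn' ha
  obtain ⟨h3, h4⟩ := P.ord_add_eq (pow_ne_zero n ha0) (Or.inr h2)
  rw [add_comm] at h3 h4
  exact ⟨h4, h3.trans h1⟩

private theorem rr01_pos (Q : DVal F) {a : F} (ha : 0 < Q.ord a) {n : ℕ}
    (hn : 0 < n) : 1 + a ^ n ≠ 0 ∧ Q.ord (1 + a ^ n) = 0 := by
  have h1 : Q.ord (a ^ n) = n * Q.ord a := Q.ord_pow a n
  have hn' : (0 : ℤ) < n := by exact_mod_cast hn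
  have h2 : Q.ord (1 : F) < Q.ord (a ^ n) := by
    rw [h1, Q.ord_one]
    exact mul_pos hn' ha
  obtain ⟨h3, h4⟩ := Q.ord_add_eq one_ne_zero (Or.inr h2)
  exact ⟨h4, by rw [h3, Q.ord_one]⟩

private theorem rr01_large (S : Finset (DVal F)) (c : F) : ∃ n : ℕ, 0 < n ∧
    ∀ Q ∈ S, ∀ m : ℤ, 0 < m → 0 < n * m + Q.ord c := by
  refine ⟨1 + ∑ Q ∈ S, (Q.ord c).natAbs, by omega, fun Q hQ m hm => ?_⟩
  have h1 : (Q.ord c).natAbs ≤ ∑ Q ∈ S, (Q.ord c).natAbs :=
    Finset.single_le_sum (f := fun Q : DVal F => (Q.ord c).natAbs) (fun _ _ => Nat.zero_le _) hQ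
  set T := ∑ Q ∈ S, (Q.ord c).natAbs
  have h2 : (-(Q.ord c) : ℤ) ≤ (T : ℤ) := by omega
  have h3 : ((1 + T : ℕ) : ℤ) ≤ ((1 + T : ℕ) : ℤ) * m := by
    have : (0 : ℤ) ≤ ((1 + T : ℕ) : ℤ) := by positivity
    nlinarith
  push_cast at h3 ⊢
  omega

theorem exists_sep_finset (P : DVal F) (S : Finset (DVal F)) (hS : P ∉ S) :
    ∃ a : F, a ≠ 0 ∧ P.ord a < 0 ∧ ∀ Q ∈ S, 0 < Q.ord a := by
  classical
  induction S using Finset.induction_on with
  | empty =>
    obtain ⟨t, ht⟩ := P.exists_ord_one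
    have ht0 : t ≠ 0 := by rintro rfl; simp at ht
    refine ⟨t⁻¹, inv_ne_zero ht0, ?_, by simp⟩
    rw [P.ord_inv]; omega
  | insert Q S hQ ih =>
    rw [Finset.mem_insert, not_or] at hS
    obtain ⟨a, ha0, haP, haS⟩ := ih hS.2
    obtain ⟨c, hc0, hcP, hcQ⟩ := exists_sep hS.1
    obtain ⟨n, hn, hnS⟩ := rr01_large S c
    have hn' : (0 : ℤ) < n := by exact_mod_cast hn
    have han : a ^ n ≠ 0 := pow_ne_zero n ha0
    rcases lt_trichotomy (Q.ord a) 0 with h | h | h
    · obtain ⟨h1, h2⟩ := rr01_neg P ha0 haP hn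
      obtain ⟨-, h3⟩ := rr01_neg Q ha0 h hn
      have hd : a ^ n / (1 + a ^ n) ≠ 0 := div_ne_zero han h1
      refine ⟨a ^ n / (1 + a ^ n) * c, mul_ne_zero hd hc0, ?_, ?_⟩
      · rw [P.ord_mul _ _ hd hc0, P.ord_div han h1, h2, P.ord_pow]; omega
      · intro R hR
        rw [R.ord_mul _ _ hd hc0, R.ord_div han h1, R.ord_pow]
        rcases Finset.mem_insert.1 hR with rfl | hR
        · rw [h3]; omega
        · obtain ⟨-, h4⟩ := rr01_pos R (haS R hR) hn
          rw [h4, sub_zero]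
          exact hnS R hR _ (haS R hR)
    · refine ⟨a ^ n * c, mul_ne_zero han hc0, ?_, ?_⟩
      · rw [P.ord_mul _ _ han hc0, P.ord_pow]
        have := mul_neg_of_pos_of_neg hn' haP
        omega
      · intro R hR
        rw [R.ord_mul _ _ han hc0, R.ord_pow]
        rcases Finset.mem_insert.1 hR with rfl | hR
        · rw [h, mul_zero]; omega
        · exact hnS R hR _ (haS R hR)
    · refine ⟨a, ha0, haP, fun R hR => ?_⟩
      rcases Finset.mem_insert.1 hR with rfl | hR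
      · exact h
      · exact haS R hR

/-- Weak approximation. -/
theorem weak_approx (P : DVal F) (S : Finset (DVal F)) (hS : P ∉ S) (N : ℕ) :
    ∃ w : F, w ≠ 0 ∧ P.ord w = 0 ∧ (w - 1 = 0 ∨ 0 < P.ord (w - 1)) ∧
      ∀ Q ∈ S, (N : ℤ) ≤ Q.ord w := by
  obtain ⟨a, ha0, haP, haS⟩ := exists_sep_finset P S hS
  have hn : 0 < N + 1 := N.succ_pos
  have han : a ^ (N + 1) ≠ 0 := pow_ne_zero _ ha0
  obtain ⟨h1, h2⟩ := rr01_neg P ha0 haP hn
  refine ⟨a ^ (N + 1) / (1 + a ^ (N + 1)), div_ne_zero han h1, ?_, Or.inr ?_, fun Q hQ => ?_⟩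
  · rw [P.ord_div han h1, h2, P.ord_pow]; omega
  · have h3 : a ^ (N + 1) / (1 + a ^ (N + 1)) - 1 = -(1 + a ^ (N + 1))⁻¹ := by
      field_simp
      ring
    rw [h3, P.ord_neg, P.ord_inv, h2]
    have : ((N + 1 : ℕ) : ℤ) * P.ord a < 0 :=
      mul_neg_of_pos_of_neg (by exact_mod_cast hn) haP
    omega
  · obtain ⟨-, h4⟩ := rr01_pos Q (haS Q hQ) hn
    rw [Q.ord_div han h1, h4, sub_zero, Q.ord_pow]
    have h5 := haS Q hQ
    push_cast
    nlinarith

end

section

variable {k L : Type} [Field k] [Field L] [Algebra ℂ k] [Algebra ℂ L] [Algebra k L]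
  [IsScalarTower ℂ k L] [FiniteDimensional k L]

private theorem rr01_card (q : DVal k) (S : Finset (DVal L)) (hS : ∀ Q ∈ S, bel k Q = q) :
    S.card ≤ Module.finrank k L := by
  classical
  have hw : ∀ Q : S, ∃ w : L, w ≠ 0 ∧ Q.1.ord w = 0 ∧ ∀ R ∈ S.erase Q.1, (1 : ℤ) ≤ R.ord w := by
    intro Q
    obtain ⟨w, h0, h1, -, h2⟩ := weak_approx Q.1 (S.erase Q.1) (Finset.notMem_erase _ _) 1
    exact ⟨w, h0, h1, by simpa using h2⟩
  choose w hw0 hw1 hw2 using hw
  have hli : LinearIndependent k w := by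
    rw [Fintype.linearIndependent_iff]
    intro g hg
    by_contra hcon
    push Not at hcon
    obtain ⟨i1, hi1⟩ := hcon
    -- the minimal order
    obtain ⟨i0, hi0, hmin⟩ := Finset.exists_min_image (Finset.univ.filter fun i : S => g i ≠ 0)
      (fun i => q.ord (g i)) ⟨i1, by simp [hi1]⟩
    rw [Finset.mem_filter] at hi0
    have hi0' := hi0.2
    set Q := i0.1 with hQdef
    have hQ : bel k Q = q := hS Q i0.2
    set e := rami k Q with hedef
    have he : 0 < e := rami_pos k Q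
    have hord : ∀ z : k, Q.ord (algebraMap k L z) = e * q.ord z := by
      intro z
      rw [ord_algebraMap k Q z, hQ]
    have hal : ∀ z : k, z ≠ 0 → algebraMap k L z ≠ 0 := fun z hz => by simpa using hz
    have h1 : Q.ord (g i0 • w i0) = e * q.ord (g i0) := by
      rw [Algebra.smul_def, Q.ord_mul _ _ (hal _ hi0') (hw0 i0), hord, hw1 i0, add_zero]
    have h2 : ∀ i ∈ Finset.univ.erase i0, g i • w i = 0 ∨ e * q.ord (g i0) + 1 ≤ Q.ord (g i • w i) := by
      intro i hi
      rw [Finset.mem_erase] at hi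
      by_cases hgi : g i = 0
      · left; simp [hgi]
      · right
        rw [Algebra.smul_def, Q.ord_mul _ _ (hal _ hgi) (hw0 i), hord]
        have h3 : (1 : ℤ) ≤ Q.ord (w i) := by
          apply hw2 i
          rw [Finset.mem_erase]
          exact ⟨fun h => hi.1 (Subtype.ext h.symm), i0.2⟩
        have h4 : q.ord (g i0) ≤ q.ord (g i) := hmin i (by simp [hgi])
        have h5 : (e : ℤ) * q.ord (g i0) ≤ e * q.ord (g i) :=
          mul_le_mul_of_nonneg_left h4 (by positivity)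
        omega
    have h3 : ∑ i ∈ Finset.univ.erase i0, g i • w i = 0 ∨
        e * q.ord (g i0) + 1 ≤ Q.ord (∑ i ∈ Finset.univ.erase i0, g i • w i) := by
      generalize (Finset.univ.erase i0 : Finset S) = T at h2 ⊢
      induction T using Finset.induction_on with
      | empty => left; simp
      | insert a s ha ih =>
        rw [Finset.sum_insert ha]
        exact Q.ord_add_ge (h2 a (by simp)) (ih fun i hi => h2 i (by simp [hi]))
    have h4 : g i0 • w i0 ≠ 0 := smul_ne_zero hi0' (hw0 i0)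
    have h5 := (Q.ord_add_eq h4 (b := ∑ i ∈ Finset.univ.erase i0, g i • w i)
      (h3.imp id fun h => by rw [h1]; omega)).2
    apply h5
    rw [Finset.add_sum_erase _ (fun i => g i • w i) (Finset.mem_univ i0)]
    exact hg
  have h6 := hli.fintype_card_le_finrank
  simpa using h6

/-- There are only finitely many valuations of `L` over a valuation of `k`. -/
theorem finite_bel (q : DVal k) : {Q : DVal L | bel k Q = q}.Finite := by
  by_contra hcon
  obtain ⟨S, hS, hcard⟩ := Set.Infinite.exists_subset_card_eq hcon (Module.finrank k L + 1)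
  have h1 := rr01_card q S fun Q hQ => hS hQ
  omega

end

end Pool.Agent.LibRR
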