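import Pool.Agent.LibRR.Geo
import Pool.Agent.LibKV.Nrm
import Pool.Agent.LibCov80.Ram

/-!
[RR G02] Traces and valuations. Let `M` be the normal closure of `L / k` (COPY the construction and the
verification from `LibKV.exists_norm_data` in `LibKV/Nrm.lean`, with
`Algebra.trace_eq_sum_embeddings` in place of `Algebra.norm_eq_prod_embeddings`), so that
`algebraMap k M (trace x) = ∑ τ, τ x` over `τ : L →ₐ[k] M`.

`trace_ord`: take `Q' : DVal M` over `q` (`LibKV.exists_above`), `Over Q' q E`. For every `τ`,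
`LibKV.exists_restrict` gives `Q` over `q` with indices `e, e'`, `e' * e = E`, `Q'.ord (τ x) =
e' * Q.ord x`; `bel k Q = q`, `rami k Q = e` by `bel_eq`. So `Q'.ord (τ f) = e' * Q.ord f ≥
e' * (1 - e - e * c) ≥ - E - E * c + 1` (`e' ≥ 1`), so the trace (if not `0`) has
`Q'.ord ≥ -E - E c + 1` (`ord_add_ge`; induction over the sum or `LibCov80.ord_sum_ge'`), and
`Q'.ord = E * q.ord (trace)`: `q.ord (trace) + c > -1`.

`trace_unit`: here we need `Q'` over `q` such that its restriction along SOME `τ₀` is `Q0`: let `τ₀`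
be any embedding `L → M`; make `M` an algebra over `L` by `τ₀` (as in the proof of
`exists_restrict`), `Q'` a valuation of `M` over `Q0` (`exists_above (k := L)`), `Over Q' Q0 e₀`. It
is over `q` by `Over.trans` (as in `exists_restrict`). For every `τ` the restriction of `Q'` along `τ` is
some `Q_τ` over `q`; if `Q_τ = Q0` then `τ w = 1 + τ (w - 1)` with `τ (w - 1) = 0` or
`Q'.ord > 0`, otherwise `Q'.ord (τ w) > 0` (or `w = 0`). So `trace w = m + r` with `m = #{τ | Q_τ = Q0}`,
`m ≥ 1` because of `τ₀`, `r = 0` or `Q'.ord r > 0`. `Q'.ord m = 0` (`ord_const`, characteristic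
zero), so the trace is not `0` and its order is `0` (`ord_add_eq`).
-/

set_option autoImplicit false

open Pool.Agent.LibGMM Pool.Agent.LibCov80 Pool.Agent.LibK

namespace Pool.Agent.LibRR

section

variable {k L : Type} [Field k] [Field L] [Algebra ℂ k] [Algebra ℂ L] [Algebra k L]
  [IsScalarTower ℂ k L] [FiniteDimensional k L]

/-- The normal closure and the trace. -/
theorem rrG02_closure (k L : Type) [Field k] [Field L] [Algebra ℂ k] [Algebra ℂ L] [Algebra k L]
    [IsScalarTower ℂ k L] [FiniteDimensional k L] :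
    ∃ (M : Type) (_ : Field M) (_ : Algebra ℂ M) (_ : Algebra k M) (_ : IsScalarTower ℂ k M)
      (_ : FiniteDimensional k M) (_ : Fintype (L →ₐ[k] M)), Nonempty (L →ₐ[k] M) ∧
      ∀ x : L, algebraMap k M (Algebra.trace k L x) = ∑ τ : L →ₐ[k] M, τ x := by
  classical
  have hsep := isSeparable (k := k) (K := L)
  let A := AlgebraicClosure k
  let M := IntermediateField.normalClosure k L A
  let _ : Algebra ℂ M := ((algebraMap k M).comp (algebraMap ℂ k)).toAlgebra
  have hT : IsScalarTower ℂ k M := IsScalarTower.of_algebraMap_eq fun x => rfl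
  have hfd : FiniteDimensional k M := inferInstance
  have hmem : ∀ (σ : L →ₐ[k] A) (x : L), σ x ∈ M := by
    intro σ x
    have h1 : σ.fieldRange ≤ M := AlgHom.fieldRange_le_normalClosure σ
    exact h1 ⟨x, rfl⟩
  let toL : (L →ₐ[k] A) → (L →ₐ[k] M) := fun σ =>
    AlgHom.codRestrict σ M.toSubalgebra (hmem σ)
  let eqv : (L →ₐ[k] A) ≃ (L →ₐ[k] M) :=
    { toFun := toL
      invFun := fun τ => M.val.comp τ
      left_inv := fun σ => AlgHom.ext fun x => rfl
      right_inv := fun τ => AlgHom.ext fun x => Subtype.ext rfl }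
  refine ⟨M, inferInstance, inferInstance, inferInstance, hT, hfd, inferInstance, ?_, ?_⟩
  · exact ⟨eqv (IsAlgClosed.lift (S := L) (M := A) (R := k))⟩
  · intro x
    apply (algebraMap M A).injective
    have h1 := trace_eq_sum_embeddings (K := k) (L := L) A (x := x)
    have h2 : algebraMap M A (algebraMap k M (Algebra.trace k L x)) =
        algebraMap k A (Algebra.trace k L x) := rfl
    rw [h2, h1, map_sum]
    exact Fintype.sum_equiv eqv _ _ fun σ => rfl

end

section

variable {k L : Type} [Field k] [Field L] [Algebra ℂ k] [Algebra ℂ L] [Algebra k L]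
  [IsScalarTower ℂ k L] [FiniteDimensional k L]
  {M : Type} [Field M] [Algebra ℂ M] [Algebra k M] [IsScalarTower ℂ k M] [FiniteDimensional k M]

theorem rrG02_ord [Fintype (L →ₐ[k] M)]
    (htr : ∀ x : L, algebraMap k M (Algebra.trace k L x) = ∑ τ : L →ₐ[k] M, τ x)
    (q : DVal k) (f : L) (c : ℤ)
    (hf : ∀ Q : DVal L, bel k Q = q → 0 ≤ Q.ord f + rami k Q - 1 + rami k Q * c)
    (h0 : Algebra.trace k L f ≠ 0) : 0 ≤ q.ord (Algebra.trace k L f) + c := by
  obtain ⟨Q', E, hQ'⟩ := Pool.Agent.LibKV.exists_above (K := M) q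
  have h1 : ∀ τ : L →ₐ[k] M, τ f = 0 ∨ -(E : ℤ) - E * c + 1 ≤ Q'.ord (τ f) := by
    intro τ
    right
    obtain ⟨Q, e, e', he', hover, hee, hord⟩ := Pool.Agent.LibKV.exists_restrict hQ' τ
    obtain ⟨h2, h3⟩ := bel_eq k hover
    have h4 := hf Q h2
    rw [h3] at h4
    rw [hord, ← hee]
    have h5 : (1 : ℤ) ≤ e' := by exact_mod_cast he'
    push_cast
    nlinarith [mul_le_mul_of_nonneg_left h4 (by omega : (0 : ℤ) ≤ e')]
  have h2 := ord_sum_ge' Q' Finset.univ (fun τ : L →ₐ[k] M => τ f) _ fun τ _ => h1 τ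
  rw [← htr] at h2
  rcases h2 with h2 | h2
  · exact absurd ((map_eq_zero _).1 h2) h0
  rw [hQ'.ord] at h2
  have hE : (1 : ℤ) ≤ E := by exact_mod_cast hQ'.pos
  by_contra hcon
  push Not at hcon
  have h3 : q.ord (Algebra.trace k L f) + c ≤ -1 := by omega
  nlinarith [mul_le_mul_of_nonneg_left h3 (by omega : (0 : ℤ) ≤ E)]

theorem rrG02_unit [Fintype (L →ₐ[k] M)] (τ₀ : L →ₐ[k] M)
    (htr : ∀ x : L, algebraMap k M (Algebra.trace k L x) = ∑ τ : L →ₐ[k] M, τ x)
    (q : DVal k) (Q0 : DVal L) (h0 : bel k Q0 = q) (w : L)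
    (h1 : w - 1 = 0 ∨ 0 < Q0.ord (w - 1))
    (h2 : ∀ Q : DVal L, bel k Q = q → Q ≠ Q0 → 0 < Q.ord w) :
    Algebra.trace k L w ≠ 0 ∧ q.ord (Algebra.trace k L w) = 0 := by
  classical
  obtain ⟨Q', E, hQ', hQ0⟩ : ∃ (Q' : DVal M) (E : ℕ), Over Q' q E ∧
      ∃ e0 : ℕ, 0 < e0 ∧ ∀ x : L, Q'.ord (τ₀ x) = e0 * Q0.ord x := by
    let _ : Algebra L M := τ₀.toRingHom.toAlgebra
    have hmap : ∀ x : L, algebraMap L M x = τ₀ x := fun x => rfl
    have h1 : IsScalarTower k L M := IsScalarTower.of_algebraMap_eq fun x => by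
      rw [hmap, AlgHom.commutes]
    have h2 : IsScalarTower ℂ L M := IsScalarTower.of_algebraMap_eq fun x => by
      rw [hmap, IsScalarTower.algebraMap_apply ℂ k L, AlgHom.commutes,
        ← IsScalarTower.algebraMap_apply]
    have h3 : FiniteDimensional L M := FiniteDimensional.right k L M
    obtain ⟨Q', e0, hQ'⟩ := Pool.Agent.LibKV.exists_above (K := M) Q0
    refine ⟨Q', e0 * rami k Q0, ⟨Nat.mul_pos hQ'.pos (rami_pos k Q0), fun x => ?_⟩, e0, hQ'.pos,
      fun x => hQ'.ord x⟩
    have h5 : algebraMap k M x = algebraMap L M (algebraMap k L x) :=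
      IsScalarTower.algebraMap_apply k L M x
    rw [h5, hQ'.ord, ord_algebraMap, h0]
    push_cast
    ring
  obtain ⟨e0, he0, hord0⟩ := hQ0
  -- the residues
  let good : Finset (L →ₐ[k] M) := Finset.univ.filter fun τ =>
    τ w - 1 = 0 ∨ 0 < Q'.ord (τ w - 1)
  have hτ : ∀ τ : L →ₐ[k] M, τ ∉ good → τ w = 0 ∨ 1 ≤ Q'.ord (τ w) := by
    intro τ hτ
    right
    obtain ⟨Q, e, e', he', hover, hee, hord⟩ := Pool.Agent.LibKV.exists_restrict hQ' τ
    obtain ⟨h3, h4⟩ := bel_eq k hover
    have he'1 : (1 : ℤ) ≤ e' := by exact_mod_cast he'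
    by_cases hQ : Q = Q0
    · exfalso
      apply hτ
      rw [Finset.mem_filter]
      refine ⟨Finset.mem_univ _, ?_⟩
      have h5 : τ w - 1 = τ (w - 1) := by rw [map_sub, map_one]
      rw [h5]
      rcases h1 with h1 | h1
      · left
        rw [h1, map_zero]
      · right
        rw [hord, hQ]
        exact mul_pos (by omega) h1
    · have h5 := h2 Q h3 hQ
      rw [hord]
      have h6 := mul_pos (by omega : (0 : ℤ) < e') h5
      omega
  have hgood : τ₀ ∈ good := by
    rw [Finset.mem_filter]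
    refine ⟨Finset.mem_univ _, ?_⟩
    have h5 : τ₀ w - 1 = τ₀ (w - 1) := by rw [map_sub, map_one]
    rw [h5]
    rcases h1 with h1 | h1
    · left
      rw [h1, map_zero]
    · right
      rw [hord0]
      exact mul_pos (by exact_mod_cast he0) h1
  -- the trace is the number of good embeddings plus an element of the maximal ideal
  let r : M := ∑ τ : L →ₐ[k] M, (if τ ∈ good then τ w - 1 else τ w)
  have hr : r = 0 ∨ 1 ≤ Q'.ord r := by
    refine ord_sum_ge' Q' Finset.univ _ 1 fun τ _ => ?_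
    split_ifs with hg
    · rcases (Finset.mem_filter.1 hg).2 with h3 | h3
      · exact Or.inl h3
      · exact Or.inr h3
    · exact hτ τ hg
  have hsum : algebraMap k M (Algebra.trace k L w) = (good.card : M) + r := by
    rw [htr]
    have h3 : ∀ τ : L →ₐ[k] M, τ w = (if τ ∈ good then 1 else 0) +
        (if τ ∈ good then τ w - 1 else τ w) := by
      intro τ
      split_ifs
      · ring
      · ring
    rw [Finset.sum_congr rfl fun τ _ => h3 τ, Finset.sum_add_distrib]
    congr 1
    rw [Finset.sum_ite_mem, Finset.univ_inter, Finset.sum_const, nsmul_eq_mul, mul_one]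
  have hcard : good.card ≠ 0 := by
    intro h3
    rw [Finset.card_eq_zero] at h3
    rw [h3] at hgood
    exact Finset.notMem_empty _ hgood
  have hchar : CharZero M := charZero_of_injective_algebraMap (algebraMap ℂ M).injective
  have hne : (good.card : M) ≠ 0 := Nat.cast_ne_zero.2 hcard
  have hord1 : Q'.ord (good.card : M) = 0 := by
    have h3 := Q'.ord_const (good.card : ℂ)
    rwa [map_natCast] at h3
  have h3 := Q'.ord_add_eq hne (b := r) (by
    rcases hr with hr | hr
    · exact Or.inl hr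
    · right
      omega)
  rw [← hsum, hord1] at h3
  obtain ⟨h4, h5⟩ := h3
  have h6 : Algebra.trace k L w ≠ 0 := fun h => h5 (by rw [h, map_zero])
  refine ⟨h6, ?_⟩
  rw [hQ'.ord] at h4
  rcases mul_eq_zero.1 h4 with h7 | h7
  · have h8 := hQ'.pos
    omega
  · exact h7

end

section

variable {k L : Type} [Field k] [Field L] [Algebra ℂ k] [Algebra ℂ L] [Algebra k L]
  [IsScalarTower ℂ k L] [FiniteDimensional k L]

/-- The order of a trace. -/
theorem trace_ord (q : DVal k) (f : L) (c : ℤ)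
    (hf : ∀ Q : DVal L, bel k Q = q → 0 ≤ Q.ord f + rami k Q - 1 + rami k Q * c)
    (h0 : Algebra.trace k L f ≠ 0) : 0 ≤ q.ord (Algebra.trace k L f) + c := by
  obtain ⟨M, _, _, _, _, _, _, _, htr⟩ := rrG02_closure k L
  exact rrG02_ord htr q f c hf h0

/-- The trace of an element which is `1` at `Q0` and `0` at the other valuations over `q` is a
unit. -/
theorem trace_unit (q : DVal k) (Q0 : DVal L) (h0 : bel k Q0 = q) (w : L)
    (h1 : w - 1 = 0 ∨ 0 < Q0.ord (w - 1))
    (h2 : ∀ Q : DVal L, bel k Q = q → Q ≠ Q0 → 0 < Q.ord w) :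
    Algebra.trace k L w ≠ 0 ∧ q.ord (Algebra.trace k L w) = 0 := by
  obtain ⟨M, _, _, _, _, _, _, ⟨τ₀⟩, htr⟩ := rrG02_closure k L
  exact rrG02_unit τ₀ htr q Q0 h0 w h1 h2

end

end Pool.Agent.LibRR
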