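import Pool.Agent.LibRR.G01
import Pool.Agent.LibRR.G02

/-!
[RR G03] Local duality for the trace. Suppose `Q0.ord z ≤ D Q0 - e - e * c`, `e = rami k Q0`. Let
`t ∈ k`, `q.ord t = 1`, `S` = the other valuations over `q` (`finite_bel`), `w` from `weak_approx`
with `N ≥ rami k Q * (c + 1) + Q.ord z - D Q` for all `Q ∈ S` and `N ≥ 1`. Put
`f = w / (z * t ^ (c + 1))` (`zpow`). Then `Q0.ord f = - Q0.ord z - e (c + 1) ≥ - D Q0`,
`Q.ord f = Q.ord w - Q.ord z - rami k Q * (c + 1) ≥ - D Q`; `trace (z * f) = trace w / t ^ (c + 1)` (linearity: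
`z * f = algebraMap (t ^ (-(c+1))) * w = t ^ (-(c+1)) • w`) has order `-(c + 1)` by `trace_unit`,
contradicting `hz`.
-/

set_option autoImplicit false

open Pool.Agent.LibGMM Pool.Agent.LibCov80 Pool.Agent.LibK

namespace Pool.Agent.LibRR

variable {k L : Type} [Field k] [Field L] [Algebra ℂ k] [Algebra ℂ L] [Algebra k L]
  [IsScalarTower ℂ k L] [FiniteDimensional k L]

theorem local_dual (q : DVal k) (D : DVal L → ℤ) (c : ℤ) (z : L) (hz0 : z ≠ 0)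
    (hz : ∀ f : L, f ≠ 0 → (∀ Q : DVal L, bel k Q = q → 0 ≤ Q.ord f + D Q) →
      Algebra.trace k L (z * f) ≠ 0 → 0 ≤ q.ord (Algebra.trace k L (z * f)) + c)
    (Q0 : DVal L) (h0 : bel k Q0 = q) :
    0 ≤ Q0.ord z - D Q0 + rami k Q0 - 1 + rami k Q0 * c := by
  classical
  by_contra hcon
  push Not at hcon
  obtain ⟨t, ht⟩ := q.exists_ord_one
  have ht0 : t ≠ 0 := by
    rintro rfl
    rw [q.ord_zero] at ht
    exact absurd ht (by norm_num)
  have hT0 : algebraMap k L t ≠ 0 := (map_ne_zero _).2 ht0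
  obtain ⟨S, hS⟩ : ∃ S : Finset (DVal L), S = (finite_bel (L := L) q).toFinset.erase Q0 := ⟨_, rfl⟩
  have hS0 : Q0 ∉ S := by
    rw [hS]
    exact Finset.notMem_erase _ _
  have hmem : ∀ Q : DVal L, bel k Q = q → Q ≠ Q0 → Q ∈ S := by
    intro Q hQ hne
    rw [hS, Finset.mem_erase]
    exact ⟨hne, (Set.Finite.mem_toFinset _).2 hQ⟩
  obtain ⟨N, hN⟩ : ∃ N : ℕ, N = 1 + ∑ Q ∈ S, ((rami k Q : ℤ) * (c + 1) + Q.ord z - D Q).toNat :=
    ⟨_, rfl⟩
  have hNge : ∀ Q ∈ S, (rami k Q : ℤ) * (c + 1) + Q.ord z - D Q ≤ N := by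
    intro Q hQ
    have h1 := Finset.single_le_sum
      (f := fun Q : DVal L => ((rami k Q : ℤ) * (c + 1) + Q.ord z - D Q).toNat)
      (fun _ _ => Nat.zero_le _) hQ
    have h2 := Int.self_le_toNat ((rami k Q : ℤ) * (c + 1) + Q.ord z - D Q)
    have h3 : (((rami k Q : ℤ) * (c + 1) + Q.ord z - D Q).toNat : ℤ) ≤ N := by
      rw [hN]
      exact_mod_cast le_trans h1 (Nat.le_add_left _ _)
    exact h2.trans h3
  have hN1 : (1 : ℤ) ≤ N := by
    rw [hN]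
    push_cast
    have : (0 : ℤ) ≤ ∑ Q ∈ S, ((((rami k Q : ℤ) * (c + 1) + Q.ord z - D Q).toNat : ℕ) : ℤ) :=
      Finset.sum_nonneg fun _ _ => Int.natCast_nonneg _
    linarith
  obtain ⟨w, hw0, hwQ0, hw1, hwS⟩ := weak_approx Q0 S hS0 N
  obtain ⟨f, hf⟩ : ∃ f : L, f = w * (z⁻¹ * (algebraMap k L t) ^ (-(c + 1))) := ⟨_, rfl⟩
  have hz1 : z⁻¹ ≠ 0 := inv_ne_zero hz0
  have hT1 : (algebraMap k L t) ^ (-(c + 1)) ≠ 0 := zpow_ne_zero _ hT0
  have hf0 : f ≠ 0 := by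
    rw [hf]
    exact mul_ne_zero hw0 (mul_ne_zero hz1 hT1)
  have hford : ∀ Q : DVal L, bel k Q = q →
      Q.ord f = Q.ord w - Q.ord z - (rami k Q : ℤ) * (c + 1) := by
    intro Q hQ
    rw [hf, Q.ord_mul _ _ hw0 (mul_ne_zero hz1 hT1), Q.ord_mul _ _ hz1 hT1, DVal.ord_inv,
      DVal.ord_zpow, ord_algebraMap (k := k), hQ, ht]
    ring
  have hDf : ∀ Q : DVal L, bel k Q = q → 0 ≤ Q.ord f + D Q := by
    intro Q hQ
    rw [hford Q hQ]
    by_cases hne : Q = Q0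
    · rw [hne, hwQ0]
      have : (rami k Q0 : ℤ) * (c + 1) = rami k Q0 * c + rami k Q0 := by ring
      linarith
    · have h1 := hwS Q (hmem Q hQ hne)
      have h2 := hNge Q (hmem Q hQ hne)
      linarith
  have hzf : z * f = algebraMap k L (t ^ (-(c + 1))) * w := by
    rw [hf, map_zpow₀]
    field_simp
  have htr : Algebra.trace k L (z * f) = t ^ (-(c + 1)) * Algebra.trace k L w := by
    rw [hzf, ← Algebra.smul_def, map_smul, smul_eq_mul]
  obtain ⟨hu0, hu1⟩ := trace_unit q Q0 h0 w hw1 (fun Q hQ hne => by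
    have h1 := hwS Q (hmem Q hQ hne)
    linarith)
  have ht1 : t ^ (-(c + 1)) ≠ 0 := zpow_ne_zero _ ht0
  have h3 := hz f hf0 hDf (by rw [htr]; exact mul_ne_zero ht1 hu0)
  rw [htr, q.ord_mul _ _ ht1 hu0, hu1, DVal.ord_zpow, ht] at h3
  linarith

end Pool.Agent.LibRR
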