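import Pool.Agent.LibRR.Geo
import Pool.Agent.LibKB1a.B3
import Pool.Agent.LibKB1a.E2
import Pool.Agent.LibGMM.G5

/-!
PART N (helper85). The projective plane as a normal model of `k = ℂ(x, y)`, with the prime divisors
`planeAll x y`.
-/

set_option autoImplicit false

open Pool.Agent.LibGMM Pool.Agent.LibCov80 Pool.Agent.LibK
open Pool.Agent.LibKB1a (planeAll IsInf Aff Ess Pol)

namespace Pool.Agent.LibRR

section

variable {k : Type} [Field k] [Algebra ℂ k]

/-- The prime divisors of a normal model are the essential valuations of its charts. -/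
theorem n01_isPrimeDiv_iff (X : NormalModel k) (q : DVal k) :
    X.IsPrimeDiv q ↔ ∃ i, Ess (chart X.g i) q := by
  constructor
  · rintro ⟨p, hc, hl⟩
    refine ⟨p.i, fun a ha => (hc ⟨a, ha⟩).1, fun f hf => ?_⟩
    obtain ⟨a, b, hb, hab⟩ := hl f hf
    have h1 : ¬ ((b : chart X.g p.i) = 0 ∨ 0 < q.ord (b : k)) := fun h => hb ((hc b).2.2 h)
    push Not at h1
    have h2 := (hc b).1
    refine ⟨a, a.2, b, b.2, fun h => h1.1 (Subtype.ext h), le_antisymm h1.2 h2, hab⟩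
  · rintro ⟨i, hle, hfr⟩
    obtain ⟨p, rfl, hp⟩ := X.exists_centre' q i fun j => hle (Algebra.subset_adjoin ⟨j, rfl⟩)
    refine ⟨p, hp, fun x hx => ?_⟩
    obtain ⟨a, ha, b, hb, hb0, hbq, hab⟩ := hfr x hx
    refine ⟨⟨a, ha⟩, ⟨b, hb⟩, fun h => ?_, hab⟩
    rcases (hp ⟨b, hb⟩).2.1 h with h1 | h1
    · exact hb0 (congrArg Subtype.val h1)
    · change 0 < q.ord b at h1
      omega

theorem n01_frac {a b : k} (h : IsPlane a b) (f : k) :
    ∃ p ∈ Aff a b, ∃ q ∈ Aff a b, q ≠ 0 ∧ f = p / q := by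
  obtain ⟨P, Q, hQ, hf⟩ := Pool.Agent.LibKB1a.exists_div h f
  exact ⟨_, ⟨P, rfl⟩, _, ⟨Q, rfl⟩, Pool.Agent.LibKB1a.ev_ne_zero h hQ, hf⟩

theorem n01_normal {a b : k} (h : IsPlane a b) {f : k} (hf : IsIntegral (Aff a b) f) :
    f ∈ Aff a b := by
  have hinj : Function.Injective (Pool.Agent.LibKB1a.ev a b) :=
    Pool.Agent.LibKB1a.ev_injective h
  have e : Pol ≃ₐ[ℂ] Aff a b := AlgEquiv.ofInjective _ hinj
  have h2 : IsIntegrallyClosed (Aff a b) := IsIntegrallyClosed.of_equiv e.toRingEquiv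
  have h3 : IsFractionRing (Aff a b) k := by
    refine IsFractionRing.of_field _ _ fun z => ?_
    obtain ⟨p, hp, q, hq, hq0, hz⟩ := n01_frac h z
    exact ⟨⟨p, hp⟩, ⟨q, hq⟩, hz⟩
  obtain ⟨y, hy⟩ := (IsIntegrallyClosed.isIntegral_iff (R := Aff a b)).1 hf
  rw [← hy]
  exact y.2

/-- The homogeneous coordinates `1, x, y`. -/
noncomputable def planeG {x y : k} (hx : x ≠ 0) (hy : y ≠ 0) : Fin 3 → kˣ :=
  ![1, Units.mk0 x hx, Units.mk0 y hy]

theorem n01_chart {x y : k} (hx : x ≠ 0) (hy : y ≠ 0) (i : Fin 3) :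
    chart (planeG hx hy) i = ![Aff x y, Aff x⁻¹ (y / x), Aff y⁻¹ (x / y)] i := by
  have hA : ∀ a b : k, a ∈ Aff a b ∧ b ∈ Aff a b := fun a b =>
    ⟨⟨MvPolynomial.X 0, Pool.Agent.LibKB1a.ev_X0 a b⟩, ⟨MvPolynomial.X 1, Pool.Agent.LibKB1a.ev_X1 a b⟩⟩
  have hm : ∀ i j : Fin 3, ((planeG hx hy j : kˣ) : k) / (planeG hx hy i : kˣ) ∈
      chart (planeG hx hy) i := fun i j => Algebra.subset_adjoin ⟨j, rfl⟩
  fin_cases i
  · change chart (planeG hx hy) 0 = Aff x y
    refine le_antisymm (Algebra.adjoin_le ?_) (Pool.Agent.LibKB1a.e2_le ?_ ?_)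
    · rintro _ ⟨j, rfl⟩
      fin_cases j
      · simpa [planeG] using Subalgebra.one_mem (Aff x y)
      · simpa [planeG] using (hA x y).1
      · simpa [planeG] using (hA x y).2
    · simpa [planeG] using hm 0 1
    · simpa [planeG] using hm 0 2
  · change chart (planeG hx hy) 1 = Aff x⁻¹ (y / x)
    refine le_antisymm (Algebra.adjoin_le ?_) (Pool.Agent.LibKB1a.e2_le ?_ ?_)
    · rintro _ ⟨j, rfl⟩
      fin_cases j
      · simpa [planeG] using (hA x⁻¹ (y / x)).1
      · simpa [planeG, div_self hx] using Subalgebra.one_mem (Aff x⁻¹ (y / x))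
      · simpa [planeG] using (hA x⁻¹ (y / x)).2
    · simpa [planeG] using hm 1 0
    · simpa [planeG] using hm 1 2
  · change chart (planeG hx hy) 2 = Aff y⁻¹ (x / y)
    refine le_antisymm (Algebra.adjoin_le ?_) (Pool.Agent.LibKB1a.e2_le ?_ ?_)
    · rintro _ ⟨j, rfl⟩
      fin_cases j
      · simpa [planeG] using (hA y⁻¹ (x / y)).1
      · simpa [planeG] using (hA y⁻¹ (x / y)).2
      · simpa [planeG, div_self hy] using Subalgebra.one_mem (Aff y⁻¹ (x / y))
    · simpa [planeG] using hm 2 0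
    · simpa [planeG] using hm 2 1

theorem n01_chart' {x y : k} (h : IsPlane x y) (hx : x ≠ 0) (hy : y ≠ 0) (i : Fin 3) :
    ∃ a b, IsPlane a b ∧ chart (planeG hx hy) i = Aff a b ∧ planeAll a b = planeAll x y := by
  have h1 := n01_chart hx hy i
  fin_cases i
  · exact ⟨x, y, h, h1, rfl⟩
  · exact ⟨x⁻¹, y / x, Pool.Agent.LibKB1a.isPlane_inv h, h1, Pool.Agent.LibKB1a.planeAll_inv h⟩
  · exact ⟨y⁻¹, x / y, Pool.Agent.LibKB1a.isPlane_inv' h, h1,
      Pool.Agent.LibKB1a.planeAll_inv' h⟩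

/-- The projective plane. -/
noncomputable def planeModel {x y : k} (h : IsPlane x y) : NormalModel k where
  ι := Fin 3
  fin := inferInstance
  ne := inferInstance
  g := planeG (Pool.Agent.LibKB1a.ne_zero_of_isPlane h).1
    (Pool.Agent.LibKB1a.ne_zero_of_isPlane h).2
  frac := by
    intro i f
    obtain ⟨a, b, hab, h1, -⟩ := n01_chart' h _ _ i
    rw [h1]
    exact n01_frac hab f
  normal := by
    intro i f
    obtain ⟨a, b, hab, h1, -⟩ := n01_chart' h _ _ i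
    have h2 : ∀ B : Subalgebra ℂ k, B = Aff a b → IsIntegral B f → f ∈ B := by
      rintro B rfl hf
      exact n01_normal hab hf
    exact h2 _ h1

theorem planeModel_g {x y : k} (h : IsPlane x y) : (planeModel h).g =
    planeG (Pool.Agent.LibKB1a.ne_zero_of_isPlane h).1
      (Pool.Agent.LibKB1a.ne_zero_of_isPlane h).2 := rfl

theorem planeModel_isPrimeDiv {x y : k} (h : IsPlane x y) (q : DVal k) :
    (planeModel h).IsPrimeDiv q ↔ q ∈ planeAll x y := by
  rw [n01_isPrimeDiv_iff]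
  constructor
  · rintro ⟨i, hi⟩
    obtain ⟨a, b, hab, h1, h2⟩ := n01_chart' h _ _ i
    have h3 : chart (planeModel h).g i = Aff a b := h1
    rw [h3] at hi
    rw [← h2]
    exact Or.inl hi
  · rintro (h1 | h1)
    · refine ⟨(0 : Fin 3), ?_⟩
      have h2 : chart (planeModel h).g (0 : Fin 3) = Aff x y := n01_chart _ _ 0
      rw [h2]
      exact h1
    · refine ⟨(1 : Fin 3), ?_⟩
      have h2 : chart (planeModel h).g (1 : Fin 3) = Aff x⁻¹ (y / x) := n01_chart _ _ 1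
      rw [h2, Pool.Agent.LibKB1a.ess_aff_iff (Pool.Agent.LibKB1a.isPlane_inv h)]
      exact ⟨_, MvPolynomial.X_prime, (Pool.Agent.LibKB1a.isInf_iff h q).1 h1⟩

end

end Pool.Agent.LibRR
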