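import Pool.Agent.LibRR.Defs

/-!
[RR A01] Basic facts on `HP` and the homogeneous components `hc`.

All are immediate from `MvPolynomial.homogeneousSubmodule`, `MvPolynomial.IsHomogeneous.mul`,
`MvPolynomial.homogeneousComponent_of_mem`, `MvPolynomial.homogeneousComponent_mem`,
`MvPolynomial.sum_homogeneousComponent`. `HP_cancel`: write `q` as the sum of its components; for a
component `q_j`, `j ≠ n`, the product `p q_j` is the component of degree `m + j` of `p q`, hence
zero. `hc_mul`: linear in `p`, so `p` homogeneous suffices (induction with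
`MvPolynomial.sum_homogeneousComponent`).
-/

set_option autoImplicit false

namespace Pool.Agent.LibRR

theorem mem_HP_nat (n : ℕ) {p : A3} : p ∈ HP n ↔ p.IsHomogeneous n := by
  simp [HP, MvPolynomial.mem_homogeneousSubmodule]

theorem HP_neg {m : ℤ} (hm : m < 0) : HP m = ⊥ := by
  simp [HP, not_le.2 hm]

theorem HP_mul {m n : ℤ} {p q : A3} (hp : p ∈ HP m) (hq : q ∈ HP n) : p * q ∈ HP (m + n) := by
  rcases lt_or_ge m 0 with hm | hm
  · rw [HP_neg hm, Submodule.mem_bot] at hp
    rw [hp, zero_mul]; exact Submodule.zero_mem _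
  rcases lt_or_ge n 0 with hn | hn
  · rw [HP_neg hn, Submodule.mem_bot] at hq
    rw [hq, mul_zero]; exact Submodule.zero_mem _
  obtain ⟨a, rfl⟩ := Int.eq_ofNat_of_zero_le hm
  obtain ⟨b, rfl⟩ := Int.eq_ofNat_of_zero_le hn
  rw [mem_HP_nat] at hp hq
  have := (mem_HP_nat (a + b)).2 (hp.mul hq)
  simpa using this

theorem HP_X (i : Fin 3) : (MvPolynomial.X i : A3) ∈ HP 1 :=
  (mem_HP_nat 1).2 (MvPolynomial.isHomogeneous_X ℂ i)

theorem HP_C (c : ℂ) : (MvPolynomial.C c : A3) ∈ HP 0 :=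
  (mem_HP_nat 0).2 (MvPolynomial.isHomogeneous_C (Fin 3) c)

theorem HP_pow {m : ℤ} {p : A3} (hp : p ∈ HP m) (n : ℕ) : p ^ n ∈ HP (n * m) := by
  induction n with
  | zero => simpa using HP_C 1
  | succ n ih =>
    have h := HP_mul ih hp
    have e : ((n : ℤ) * m + m) = ((n + 1 : ℕ) : ℤ) * m := by push_cast; ring
    rw [pow_succ, ← e]; exact h

/-- A homogeneous polynomial which is homogeneous of two different degrees is zero. -/
theorem HP_disjoint {m n : ℤ} (hmn : m ≠ n) {p : A3} (hp : p ∈ HP m) (hq : p ∈ HP n) : p = 0 := by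
  rcases lt_or_ge m 0 with hm | hm
  · rwa [HP_neg hm, Submodule.mem_bot] at hp
  rcases lt_or_ge n 0 with hn | hn
  · rwa [HP_neg hn, Submodule.mem_bot] at hq
  obtain ⟨a, rfl⟩ := Int.eq_ofNat_of_zero_le hm
  obtain ⟨b, rfl⟩ := Int.eq_ofNat_of_zero_le hn
  rw [mem_HP_nat] at hp hq
  by_contra h0
  exact hmn (by rw [hp.inj_right hq h0])

theorem hc_mem (m : ℤ) (p : A3) : hc m p ∈ HP m := by
  rcases lt_or_ge m 0 with hm | hm
  · simp [hc, not_le.2 hm]
  · obtain ⟨a, rfl⟩ := Int.eq_ofNat_of_zero_le hm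
    rw [mem_HP_nat]
    simpa [hc] using MvPolynomial.homogeneousComponent_isHomogeneous a p

theorem hc_of_mem {m : ℤ} {p : A3} (hp : p ∈ HP m) : hc m p = p := by
  rcases lt_or_ge m 0 with hm | hm
  · rw [HP_neg hm, Submodule.mem_bot] at hp
    rw [hp, map_zero]
  · obtain ⟨a, rfl⟩ := Int.eq_ofNat_of_zero_le hm
    rw [mem_HP_nat] at hp
    have := MvPolynomial.homogeneousComponent_of_mem (m := a) (n := a)
      ((MvPolynomial.mem_homogeneousSubmodule a p).2 hp)
    simpa [hc] using this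

theorem hc_of_mem_ne {m n : ℤ} (hmn : m ≠ n) {p : A3} (hp : p ∈ HP n) : hc m p = 0 := by
  rcases lt_or_ge m 0 with hm | hm
  · simp [hc, not_le.2 hm]
  rcases lt_or_ge n 0 with hn | hn
  · rw [HP_neg hn, Submodule.mem_bot] at hp
    rw [hp, map_zero]
  obtain ⟨a, rfl⟩ := Int.eq_ofNat_of_zero_le hm
  obtain ⟨b, rfl⟩ := Int.eq_ofNat_of_zero_le hn
  rw [mem_HP_nat] at hp
  have := MvPolynomial.homogeneousComponent_of_mem (m := a) (n := b)
      ((MvPolynomial.mem_homogeneousSubmodule b p).2 hp)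
  have hab : ¬ (a = b) := fun h => hmn (by rw [h])
  simpa [hc, hab] using this

/-- A polynomial all of whose homogeneous components vanish is zero. -/
theorem eq_zero_of_hc {p : A3} (h : ∀ m, hc m p = 0) : p = 0 := by
  rw [← MvPolynomial.sum_homogeneousComponent p]
  refine Finset.sum_eq_zero fun i _ => ?_
  have := h i
  simpa [hc] using this

theorem hc_sum_range (p : A3) :
    p = ∑ i ∈ Finset.range (p.totalDegree + 1), hc (i : ℤ) p := by
  conv_lhs => rw [← MvPolynomial.sum_homogeneousComponent p]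
  refine Finset.sum_congr rfl fun i _ => ?_
  simp [hc]

theorem hc_mul {m n : ℤ} {q : A3} (hq : q ∈ HP n) (p : A3) : hc (m + n) (q * p) = q * hc m p := by
  have key : ∀ (j : ℕ) (r : A3), r ∈ HP (j : ℤ) → hc (m + n) (q * r) = q * hc m r := by
    intro j r hr
    have h1 : q * r ∈ HP (n + j) := HP_mul hq hr
    by_cases hj : m = j
    · subst hj
      rw [hc_of_mem hr, hc_of_mem (by rwa [add_comm])]
    · rw [hc_of_mem_ne hj hr, hc_of_mem_ne (fun h => hj (by linarith)) h1, mul_zero]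
  conv_lhs => rw [hc_sum_range p]
  conv_rhs => rw [hc_sum_range p]
  rw [Finset.mul_sum, map_sum, map_sum, Finset.mul_sum]
  exact Finset.sum_congr rfl fun i _ => key i _ (hc_mem _ _)

theorem HP_cancel {m n : ℤ} {p q : A3} (hp0 : p ≠ 0) (hp : p ∈ HP m) (hpq : p * q ∈ HP (m + n)) :
    q ∈ HP n := by
  have h1 : q - hc n q = 0 := by
    apply eq_zero_of_hc
    intro j
    by_cases hj : j = n
    · subst hj
      rw [map_sub, hc_of_mem (hc_mem _ _), sub_self]
    · rw [map_sub, hc_of_mem_ne hj (hc_mem _ _), sub_zero]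
      have h2 : hc (j + m) (p * q) = p * hc j q := hc_mul hp q
      rw [hc_of_mem_ne (fun h => hj (by linarith)) hpq] at h2
      exact (mul_eq_zero.1 h2.symm).resolve_left hp0
  rw [sub_eq_zero.1 h1]
  exact hc_mem _ _

theorem smul_mem_F0 {I : Type} {d : I → ℤ} {m n : ℤ} {p : A3} {a : I → A3} (hp : p ∈ HP m)
    (ha : a ∈ F0 d n) : p • a ∈ F0 d (m + n) := by
  intro i
  have h := HP_mul hp (ha i)
  rw [Pi.smul_apply, smul_eq_mul, add_sub_assoc]
  exact h

end Pool.Agent.LibRR
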