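import Pool.Agent.LibRR.A01

/-!
[RR A02] The dimension of the space of homogeneous polynomials of degree `m` in three variables.

`HP m` for `m = n ∈ ℕ` is `MvPolynomial.homogeneousSubmodule (Fin 3) ℂ n`, which is
`AddMonoidAlgebra.supported` on the finite set of exponents `s : Fin 3 →₀ ℕ` of degree `n`
(`MvPolynomial.homogeneousSubmodule_eq_finsupp_supported`). The number of these exponents is
`(n + 1)(n + 2)/2`.
-/

set_option autoImplicit false

namespace Pool.Agent.LibRR

theorem rrA02_set (n : ℕ) : {d : Fin 3 →₀ ℕ | d.degree = n} =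
    ((Finset.univ : Finset (Fin 3)).finsuppAntidiag n : Set (Fin 3 →₀ ℕ)) := by
  ext d
  simp only [Set.mem_ofPred_eq, Finset.mem_coe, Finset.mem_finsuppAntidiag, Finset.subset_univ,
    and_true]
  rw [Finsupp.degree_eq_sum]

noncomputable def rrA02_equiv (n : ℕ) : MvPolynomial.homogeneousSubmodule (Fin 3) ℂ n ≃ₗ[ℂ]
    (((Finset.univ : Finset (Fin 3)).finsuppAntidiag n : Set (Fin 3 →₀ ℕ)) →₀ ℂ) :=
  (LinearEquiv.ofEq _ _ (by
    rw [MvPolynomial.homogeneousSubmodule_eq_finsupp_supported, rrA02_set])).trans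
    (AddMonoidAlgebra.supportedEquivFinsupp (R := ℂ) (S := ℂ)
      ((Finset.univ : Finset (Fin 3)).finsuppAntidiag n : Set (Fin 3 →₀ ℕ)))

theorem rrA02_finite (n : ℕ) : Module.Finite ℂ (MvPolynomial.homogeneousSubmodule (Fin 3) ℂ n) :=
  Module.Finite.equiv (rrA02_equiv n).symm

theorem rrA02_finrank (n : ℕ) :
    Module.finrank ℂ (MvPolynomial.homogeneousSubmodule (Fin 3) ℂ n) = (n + 2).choose 2 := by
  rw [(rrA02_equiv n).finrank_eq, Module.finrank_finsupp_self]
  have h1 := Finset.card_finsuppAntidiag_nat_eq_choose (s := (Finset.univ : Finset (Fin 3))) n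
  have h2 : Fintype.card
      ((Finset.univ : Finset (Fin 3)).finsuppAntidiag n : Set (Fin 3 →₀ ℕ)) =
      ((Finset.univ : Finset (Fin 3)).finsuppAntidiag n).card := by
    rw [← Set.toFinset_card]
    congr 1
    exact Finset.toFinset_coe _
  rw [h2, h1, Finset.card_univ, Fintype.card_fin]
  have h3 : 3 + n - 1 = n + 2 := by omega
  rw [h3]
  exact Nat.choose_symm_of_eq_add rfl

theorem rrA02_two (n : ℕ) : 2 * (n + 2).choose 2 = (n + 1) * (n + 2) := by
  induction n with
  | zero => decide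
  | succ n ih =>
    have h1 : (n + 1 + 2).choose 2 = (n + 2).choose 1 + (n + 2).choose 2 :=
      Nat.choose_succ_succ (n + 2) 1
    rw [h1, Nat.choose_one_right, mul_add, ih]
    ring

theorem rrA02_HP {m : ℤ} (hm : 0 ≤ m) :
    HP m = MvPolynomial.homogeneousSubmodule (Fin 3) ℂ m.toNat := by
  unfold HP
  rw [if_pos hm]

theorem rrA02_HP' {m : ℤ} (hm : m < 0) : HP m = ⊥ := by
  unfold HP
  rw [if_neg (not_le.2 hm)]

theorem finite_HP (m : ℤ) : Module.Finite ℂ (HP m) := by
  rcases le_or_gt 0 m with hm | hm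
  · rw [rrA02_HP hm]
    exact rrA02_finite _
  · rw [rrA02_HP' hm]
    infer_instance

theorem finrank_HP_neg {m : ℤ} (hm : m < 0) : Module.finrank ℂ (HP m) = 0 := by
  rw [rrA02_HP' hm]
  exact finrank_bot ℂ A3

theorem two_finrank_HP_of_nonneg {m : ℤ} (hm : 0 ≤ m + 2) :
    2 * (Module.finrank ℂ (HP m) : ℤ) = (m + 1) * (m + 2) := by
  rcases le_or_gt 0 m with h | h
  · rw [rrA02_HP h, rrA02_finrank]
    have h1 := rrA02_two m.toNat
    have h2 : ((m.toNat : ℕ) : ℤ) = m := Int.toNat_of_nonneg h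
    have h3 : (2 : ℤ) * (((m.toNat + 2).choose 2 : ℕ) : ℤ) =
        (((m.toNat : ℕ) : ℤ) + 1) * (((m.toNat : ℕ) : ℤ) + 2) := by
      exact_mod_cast h1
    rw [h3, h2]
  · rw [finrank_HP_neg h]
    have h1 : m = -1 ∨ m = -2 := by omega
    rcases h1 with rfl | rfl <;> norm_num

theorem two_finrank_HP (m : ℤ) : 2 * (Module.finrank ℂ (HP m) : ℤ) +
    2 * (Module.finrank ℂ (HP (-3 - m)) : ℤ) = (m + 1) * (m + 2) := by
  rcases le_or_gt 0 m with h | h
  · rw [two_finrank_HP_of_nonneg (by omega), finrank_HP_neg (m := -3 - m) (by omega)]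
    simp
  · rw [finrank_HP_neg h]
    rcases le_or_gt (-1) (m + 1) with h1 | h1
    · have h2 : m = -1 ∨ m = -2 := by omega
      rcases h2 with rfl | rfl
      · rw [finrank_HP_neg (m := -3 - -1) (by omega)]
        norm_num
      · rw [finrank_HP_neg (m := -3 - -2) (by omega)]
        norm_num
    · rw [two_finrank_HP_of_nonneg (m := -3 - m) (by omega)]
      push_cast
      ring

/-- `F0 d n` as a product. -/
noncomputable def rrA02_F0 {I : Type} (d : I → ℤ) (n : ℤ) :
    F0 d n ≃ₗ[ℂ] ((i : I) → HP (n - d i)) where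
  toFun a i := ⟨a.1 i, a.2 i⟩
  map_add' _ _ := rfl
  map_smul' _ _ := rfl
  invFun b := ⟨fun i => (b i).1, fun i => (b i).2⟩
  left_inv _ := rfl
  right_inv _ := rfl

theorem finite_F0 {I : Type} [Fintype I] (d : I → ℤ) (n : ℤ) : Module.Finite ℂ (F0 d n) := by
  have h1 : ∀ i, Module.Finite ℂ (HP (n - d i)) := fun i => finite_HP _
  exact Module.Finite.equiv (rrA02_F0 d n).symm

/-- `F0 d n` is the product of the `HP (n - d i)`. -/
theorem finrank_F0 {I : Type} [Fintype I] (d : I → ℤ) (n : ℤ) :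
    Module.finrank ℂ (F0 d n) = ∑ i, Module.finrank ℂ (HP (n - d i)) := by
  have h1 : ∀ i, Module.Finite ℂ (HP (n - d i)) := fun i => finite_HP _
  rw [(rrA02_F0 d n).finrank_eq]
  exact Module.finrank_pi_fintype ℂ

end Pool.Agent.LibRR
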