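import Pool.Agent.LibRR.A01

/-!
[RR A03] Homogeneous polynomials vanishing at a point of the plane.

Let `a ≠ 0`, say `a l ≠ 0`, and let `i, j` be the other two indices. Take
`u = a l X i - a i X l`, `v = a l X j - a j X l`: they are linearly independent (look at the
coefficients of `X i`, `X j`) and vanish at `a`. For `p ∈ HP m`: the set of the `p` such that
`(a l)^m p - p(a) (X l)^m = u p' + v p''` with `p', p'' ∈ HP (m - 1)` is a subspace which contains
all monomials of degree `m` (induction on the degree: `a l X i = a i X l + u`, `a l X j = a j X l +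
v`). Hence it is everything (`m < 0` is trivial), and if `p(a) = 0` divide by `(a l)^m`.
For the point `(0, 0, 1)`: `l = 2`, and `u = X 0`, `v = X 1`, see `point_last`.
-/

set_option autoImplicit false

namespace Pool.Agent.LibRR

open MvPolynomial in
theorem point_monomial (a : Fin 3 → ℂ) (l : Fin 3) (u v : A3)
    (hx : ∀ x : Fin 3, ∃ α β : ℂ, (C (a l) : A3) * X x = C (a x) * X l + C α * u + C β * v) :
    ∀ (n : ℕ) (d : Fin 3 →₀ ℕ), d.degree = n →
      ∃ p' ∈ HP ((n : ℤ) - 1), ∃ p'' ∈ HP ((n : ℤ) - 1),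
        (C (a l) : A3) ^ n * monomial d 1 = C (eval a (monomial d 1)) * X l ^ n +
          (u * p' + v * p'') := by
  intro n
  induction n with
  | zero =>
    intro d hd
    rw [Finsupp.degree_eq_zero_iff] at hd
    subst hd
    refine ⟨0, Submodule.zero_mem _, 0, Submodule.zero_mem _, ?_⟩
    simp
  | succ n ih =>
    intro d hd
    have hd0 : d ≠ 0 := by
      rintro rfl
      simp at hd
    obtain ⟨x, hxd⟩ := Finsupp.ne_iff.1 hd0
    rw [Finsupp.zero_apply] at hxd
    have hle : Finsupp.single x 1 ≤ d := by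
      rw [Finsupp.single_le_iff]; omega
    obtain ⟨d', rfl⟩ := exists_add_of_le hle
    have hd' : d'.degree = n := by
      rw [map_add, Finsupp.degree_single] at hd; omega
    obtain ⟨p', hp', p'', hp'', h⟩ := ih d' hd'
    obtain ⟨α, β, hab⟩ := hx x
    have hM : (monomial (Finsupp.single x 1 + d') (1 : ℂ) : A3) = X x * monomial d' 1 := by
      rw [X, monomial_mul, one_mul]
    have hP : (X l : A3) ^ n ∈ HP ((n : ℤ)) := by
      have := HP_pow (HP_X l) n
      simpa using this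
    have e1 : (0 : ℤ) + n = ((n + 1 : ℕ) : ℤ) - 1 := by push_cast; ring
    have e2 : (0 : ℤ) + (1 + ((n : ℤ) - 1)) = ((n + 1 : ℕ) : ℤ) - 1 := by push_cast; ring
    refine ⟨C (α * eval a (monomial d' 1)) * X l ^ n + C (a l) * (X x * p'), ?_,
      C (β * eval a (monomial d' 1)) * X l ^ n + C (a l) * (X x * p''), ?_, ?_⟩
    · refine Submodule.add_mem _ ?_ ?_
      · rw [← e1]; exact HP_mul (HP_C _) hP
      · rw [← e2]; exact HP_mul (HP_C _) (HP_mul (HP_X _) hp')
    · refine Submodule.add_mem _ ?_ ?_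
      · rw [← e1]; exact HP_mul (HP_C _) hP
      · rw [← e2]; exact HP_mul (HP_C _) (HP_mul (HP_X _) hp'')
    · rw [hM, map_mul (eval a), eval_X]
      simp only [C_mul]
      linear_combination (C (a l) * X x) * h +
        (C (eval a (monomial d' 1)) * X l ^ n) * hab

open MvPolynomial in
theorem point_gen (a : Fin 3 → ℂ) (l : Fin 3) (hl : a l ≠ 0) (u v : A3)
    (hx : ∀ x : Fin 3, ∃ α β : ℂ, (C (a l) : A3) * X x = C (a x) * X l + C α * u + C β * v)
    (m : ℤ) (p : A3) (hp : p ∈ HP m) (h0 : eval a p = 0) :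
    ∃ p' ∈ HP (m - 1), ∃ p'' ∈ HP (m - 1), p = u * p' + v * p'' := by
  rcases lt_or_ge m 0 with hm | hm
  · rw [HP_neg hm, Submodule.mem_bot] at hp
    exact ⟨0, Submodule.zero_mem _, 0, Submodule.zero_mem _, by rw [hp]; simp⟩
  obtain ⟨n, rfl⟩ := Int.eq_ofNat_of_zero_le hm
  rw [mem_HP_nat] at hp
  have key : ∀ d ∈ p.support, ∃ p' : A3, ∃ p'' : A3, p' ∈ HP ((n : ℤ) - 1) ∧
      p'' ∈ HP ((n : ℤ) - 1) ∧ (C (a l) : A3) ^ n * monomial d (coeff d p) =
        C (eval a (monomial d (coeff d p))) * X l ^ n + (u * p' + v * p'') := by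
    intro d hd
    have hdeg : d.degree = n := by
      have := hp (mem_support_iff.1 hd)
      rw [← this]; exact congrArg (fun f => f d) (Finsupp.degree_eq_weight_one (σ := Fin 3) (R := ℕ))
    obtain ⟨p', hp', p'', hp'', h⟩ := point_monomial a l u v hx n d hdeg
    have hc : (monomial d (coeff d p) : A3) = C (coeff d p) * monomial d 1 := by
      rw [C_mul_monomial, mul_one]
    refine ⟨C (coeff d p) * p', C (coeff d p) * p'', ?_, ?_, ?_⟩
    · simpa using HP_mul (HP_C (coeff d p)) hp'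
    · simpa using HP_mul (HP_C (coeff d p)) hp''
    · rw [hc, map_mul (eval a), eval_C, C_mul]
      linear_combination C (coeff d p) * h
  choose! f g hf hg hfg using key
  have hsum : (C (a l) : A3) ^ n * p = u * (∑ d ∈ p.support, f d) + v * (∑ d ∈ p.support, g d) := by
    have e0 : p = ∑ d ∈ p.support, monomial d (coeff d p) := (support_sum_monomial_coeff p).symm
    calc (C (a l) : A3) ^ n * p
        = ∑ d ∈ p.support, (C (a l) : A3) ^ n * monomial d (coeff d p) := by
          conv_lhs => rw [e0]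
          rw [Finset.mul_sum]
      _ = ∑ d ∈ p.support, (C (eval a (monomial d (coeff d p))) * X l ^ n +
            (u * f d + v * g d)) := Finset.sum_congr rfl fun d hd => hfg d hd
      _ = C (eval a p) * X l ^ n + (u * (∑ d ∈ p.support, f d) +
            v * (∑ d ∈ p.support, g d)) := by
          rw [Finset.sum_add_distrib, Finset.sum_add_distrib, ← Finset.sum_mul, ← map_sum,
            ← map_sum, ← e0, Finset.mul_sum, Finset.mul_sum]
      _ = _ := by rw [h0, C_0, zero_mul, zero_add]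
  have hinv : (C ((a l)⁻¹ ^ n) : A3) * (C (a l) : A3) ^ n = 1 := by
    rw [← C_pow, ← C_mul, ← mul_pow, inv_mul_cancel₀ hl, one_pow, C_1]
  refine ⟨C ((a l)⁻¹ ^ n) * ∑ d ∈ p.support, f d, ?_, C ((a l)⁻¹ ^ n) * ∑ d ∈ p.support, g d,
    ?_, ?_⟩
  · have := HP_mul (HP_C ((a l)⁻¹ ^ n)) (Submodule.sum_mem _ hf)
    rwa [zero_add] at this
  · have := HP_mul (HP_C ((a l)⁻¹ ^ n)) (Submodule.sum_mem _ hg)
    rwa [zero_add] at this
  · linear_combination (-p) * hinv + C ((a l)⁻¹ ^ n) * hsum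

open MvPolynomial in
theorem exists_point_forms (a : Fin 3 → ℂ) (ha : a ≠ 0) :
    ∃ u v : A3, u ∈ HP 1 ∧ v ∈ HP 1 ∧ LinearIndependent ℂ ![u, v] ∧
      MvPolynomial.eval a u = 0 ∧ MvPolynomial.eval a v = 0 ∧
      ∀ (m : ℤ) (p : A3), p ∈ HP m → MvPolynomial.eval a p = 0 →
        ∃ p' ∈ HP (m - 1), ∃ p'' ∈ HP (m - 1), p = u * p' + v * p'' := by
  obtain ⟨l, hl⟩ := Function.ne_iff.1 ha
  rw [Pi.zero_apply] at hl
  obtain ⟨i, j, hil, hjl, hij, hall⟩ : ∃ i j : Fin 3, i ≠ l ∧ j ≠ l ∧ i ≠ j ∧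
      ∀ x, x = i ∨ x = j ∨ x = l := by
    clear hl
    revert l
    decide
  have hmem : ∀ y : Fin 3, (C (a l) * X y - C (a y) * X l : A3) ∈ HP 1 := by
    intro y
    refine Submodule.sub_mem _ ?_ ?_
    · simpa using HP_mul (HP_C (a l)) (HP_X y)
    · simpa using HP_mul (HP_C (a y)) (HP_X l)
  refine ⟨C (a l) * X i - C (a i) * X l, C (a l) * X j - C (a j) * X l, hmem i, hmem j, ?_,
    ?_, ?_, ?_⟩
  · rw [LinearIndependent.pair_iff]
    intro s t hst
    have h1 := congrArg (eval (Pi.single i 1)) hst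
    have h2 := congrArg (eval (Pi.single j 1)) hst
    simp [smul_eq_C_mul, hil.symm, hjl.symm, hij, hij.symm, hl] at h1 h2
    exact ⟨h1, h2⟩
  · simp; ring
  · simp; ring
  · intro m p hp h0
    refine point_gen a l hl _ _ ?_ m p hp h0
    intro x
    rcases hall x with rfl | rfl | rfl
    · exact ⟨1, 0, by simp⟩
    · exact ⟨0, 1, by simp⟩
    · exact ⟨0, 0, by simp⟩

open MvPolynomial in
/-- The point `(0, 0, 1)`: a homogeneous polynomial without the monomial `X₂ ^ m`. -/
theorem point_last (m : ℤ) (p : A3) (hp : p ∈ HP m)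
    (h0 : MvPolynomial.eval (![0, 0, 1] : Fin 3 → ℂ) p = 0) :
    ∃ p' ∈ HP (m - 1), ∃ p'' ∈ HP (m - 1),
      p = MvPolynomial.X 0 * p' + MvPolynomial.X 1 * p'' := by
  refine point_gen ![0, 0, 1] 2 (by simp) _ _ ?_ m p hp h0
  intro x
  fin_cases x
  · exact ⟨1, 0, by simp⟩
  · exact ⟨0, 1, by simp⟩
  · exact ⟨0, 0, by simp⟩

open MvPolynomial in
theorem linearIndependent_X01 :
    LinearIndependent ℂ ![(MvPolynomial.X 0 : A3), (MvPolynomial.X 1 : A3)] := by
  rw [LinearIndependent.pair_iff]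
  intro s t hst
  have h1 := congrArg (eval (![1, 0, 0] : Fin 3 → ℂ)) hst
  have h2 := congrArg (eval (![0, 1, 0] : Fin 3 → ℂ)) hst
  simp [smul_eq_C_mul] at h1 h2
  exact ⟨h1, h2⟩

/-- `X₀` and `X₁` are coprime. -/
theorem koszul_X01 {m : ℤ} {p q : A3} (hp : p ∈ HP m) (hq : q ∈ HP m)
    (h : (MvPolynomial.X 0 : A3) * p + MvPolynomial.X 1 * q = 0) :
    ∃ r ∈ HP (m - 1), q = MvPolynomial.X 0 * r ∧ p = - (MvPolynomial.X 1 * r) := by
  have hpr : Prime (MvPolynomial.X 0 : A3) := MvPolynomial.X_prime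
  have hd : (MvPolynomial.X 0 : A3) ∣ MvPolynomial.X 1 * q :=
    ⟨-p, by linear_combination h⟩
  have hnd : ¬ (MvPolynomial.X 0 : A3) ∣ MvPolynomial.X 1 := by
    rw [MvPolynomial.X_dvd_X]
    intro h
    exact absurd h (by decide)
  obtain ⟨r, rfl⟩ := (hpr.dvd_or_dvd hd).resolve_left hnd
  refine ⟨r, ?_, rfl, ?_⟩
  · refine HP_cancel (MvPolynomial.X_ne_zero 0) (HP_X 0) ?_
    rwa [add_sub_cancel]
  · refine mul_left_cancel₀ (MvPolynomial.X_ne_zero (R := ℂ) (0 : Fin 3)) ?_
    linear_combination h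

end Pool.Agent.LibRR
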