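import Pool.Agent.LibRR.Defs

/-!
[RR A04] Adapted bases of an increasing family of subspaces.

`U n` is increasing, `U n = 0` for `n ≤ n₀`. Take a basis adapted to the chain
`0 = U n₀ ≤ U (n₀ + 1) ≤ …`; since `V` is finite dimensional the chain stabilises, say at `n₁`.
(Induction on `n₁ - n₀` or on the dimension: extend a basis of `U n` to a basis of `U (n + 1)`,
`LinearIndependent.extend` / `exists_linearIndependent_extension`, giving the new vectors the label
`n + 1`.)
-/

set_option autoImplicit false

namespace Pool.Agent.LibRR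

private theorem rrA04_step {V : Type} [AddCommGroup V] [Module ℂ V] [FiniteDimensional ℂ V]
    (U : ℤ → Submodule ℂ V) (hmono : ∀ n, U n ≤ U (n + 1)) (n₀ : ℤ) (h0 : ∀ n ≤ n₀, U n = ⊥)
    (k : ℕ) : ∃ (ι : Type) (_ : Fintype ι) (c : ι → ℤ) (μ : ι → V), (∀ j, μ j ∈ U (c j)) ∧
      (∀ j, n₀ < c j) ∧ (∀ j, c j ≤ n₀ + k) ∧ LinearIndependent ℂ μ ∧
      ∀ n ≤ n₀ + k, U n = Submodule.span ℂ (μ '' {j | c j ≤ n}) := by
  induction k with
  | zero =>
    refine ⟨Empty, inferInstance, fun e => e.elim, fun e => e.elim, fun e => e.elim,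
      fun e => e.elim, fun e => e.elim, linearIndependent_empty_type, ?_⟩
    intro n hn
    rw [h0 n (by simpa using hn)]
    symm
    rw [Submodule.span_eq_bot]
    rintro x ⟨e, _, _⟩
    exact e.elim
  | succ k ih =>
    obtain ⟨ι, hι, c, μ, h1, h2, h3, h4, h5⟩ := ih
    obtain ⟨C, hC⟩ := exists_isCompl (U (n₀ + k))
    obtain ⟨W, hW⟩ : ∃ W : Submodule ℂ V, W = C ⊓ U (n₀ + k + 1) := ⟨_, rfl⟩
    have hdis : Disjoint (U (n₀ + k)) W := by
      rw [hW]
      exact hC.disjoint.mono_right inf_le_left
    have hsup : U (n₀ + k) ⊔ W = U (n₀ + k + 1) := by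
      rw [hW, ← sup_inf_assoc_of_le C (hmono _), hC.sup_eq_top, top_inf_eq]
    let b := Module.finBasis ℂ W
    have hspanμ : Submodule.span ℂ (Set.range μ) = U (n₀ + k) := by
      rw [h5 _ le_rfl]
      congr 1
      rw [← Set.image_univ]
      congr 1
      ext j
      simp [h3 j]
    have hspanb : Submodule.span ℂ (Set.range (fun i => (b i : V))) = W := by
      have e : Set.range (fun i => (b i : V)) = W.subtype '' Set.range b := by
        rw [← Set.range_comp]
        rfl
      rw [e, ← Submodule.map_span, b.span_eq, Submodule.map_top, Submodule.range_subtype]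
    refine ⟨ι ⊕ Fin (Module.finrank ℂ W), inferInstance, Sum.elim c (fun _ => n₀ + k + 1),
      Sum.elim μ (fun i => (b i : V)), ?_, ?_, ?_, ?_, ?_⟩
    · rintro (j | j)
      · exact h1 j
      · simp only [Sum.elim_inr]
        rw [← hsup]
        exact Submodule.mem_sup_right (b j).2
    · rintro (j | j)
      · exact h2 j
      · simp only [Sum.elim_inr]
        omega
    · rintro (j | j)
      · simp only [Sum.elim_inl]
        have := h3 j
        push_cast
        omega
      · simp only [Sum.elim_inr]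
        push_cast
        omega
    · refine LinearIndependent.sum_type h4 ?_ ?_
      · exact b.linearIndependent.map' W.subtype (Submodule.ker_subtype W)
      · rw [hspanμ, hspanb]
        exact hdis
    · intro n hn
      rcases le_or_gt n (n₀ + k) with hle | hlt
      · rw [h5 n hle]
        congr 1
        ext x
        constructor
        · rintro ⟨j, hj, rfl⟩
          exact ⟨Sum.inl j, hj, rfl⟩
        · rintro ⟨j | j, hj, rfl⟩
          · exact ⟨j, hj, rfl⟩
          · exfalso
            have : n₀ + (k : ℤ) + 1 ≤ n := hj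
            omega
      · have hn' : n = n₀ + k + 1 := by
          push_cast at hn
          omega
        rw [hn']
        have e : (Sum.elim μ (fun i => (b i : V))) ''
            {j | (Sum.elim c (fun _ => n₀ + (k : ℤ) + 1)) j ≤ n₀ + k + 1} =
            Set.range μ ∪ Set.range (fun i => (b i : V)) := by
          rw [← Set.Sum.elim_range, ← Set.image_univ]
          congr 1
          ext j
          rcases j with j | j
          · simp only [Set.mem_setOf_eq, Sum.elim_inl, Set.mem_univ, iff_true]
            have := h3 j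
            omega
          · simp
        rw [e, Submodule.span_union, hspanμ, hspanb, hsup]

theorem exists_adapted_basis {V : Type} [AddCommGroup V] [Module ℂ V] [FiniteDimensional ℂ V]
    (U : ℤ → Submodule ℂ V) (hmono : ∀ n, U n ≤ U (n + 1)) (n₀ : ℤ) (h0 : ∀ n ≤ n₀, U n = ⊥) :
    ∃ (N : ℕ) (c : Fin N → ℤ) (μ : Fin N → V), (∀ j, μ j ∈ U (c j)) ∧ (∀ j, n₀ < c j) ∧
      LinearIndependent ℂ μ ∧ ∀ n, U n = Submodule.span ℂ (μ '' {j | c j ≤ n}) := by
  have hmono' : Monotone U := monotone_int_of_le_succ hmono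
  let f : ℕ →o Submodule ℂ V := ⟨fun k => U (n₀ + k), fun i j hij => hmono' (by
    have : (i : ℤ) ≤ j := by exact_mod_cast hij
    omega)⟩
  obtain ⟨k, hk⟩ := monotone_stabilizes_iff_noetherian.2 (inferInstance : IsNoetherian ℂ V) f
  obtain ⟨ι, hι, c, μ, h1, h2, h3, h4, h5⟩ := rrA04_step U hmono n₀ h0 k
  let e := (Fintype.equivFin ι).symm
  refine ⟨Fintype.card ι, c ∘ e, μ ∘ e, fun j => h1 (e j), fun j => h2 (e j),
    h4.comp e e.injective, ?_⟩
  intro n
  have himg : (μ ∘ e) '' {j | (c ∘ e) j ≤ n} = μ '' {j | c j ≤ n} := by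
    ext x
    constructor
    · rintro ⟨j, hj, rfl⟩
      exact ⟨e j, hj, rfl⟩
    · rintro ⟨j, hj, rfl⟩
      refine ⟨e.symm j, ?_, ?_⟩
      · show c (e (e.symm j)) ≤ n
        rw [Equiv.apply_symm_apply]
        exact hj
      · show μ (e (e.symm j)) = μ j
        rw [Equiv.apply_symm_apply]
  rw [himg]
  rcases le_or_gt n (n₀ + k) with hle | hlt
  · exact h5 n hle
  · have hU : U n = U (n₀ + k) := by
      have h6 := hk (n - n₀).toNat (by omega)
      have h7 : U (n₀ + k) = U (n₀ + ((n - n₀).toNat : ℤ)) := h6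
      rw [h7]
      congr 1
      omega
    rw [hU, h5 _ le_rfl]
    congr 1
    congr 1
    ext j
    have := h3 j
    simp only [Set.mem_setOf_eq]
    constructor <;> intro _ <;> omega

end Pool.Agent.LibRR
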