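import Pool.Agent.LibRR.A03
import Pool.Agent.LibRR.A04

/-!
[RR A05] Graded submodules with a quotient of depth two are free.

Let `a₀ = (0, 0, 1)` and `λ : (I → A3) → (I → ℂ)`, `λ a i = a i (a₀)` (`MvPolynomial.eval`), a
linear map. `U n := (F n).map λ` is increasing: `X₂ • a ∈ F (n + 1)` for `a ∈ F n` (`smul`) and
`λ (X₂ • a) = λ a`. `U n = 0` for `n` smaller than all `d i` (`F n ≤ F0 d n = 0`; if `I` is empty
everything is zero). Take the adapted basis `μ j ∈ U (c j)` of [RR A04] and `s j ∈ F (c j)` with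
`λ (s j) = μ j`.

GENERATION (`gen`), by induction on `n` (for `n` small `F n = 0`): let `a ∈ F n`. `λ a = ∑ β j μ j`
over `c j ≤ n`. `a' := a - ∑ β j X₂ ^ (n - c j) • s j ∈ F n` has `λ a' = 0`, so by `point_last`
(componentwise) `a' = X₀ • b + X₁ • b'` with `b, b' ∈ F0 d (n - 1)`. By `beta` (with `n - 1`,
`u = X₀`, `v = X₁`) there is `g` with `b + X₁ • g, b' - X₀ • g ∈ F (n - 1)`, and
`a' = X₀ • (b + X₁ • g) + X₁ • (b' - X₀ • g)`. Induction.

INDEPENDENCE, first for homogeneous relations: claim(n): if `b j ∈ HP (n - c j)` and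
`∑ b j • s j = 0` then `b = 0`. Induction on `n` (for `n < c j` for all `j`, `b j = 0`). Apply
`λ`: `∑ b j (a₀) μ j = 0`, so `b j (a₀) = 0` for all `j` and `b j = X₀ b' j + X₁ b'' j`
(`point_last`), with `b' j, b'' j ∈ HP (n - 1 - c j)`. Put `x = ∑ b' j • s j`,
`y = ∑ b'' j • s j` in `F (n - 1)`; `X₀ • x + X₁ • y = 0`. By `koszul_X01` componentwise
`y = X₀ • r`, `x = - X₁ • r`, `r ∈ F0 d (n - 2)`. `X₀ • r = y ∈ F (n - 1)`, so `r ∈ F (n - 2)`
(`gamma`), so `r = ∑ g j • s j` with `g j ∈ HP (n - 2 - c j)` (`gen`). Then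
`∑ (b' j + X₁ g j) • s j = 0` and `∑ (b'' j - X₀ g j) • s j = 0`, and by induction
`b' j = - X₁ g j`, `b'' j = X₀ g j`, so `b j = 0`.
General `b` with `∑ b j • s j = 0`: take homogeneous components: `s j i ∈ HP (c j - d i)`, so the
component of degree `n - d i` of `∑ b j * s j i` is `∑ hc (n - c j) (b j) * s j i` (`hc_mul`). So all
`hc (n - c j) (b j)` are zero, and `b j = 0` (`eq_zero_of_hc`).
-/

set_option autoImplicit false

namespace Pool.Agent.LibRR

/-- evaluation at the point `(0, 0, 1)`, componentwise -/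
noncomputable def rrA05_lam (I : Type) : (I → A3) →ₗ[ℂ] (I → ℂ) where
  toFun := fun a i => MvPolynomial.eval (![0, 0, 1] : Fin 3 → ℂ) (a i)
  map_add' := fun a b => by
    funext i
    simp
  map_smul' := fun c a => by
    funext i
    simp [MvPolynomial.smul_eval]

theorem rrA05_lam_apply {I : Type} (a : I → A3) (i : I) :
    rrA05_lam I a i = MvPolynomial.eval (![0, 0, 1] : Fin 3 → ℂ) (a i) := rfl

theorem rrA05_lam_smul {I : Type} (p : A3) (a : I → A3) :
    rrA05_lam I (p • a) = MvPolynomial.eval (![0, 0, 1] : Fin 3 → ℂ) p • rrA05_lam I a := by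
  funext i
  rw [rrA05_lam_apply, Pi.smul_apply, Pi.smul_apply, rrA05_lam_apply, smul_eq_mul, smul_eq_mul,
    map_mul]

theorem rrA05_eval_X2 : MvPolynomial.eval (![0, 0, 1] : Fin 3 → ℂ) (MvPolynomial.X 2 : A3) = 1 := by
  simp

theorem rrA05_low {I : Type} [Fintype I] (d : I → ℤ) : ∃ n₀ : ℤ, ∀ i, n₀ < d i := by
  refine ⟨- (∑ i, |d i|) - 1, fun i => ?_⟩
  have h1 : |d i| ≤ ∑ i, |d i| :=
    Finset.single_le_sum (f := fun i => |d i|) (fun j _ => abs_nonneg _) (Finset.mem_univ i)
  have h2 := neg_abs_le (d i)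
  linarith

theorem rrA05_zero {I : Type} {d : I → ℤ} {F : ℤ → Submodule ℂ (I → A3)} (hF : IsSyz d F)
    {n₀ : ℤ} (hn₀ : ∀ i, n₀ < d i) {n : ℤ} (hn : n ≤ n₀) {a : I → A3} (ha : a ∈ F n) : a = 0 := by
  funext i
  have h1 := hF.le n ha i
  rw [HP_neg (by have := hn₀ i; omega)] at h1
  simpa using h1

/-- the data used below -/
structure rrA05_Data {I : Type} [Fintype I] (d : I → ℤ) (F : ℤ → Submodule ℂ (I → A3)) (n₀ : ℤ)
    {N : ℕ} (c : Fin N → ℤ) (s : Fin N → I → A3) : Prop where
  low : ∀ i, n₀ < d i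
  lowc : ∀ j, n₀ < c j
  mem : ∀ j, s j ∈ F (c j)
  li : LinearIndependent ℂ (fun j => rrA05_lam I (s j))
  span : ∀ n, (F n).map (rrA05_lam I) =
    Submodule.span ℂ ((fun j => rrA05_lam I (s j)) '' {j | c j ≤ n})

theorem rrA05_gen {I : Type} [Fintype I] {d : I → ℤ} {F : ℤ → Submodule ℂ (I → A3)}
    (hF : IsSyz d F) {n₀ : ℤ} {N : ℕ} {c : Fin N → ℤ} {s : Fin N → I → A3}
    (hD : rrA05_Data d F n₀ c s) (k : ℕ) : ∀ a ∈ F (n₀ + k),
      ∃ b : Fin N → A3, (∀ j, b j ∈ HP (n₀ + k - c j)) ∧ a = ∑ j, b j • s j := by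
  induction k with
  | zero =>
    intro a ha
    rw [Nat.cast_zero, add_zero] at ha
    have h1 := rrA05_zero hF hD.low le_rfl ha
    exact ⟨fun _ => 0, fun j => Submodule.zero_mem _, by rw [h1]; simp⟩
  | succ k ih =>
    intro a ha
    set n : ℤ := n₀ + ((k + 1 : ℕ) : ℤ) with hn
    have hn1 : n - 1 = n₀ + k := by rw [hn]; push_cast; ring
    have h1 : rrA05_lam I a ∈ (F n).map (rrA05_lam I) := Submodule.mem_map_of_mem ha
    rw [hD.span n, Finsupp.mem_span_image_iff_linearCombination] at h1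
    obtain ⟨l, hl, hl2⟩ := h1
    rw [Finsupp.mem_supported] at hl
    have hl3 : ∀ j, ¬ c j ≤ n → l j = 0 := by
      intro j hj
      by_contra h
      exact hj (hl (Finsupp.mem_support_iff.2 h))
    have hterm : ∀ j, (MvPolynomial.C (l j) * MvPolynomial.X 2 ^ (n - c j).toNat : A3) ∈
        HP (n - c j) := by
      intro j
      by_cases hj : c j ≤ n
      · have h2 := HP_mul (HP_C (l j)) (HP_pow (HP_X 2) (n - c j).toNat)
        have h3 : (0 : ℤ) + ((n - c j).toNat : ℤ) * 1 = n - c j := by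
          rw [Int.toNat_of_nonneg (by omega)]
          ring
        rw [h3] at h2
        exact h2
      · rw [hl3 j hj, MvPolynomial.C_0, zero_mul]
        exact Submodule.zero_mem _
    set t : Fin N → A3 := fun j => MvPolynomial.C (l j) * MvPolynomial.X 2 ^ (n - c j).toNat
      with ht
    have hts : ∀ j, t j • s j ∈ F n := by
      intro j
      have h2 := hF.smul (n - c j) (c j) (t j) (s j) (hterm j) (hD.mem j)
      rw [sub_add_cancel] at h2
      exact h2
    set a' : I → A3 := a - ∑ j, t j • s j with ha'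
    have ha'F : a' ∈ F n := Submodule.sub_mem _ ha (Submodule.sum_mem _ fun j _ => hts j)
    have hlam : rrA05_lam I a' = 0 := by
      rw [ha', map_sub, map_sum, ← hl2, Finsupp.linearCombination_apply, Finsupp.sum_fintype _ _
        (fun j => by simp)]
      rw [sub_eq_zero]
      apply Finset.sum_congr rfl
      intro j _
      rw [rrA05_lam_smul, ht]
      simp only [map_mul, map_pow, rrA05_eval_X2, MvPolynomial.eval_C, one_pow, mul_one]
    have hpt : ∀ i, ∃ p' ∈ HP (n - d i - 1), ∃ p'' ∈ HP (n - d i - 1),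
        a' i = MvPolynomial.X 0 * p' + MvPolynomial.X 1 * p'' := by
      intro i
      apply point_last _ _ (hF.le n ha'F i)
      have := congrFun hlam i
      rw [rrA05_lam_apply] at this
      exact this
    choose b hb b' hb' hbb using hpt
    have hbF : b ∈ F0 d (n - 1) := by
      intro i
      have := hb i
      rw [show n - d i - 1 = n - 1 - d i by ring] at this
      exact this
    have hbF' : b' ∈ F0 d (n - 1) := by
      intro i
      have := hb' i
      rw [show n - d i - 1 = n - 1 - d i by ring] at this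
      exact this
    have hsum : (MvPolynomial.X 0 : A3) • b + (MvPolynomial.X 1 : A3) • b' = a' := by
      funext i
      rw [Pi.add_apply, Pi.smul_apply, Pi.smul_apply, smul_eq_mul, smul_eq_mul]
      exact (hbb i).symm
    obtain ⟨g, hg, hg1, hg2⟩ := hF.beta (n - 1) (MvPolynomial.X 0) (MvPolynomial.X 1) (HP_X 0)
      (HP_X 1) linearIndependent_X01 b b' hbF hbF' (by
        rw [sub_add_cancel, hsum]
        exact ha'F)
    rw [hn1] at hg1 hg2
    obtain ⟨f1, hf1, hf1'⟩ := ih _ hg1
    obtain ⟨f2, hf2, hf2'⟩ := ih _ hg2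
    refine ⟨fun j => t j + (MvPolynomial.X 0 * f1 j + MvPolynomial.X 1 * f2 j), ?_, ?_⟩
    · intro j
      apply Submodule.add_mem _ (hterm j)
      have e : n - c j = 1 + (n₀ + k - c j) := by rw [← hn1]; ring
      rw [e]
      exact Submodule.add_mem _ (HP_mul (HP_X 0) (hf1 j)) (HP_mul (HP_X 1) (hf2 j))
    · have e1 : a = ∑ j, t j • s j + a' := by rw [ha']; abel
      have e2 : a' = (MvPolynomial.X 0 : A3) • (b + (MvPolynomial.X 1 : A3) • g) +
          (MvPolynomial.X 1 : A3) • (b' - (MvPolynomial.X 0 : A3) • g) := by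
        rw [← hsum]
        funext i
        simp only [Pi.add_apply, Pi.smul_apply, Pi.sub_apply, smul_eq_mul]
        ring
      rw [hf1', hf2', Finset.smul_sum, Finset.smul_sum] at e2
      rw [e1, e2, ← Finset.sum_add_distrib, ← Finset.sum_add_distrib]
      apply Finset.sum_congr rfl
      intro j _
      rw [smul_smul, smul_smul, ← add_smul, ← add_smul]

theorem rrA05_gen' {I : Type} [Fintype I] {d : I → ℤ} {F : ℤ → Submodule ℂ (I → A3)}
    (hF : IsSyz d F) {n₀ : ℤ} {N : ℕ} {c : Fin N → ℤ} {s : Fin N → I → A3}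
    (hD : rrA05_Data d F n₀ c s) (n : ℤ) : ∀ a ∈ F n,
      ∃ b : Fin N → A3, (∀ j, b j ∈ HP (n - c j)) ∧ a = ∑ j, b j • s j := by
  intro a ha
  rcases le_or_gt n n₀ with h | h
  · have h1 := rrA05_zero hF hD.low h ha
    exact ⟨fun _ => 0, fun j => Submodule.zero_mem _, by rw [h1]; simp⟩
  · have e : n = n₀ + ((n - n₀).toNat : ℤ) := by
      rw [Int.toNat_of_nonneg (by omega)]
      ring
    rw [e] at ha ⊢
    exact rrA05_gen hF hD _ a ha

theorem rrA05_inj {I : Type} [Fintype I] {d : I → ℤ} {F : ℤ → Submodule ℂ (I → A3)}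
    (hF : IsSyz d F) {n₀ : ℤ} {N : ℕ} {c : Fin N → ℤ} {s : Fin N → I → A3}
    (hD : rrA05_Data d F n₀ c s) (k : ℕ) : ∀ b : Fin N → A3, (∀ j, b j ∈ HP (n₀ + k - c j)) →
      ∑ j, b j • s j = 0 → b = 0 := by
  induction k with
  | zero =>
    intro b hb _
    funext j
    have h1 := hb j
    rw [Nat.cast_zero, add_zero, HP_neg (by have := hD.lowc j; omega)] at h1
    simpa using h1
  | succ k ih =>
    intro b hb hsum
    set n : ℤ := n₀ + ((k + 1 : ℕ) : ℤ) with hn
    have hn1 : n - 1 = n₀ + k := by rw [hn]; push_cast; ring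
    have h1 : ∑ j, (MvPolynomial.eval (![0, 0, 1] : Fin 3 → ℂ) (b j)) • rrA05_lam I (s j) = 0 := by
      have h2 := congrArg (rrA05_lam I) hsum
      rw [map_sum, map_zero] at h2
      rw [← h2]
      apply Finset.sum_congr rfl
      intro j _
      rw [rrA05_lam_smul]
    have h2 := Fintype.linearIndependent_iff.1 hD.li _ h1
    have hpt : ∀ j, ∃ p' ∈ HP (n - c j - 1), ∃ p'' ∈ HP (n - c j - 1),
        b j = MvPolynomial.X 0 * p' + MvPolynomial.X 1 * p'' := fun j =>
      point_last _ _ (hb j) (h2 j)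
    choose b1 hb1 b2 hb2 hbb using hpt
    have hb1' : ∀ j, b1 j ∈ HP (n - 1 - c j) := by
      intro j
      have := hb1 j
      rw [show n - c j - 1 = n - 1 - c j by ring] at this
      exact this
    have hb2' : ∀ j, b2 j ∈ HP (n - 1 - c j) := by
      intro j
      have := hb2 j
      rw [show n - c j - 1 = n - 1 - c j by ring] at this
      exact this
    have hmemF : ∀ f : Fin N → A3, (∀ j, f j ∈ HP (n - 1 - c j)) → ∑ j, f j • s j ∈ F (n - 1) := by
      intro f hf
      apply Submodule.sum_mem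
      intro j _
      have h3 := hF.smul (n - 1 - c j) (c j) (f j) (s j) (hf j) (hD.mem j)
      rw [sub_add_cancel] at h3
      exact h3
    set x : I → A3 := ∑ j, b1 j • s j with hx
    set y : I → A3 := ∑ j, b2 j • s j with hy
    have hxF : x ∈ F (n - 1) := hmemF _ hb1'
    have hyF : y ∈ F (n - 1) := hmemF _ hb2'
    have hxy : (MvPolynomial.X 0 : A3) • x + (MvPolynomial.X 1 : A3) • y = 0 := by
      rw [hx, hy, Finset.smul_sum, Finset.smul_sum, ← Finset.sum_add_distrib, ← hsum]
      apply Finset.sum_congr rfl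
      intro j _
      rw [smul_smul, smul_smul, ← add_smul, hbb j]
    have hk : ∀ i, ∃ r ∈ HP (n - 1 - d i - 1), y i = MvPolynomial.X 0 * r ∧
        x i = - (MvPolynomial.X 1 * r) := by
      intro i
      apply koszul_X01 (hF.le _ hxF i) (hF.le _ hyF i)
      have := congrFun hxy i
      rw [Pi.add_apply, Pi.smul_apply, Pi.smul_apply, smul_eq_mul, smul_eq_mul,
        Pi.zero_apply] at this
      exact this
    choose r hr hry hrx using hk
    have hrF0 : r ∈ F0 d (n - 2) := by
      intro i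
      have := hr i
      rw [show n - 1 - d i - 1 = n - 2 - d i by ring] at this
      exact this
    have hyr : y = (MvPolynomial.X 0 : A3) • r := by
      funext i
      rw [Pi.smul_apply, smul_eq_mul]
      exact hry i
    have hxr : x = - ((MvPolynomial.X 1 : A3) • r) := by
      funext i
      rw [Pi.neg_apply, Pi.smul_apply, smul_eq_mul]
      exact hrx i
    have hrF : r ∈ F (n - 2) := by
      apply hF.gamma (n - 2) r hrF0
      rw [← hyr, show n - 2 + 1 = n - 1 by ring]
      exact hyF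
    obtain ⟨g, hg, hg'⟩ := rrA05_gen' hF hD (n - 2) r hrF
    have e1 : ∀ j, n₀ + (k : ℤ) - c j = 1 + (n - 2 - c j) := by
      intro j
      rw [← hn1]
      ring
    have e2 : ∀ j, n₀ + (k : ℤ) - c j = n - 1 - c j := by
      intro j
      rw [← hn1]
    have hA := ih (fun j => b1 j + MvPolynomial.X 1 * g j) (by
      intro j
      apply Submodule.add_mem
      · rw [e2]
        exact hb1' j
      · rw [e1]
        exact HP_mul (HP_X 1) (hg j)) (by
      have h3 : ∑ j, (b1 j + MvPolynomial.X 1 * g j) • s j =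
          x + (MvPolynomial.X 1 : A3) • r := by
        rw [hg', hx, Finset.smul_sum, ← Finset.sum_add_distrib]
        apply Finset.sum_congr rfl
        intro j _
        rw [smul_smul, ← add_smul]
      rw [h3, hxr, neg_add_cancel])
    have hB := ih (fun j => b2 j - MvPolynomial.X 0 * g j) (by
      intro j
      apply Submodule.sub_mem
      · rw [e2]
        exact hb2' j
      · rw [e1]
        exact HP_mul (HP_X 0) (hg j)) (by
      have h3 : ∑ j, (b2 j - MvPolynomial.X 0 * g j) • s j =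
          y - (MvPolynomial.X 0 : A3) • r := by
        rw [hg', hy, Finset.smul_sum, ← Finset.sum_sub_distrib]
        apply Finset.sum_congr rfl
        intro j _
        rw [smul_smul, ← sub_smul]
      rw [h3, hyr, sub_self])
    funext j
    have h3 : b1 j + MvPolynomial.X 1 * g j = 0 := congrFun hA j
    have h4 : b2 j - MvPolynomial.X 0 * g j = 0 := congrFun hB j
    have h5 : b1 j = - (MvPolynomial.X 1 * g j) := eq_neg_of_add_eq_zero_left h3
    have h6 : b2 j = MvPolynomial.X 0 * g j := sub_eq_zero.1 h4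
    rw [hbb j, h5, h6, Pi.zero_apply]
    ring

theorem rrA05_inj' {I : Type} [Fintype I] {d : I → ℤ} {F : ℤ → Submodule ℂ (I → A3)}
    (hF : IsSyz d F) {n₀ : ℤ} {N : ℕ} {c : Fin N → ℤ} {s : Fin N → I → A3}
    (hD : rrA05_Data d F n₀ c s) (n : ℤ) : ∀ b : Fin N → A3, (∀ j, b j ∈ HP (n - c j)) →
      ∑ j, b j • s j = 0 → b = 0 := by
  intro b hb hsum
  rcases le_or_gt n n₀ with h | h
  · funext j
    have h1 := hb j
    rw [HP_neg (by have := hD.lowc j; omega)] at h1
    simpa using h1
  · have e : n = n₀ + ((n - n₀).toNat : ℤ) := by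
      rw [Int.toNat_of_nonneg (by omega)]
      ring
    rw [e] at hb
    exact rrA05_inj hF hD _ b hb hsum

theorem exists_gbasis {I : Type} [Fintype I] (d : I → ℤ) (F : ℤ → Submodule ℂ (I → A3))
    (hF : IsSyz d F) : ∃ (N : ℕ) (c : Fin N → ℤ) (s : Fin N → I → A3), IsGBasis F c s := by
  obtain ⟨n₀, hn₀⟩ := rrA05_low d
  have hmono : ∀ n, (F n).map (rrA05_lam I) ≤ (F (n + 1)).map (rrA05_lam I) := by
    intro n
    rintro _ ⟨a, ha, rfl⟩
    refine ⟨(MvPolynomial.X 2 : A3) • a, ?_, ?_⟩
    · have h1 := hF.smul 1 n (MvPolynomial.X 2) a (HP_X 2) ha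
      rw [add_comm] at h1
      exact h1
    · rw [rrA05_lam_smul, rrA05_eval_X2, one_smul]
  have h0 : ∀ n ≤ n₀, (F n).map (rrA05_lam I) = ⊥ := by
    intro n hn
    rw [eq_bot_iff]
    rintro _ ⟨a, ha, rfl⟩
    rw [rrA05_zero hF hn₀ hn ha, map_zero]
    exact Submodule.zero_mem _
  obtain ⟨N, c, μ, hμ, hcn, hli, hspan⟩ := exists_adapted_basis (V := I → ℂ)
    (fun n => (F n).map (rrA05_lam I)) hmono n₀ h0
  have hs : ∀ j, ∃ s : I → A3, s ∈ F (c j) ∧ rrA05_lam I s = μ j := by
    intro j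
    obtain ⟨s, hs1, hs2⟩ := hμ j
    exact ⟨s, hs1, hs2⟩
  choose s hs1 hs2 using hs
  have hfun : (fun j => rrA05_lam I (s j)) = μ := funext hs2
  have hD : rrA05_Data d F n₀ c s := ⟨hn₀, hcn, hs1, by rw [hfun]; exact hli, by
    intro n
    rw [hfun]
    exact hspan n⟩
  refine ⟨N, c, s, hs1, rrA05_gen' hF hD, ?_⟩
  intro b hb
  funext j
  rw [Pi.zero_apply]
  apply eq_zero_of_hc
  intro m
  have h1 := rrA05_inj' hF hD (m + c j) (fun j' => hc (m + c j - c j') (b j'))
    (fun j' => hc_mem _ _) (by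
      funext i
      rw [Finset.sum_apply, Pi.zero_apply]
      have h2 : ∀ j', (hc (m + c j - c j') (b j') • s j') i =
          hc (m + c j - d i) (b j' * s j' i) := by
        intro j'
        have h3 := hc_mul (m := m + c j - c j') (hF.le _ (hs1 j') i) (b j')
        rw [show m + c j - c j' + (c j' - d i) = m + c j - d i by ring] at h3
        rw [Pi.smul_apply, smul_eq_mul, mul_comm (b j'), h3, mul_comm]
      simp only [h2]
      rw [← map_sum]
      have h4 : ∑ j', b j' * s j' i = 0 := by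
        have h5 := congrFun hb i
        rw [Finset.sum_apply, Pi.zero_apply] at h5
        exact h5
      rw [h4, map_zero])
  have h2 := congrFun h1 j
  simp only [Pi.zero_apply, add_sub_cancel_right] at h2
  exact h2

end Pool.Agent.LibRR
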