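import Pool.Agent.LibRR.A03

/-!
[RR A06] A graded basis is linearly independent at every point of the plane.

Suppose `∑ β j • (s j)(a) = 0` with `β ≠ 0`. Since `a ≠ 0` there is a linear form `l` with
`l(a) = 1` (`l = a_i⁻¹ X_i`). Let `n ≥ c j` for all `j` and `b j = β j • l ^ (n - c j)`
(`∈ HP (n - c j)`). Then `x = ∑ b j • s j ∈ F n` (`smul`, `mem`) and all components of `x` vanish at
`a`. With `u, v` of [RR A03], `x = u • y + v • z`, `y, z ∈ F0 d (n - 1)`, and by `beta`
`x = u • y' + v • z'` with `y' = y + v • g`, `z' = z - u • g ∈ F (n - 1)`. Write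
`y' = ∑ b' j • s j`, `z' = ∑ b'' j • s j` (`gen`). By `inj` `b j = u b' j + v b'' j`. Evaluate at
`a`: `β j = 0` for all `j`, a contradiction.
-/

set_option autoImplicit false

namespace Pool.Agent.LibRR

theorem IsGBasis.rank {I J : Type} [Fintype I] [Fintype J] {d : I → ℤ}
    {F : ℤ → Submodule ℂ (I → A3)} (hF : IsSyz d F) {c : J → ℤ} {s : J → I → A3}
    (hs : IsGBasis F c s) (a : Fin 3 → ℂ) (ha : a ≠ 0) :
    LinearIndependent ℂ fun (j : J) (i : I) => MvPolynomial.eval a (s j i) := by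
  classical
  rw [Fintype.linearIndependent_iff]
  intro β hβ
  obtain ⟨i₀, hi₀⟩ : ∃ i, a i ≠ 0 := by
    by_contra hcon
    push Not at hcon
    exact ha (funext hcon)
  obtain ⟨u, v, hu, hv, huv, hua, hva, hpt⟩ := exists_point_forms a ha
  obtain ⟨l, hl⟩ : ∃ l : A3, l = MvPolynomial.C (a i₀)⁻¹ * MvPolynomial.X i₀ := ⟨_, rfl⟩
  have hl1 : l ∈ HP 1 := by
    have h := HP_mul (HP_C (a i₀)⁻¹) (HP_X i₀)
    rw [zero_add] at h
    rw [hl]
    exact h
  have hla : MvPolynomial.eval a l = 1 := by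
    rw [hl, map_mul, MvPolynomial.eval_C, MvPolynomial.eval_X, inv_mul_cancel₀ hi₀]
  obtain ⟨n, hn⟩ : ∃ n : ℤ, ∀ j, c j ≤ n := by
    refine ⟨∑ j, |c j|, fun j => (le_abs_self _).trans ?_⟩
    exact Finset.single_le_sum (f := fun j => |c j|) (fun i _ => abs_nonneg _) (Finset.mem_univ j)
  let b : J → A3 := fun j => MvPolynomial.C (β j) * l ^ (n - c j).toNat
  have hb : ∀ j, b j ∈ HP (n - c j) := by
    intro j
    have h := HP_mul (HP_C (β j)) (HP_pow hl1 (n - c j).toNat)
    have e : (0 : ℤ) + ((n - c j).toNat : ℤ) * 1 = n - c j := by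
      have := hn j
      rw [Int.toNat_of_nonneg (by omega)]
      ring
    rw [e] at h
    exact h
  have hba : ∀ j, MvPolynomial.eval a (b j) = β j := by
    intro j
    show MvPolynomial.eval a (MvPolynomial.C (β j) * l ^ (n - c j).toNat) = β j
    rw [map_mul, map_pow, hla, one_pow, mul_one, MvPolynomial.eval_C]
  obtain ⟨x, hx⟩ : ∃ x : I → A3, x = ∑ j, b j • s j := ⟨_, rfl⟩
  have hxF : x ∈ F n := by
    rw [hx]
    refine Submodule.sum_mem _ fun j _ => ?_
    have h := hF.smul _ _ (b j) (s j) (hb j) (hs.mem j)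
    rw [sub_add_cancel] at h
    exact h
  have hxi : ∀ i, x i = ∑ j, b j * s j i := by
    intro i
    rw [hx, Finset.sum_apply]
    rfl
  have hxa : ∀ i, MvPolynomial.eval a (x i) = 0 := by
    intro i
    rw [hxi, map_sum]
    have h := congrFun hβ i
    rw [Finset.sum_apply] at h
    simp only [Pi.smul_apply, smul_eq_mul, Pi.zero_apply] at h
    rw [← h]
    refine Finset.sum_congr rfl fun j _ => ?_
    rw [map_mul, hba]
  have hxd : x ∈ F0 d n := hF.le n hxF
  have hyz : ∀ i, ∃ y z : A3, y ∈ HP ((n - 1) - d i) ∧ z ∈ HP ((n - 1) - d i) ∧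
      x i = u * y + v * z := by
    intro i
    obtain ⟨p', hp', p'', hp'', h⟩ := hpt (n - d i) (x i) (hxd i) (hxa i)
    have e : n - d i - 1 = (n - 1) - d i := by ring
    rw [e] at hp' hp''
    exact ⟨p', p'', hp', hp'', h⟩
  choose y z hy hz hxyz using hyz
  have hxeq : x = u • y + v • z := by
    funext i
    rw [hxyz i]
    rfl
  have hmem : u • y + v • z ∈ F (n - 1 + 1) := by
    rw [← hxeq, sub_add_cancel]
    exact hxF
  obtain ⟨g, _, hg1, hg2⟩ := hF.beta (n - 1) u v hu hv huv y z hy hz hmem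
  obtain ⟨b', _, hb'2⟩ := hs.gen _ _ hg1
  obtain ⟨b'', _, hb''2⟩ := hs.gen _ _ hg2
  have hdecomp : x = ∑ j, (u * b' j + v * b'' j) • s j := by
    have e1 : x = u • (y + v • g) + v • (z - u • g) := by
      rw [hxeq, smul_add, smul_sub, smul_smul, smul_smul, mul_comm v u]
      abel
    rw [e1, hb'2, hb''2, Finset.smul_sum, Finset.smul_sum, ← Finset.sum_add_distrib]
    refine Finset.sum_congr rfl fun j _ => ?_
    rw [add_smul, smul_smul, smul_smul]
  have hzero : ∑ j, (fun j => b j - (u * b' j + v * b'' j)) j • s j = 0 := by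
    have e1 : ∑ j, (fun j => b j - (u * b' j + v * b'' j)) j • s j =
        ∑ j, b j • s j - ∑ j, (u * b' j + v * b'' j) • s j := by
      rw [← Finset.sum_sub_distrib]
      exact Finset.sum_congr rfl fun j _ => sub_smul _ _ _
    rw [e1, ← hx, ← hdecomp, sub_self]
  have hinj := hs.inj _ hzero
  intro j
  have h1 : b j - (u * b' j + v * b'' j) = 0 := congrFun hinj j
  have h2 : MvPolynomial.eval a (b j) = MvPolynomial.eval a (u * b' j + v * b'' j) := by
    rw [sub_eq_zero.1 h1]
  rw [hba, map_add, map_mul, map_mul, hua, hva, zero_mul, zero_mul, add_zero] at h2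
  exact h2

end Pool.Agent.LibRR
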