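import Pool.Agent.LibRR.A01

/-!
[RR A07] A homogeneous matrix of full rank at all points of the plane is surjective in large degrees.

For a function `σ : J → I` let `Δ σ = det (s j (σ j'))_{j, j'}` (`Matrix.det` over `J × J`). By
Cramer, for every `j₀` the vector `Δ σ • e_{j₀}` is in the image of `p ↦ (∑ i, s j i * p i)_j`:
`p i = ∑_{j'} [σ j' = i] adj_{j', j₀}`, since `M * adj M = det M` for `M j j' = s j (σ j')`
(`Matrix.mul_adjugate`).
The polynomials `Δ σ` have no common zero `a ≠ 0`: the matrix `s j i (a)` has linearly independent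
rows, so it has an invertible square submatrix with columns `σ` (full row rank: columns span
`J → ℂ`; choose a basis among the columns, `exists_linearIndependent` / `Module.Basis`...). By the
Nullstellensatz (`MvPolynomial.vanishingIdeal_zeroLocus_eq_radical`) some power of each `X i` is in
the ideal `𝔞` of the `Δ σ`: there is `N` with `X i ^ N ∈ 𝔞`. Every monomial of degree `≥ 3 N` is
divisible by some `X i ^ N`, so `HP m ⊆ 𝔞` for `m ≥ 3 N`.
Hence if `y j ∈ HP (m + c j)` and `m + c j ≥ 3 N` for all `j`, each `y j • e_j` is in the image, so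
`y = (∑ i, s j i * q i)_j` for some `q`. Replace `q i` by `p i = hc (m + d i) (q i)`: since
`s j i ∈ HP (c j - d i)`, `∑ i, s j i * p i` is the component of degree `m + c j` of
`∑ i, s j i * q i = y j` (`hc_mul`), i.e. `y j`. (`J` empty is trivial.)
-/

set_option autoImplicit false

namespace Pool.Agent.LibRR

open Matrix in
/-- an invertible square submatrix of a matrix with independent rows -/
theorem rrA07_minor {I J : Type} [Fintype I] [Fintype J] [DecidableEq J] (S : Matrix J I ℂ)
    (hS : LinearIndependent ℂ (fun j => S j)) : ∃ σ : J → I,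
      (Matrix.of fun j j' => S j (σ j')).det ≠ 0 := by
  classical
  have hrank : S.rank = Fintype.card J := by
    exact LinearIndependent.rank_matrix hS
  have hspan : Submodule.span ℂ (Set.range S.col) = ⊤ := by
    apply Submodule.eq_top_of_finrank_eq
    rw [← Matrix.rank_eq_finrank_span_cols, hrank, Module.finrank_fintype_fun_eq_card]
  obtain ⟨κ, a, ha, hsp, hli⟩ := exists_linearIndependent' ℂ S.col
  rw [hspan] at hsp
  let b : Module.Basis κ ℂ (J → ℂ) := Module.Basis.mk hli (by rw [hsp])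
  have : Fintype κ := Fintype.ofInjective a ha
  have hcard : Fintype.card J = Fintype.card κ := by
    rw [← Module.finrank_eq_card_basis b, Module.finrank_fintype_fun_eq_card]
  obtain ⟨e⟩ := Fintype.card_eq.1 hcard
  refine ⟨fun j' => a (e j'), ?_⟩
  have h1 : LinearIndependent ℂ (Matrix.of fun j j' => S j (a (e j'))).col := by
    have h2 := hli.comp e e.injective
    exact h2
  rw [Matrix.linearIndependent_cols_iff_isUnit, Matrix.isUnit_iff_isUnit_det] at h1
  exact h1.ne_zero

/-- a monomial of large degree is divisible by a large power of a variable -/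
theorem rrA07_large (𝔞 : Ideal A3) (N : ℕ) (hN : ∀ i : Fin 3, (MvPolynomial.X i : A3) ^ N ∈ 𝔞)
    {m : ℤ} (hm : 3 * (N : ℤ) ≤ m) {p : A3} (hp : p ∈ HP m) : p ∈ 𝔞 := by
  obtain ⟨k, rfl⟩ : ∃ k : ℕ, m = k := ⟨m.toNat, (Int.toNat_of_nonneg (by omega)).symm⟩
  rw [mem_HP_nat] at hp
  rw [MvPolynomial.as_sum p]
  apply Ideal.sum_mem
  intro v hv
  have hdeg : v.degree = k := by
    have h1 := hp (MvPolynomial.mem_support_iff.1 hv)
    rw [← h1]
    simp [Finsupp.weight_apply, Finsupp.degree_eq_sum, Finsupp.sum_fintype]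
  have hex : ∃ i : Fin 3, N ≤ v i := by
    by_contra hcon
    push Not at hcon
    rw [Finsupp.degree_eq_sum, Fin.sum_univ_three] at hdeg
    have h0 := hcon 0
    have h1 := hcon 1
    have h2 := hcon 2
    omega
  obtain ⟨i, hi⟩ := hex
  have h2 : MvPolynomial.monomial v (MvPolynomial.coeff v p) =
      MvPolynomial.monomial (v - Finsupp.single i N) (MvPolynomial.coeff v p) *
        (MvPolynomial.X i : A3) ^ N := by
    rw [MvPolynomial.X_pow_eq_monomial, MvPolynomial.monomial_mul, mul_one]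
    congr 2
    rw [tsub_add_cancel_of_le]
    rw [Finsupp.single_le_iff]
    exact hi
  rw [h2]
  exact Ideal.mul_mem_left _ _ (hN i)

theorem surj_of_rank {I J : Type} [Fintype I] [Fintype J] (d : I → ℤ) (c : J → ℤ)
    (s : J → I → A3) (hs : ∀ j i, s j i ∈ HP (c j - d i))
    (hrank : ∀ a : Fin 3 → ℂ, a ≠ 0 →
      LinearIndependent ℂ fun (j : J) (i : I) => MvPolynomial.eval a (s j i)) :
    ∃ m₀ : ℤ, ∀ m, m₀ ≤ m → ∀ y : J → A3, (∀ j, y j ∈ HP (m + c j)) →
      ∃ p : I → A3, (∀ i, p i ∈ HP (m + d i)) ∧ ∀ j, ∑ i, s j i * p i = y j := by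
  classical
  set L : (I → A3) →ₗ[A3] (J → A3) := Matrix.mulVecLin (Matrix.of s) with hL
  have hLapp : ∀ (q : I → A3) (j : J), L q j = ∑ i, s j i * q i := by
    intro q j
    rw [hL, Matrix.mulVecLin_apply]
    rfl
  set M : (J → I) → Matrix J J A3 := fun σ => Matrix.of fun j j' => s j (σ j') with hM
  set 𝔞 : Ideal A3 := Ideal.span (Set.range fun σ : J → I => (M σ).det) with h𝔞
  -- Cramer
  have hcr : ∀ (σ : J → I) (j₀ : J), (Pi.single j₀ (M σ).det : J → A3) ∈ LinearMap.range L := by
    intro σ j₀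
    refine ⟨fun i => ∑ j', if σ j' = i then (M σ).adjugate j' j₀ else 0, ?_⟩
    funext j
    rw [hLapp]
    have h1 : ∑ i, s j i * ∑ j', (if σ j' = i then (M σ).adjugate j' j₀ else 0) =
        ∑ j', s j (σ j') * (M σ).adjugate j' j₀ := by
      simp only [Finset.mul_sum]
      rw [Finset.sum_comm]
      apply Finset.sum_congr rfl
      intro j' _
      rw [Finset.sum_eq_single (σ j')]
      · rw [if_pos rfl]
      · intro i _ hi
        rw [if_neg (Ne.symm hi), mul_zero]
      · intro h
        exact absurd (Finset.mem_univ _) h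
    rw [h1]
    have h2 := congrFun (congrFun (Matrix.mul_adjugate (M σ)) j) j₀
    rw [Matrix.mul_apply] at h2
    have h3 : ∑ j', s j (σ j') * (M σ).adjugate j' j₀ = ∑ j', (M σ) j j' * (M σ).adjugate j' j₀ :=
      rfl
    rw [h3, h2, Matrix.smul_apply, Matrix.one_apply, smul_eq_mul]
    by_cases hj : j = j₀
    · subst hj
      rw [if_pos rfl, mul_one, Pi.single_eq_same]
    · rw [if_neg hj, mul_zero, Pi.single_eq_of_ne hj]
  have hideal : ∀ p ∈ 𝔞, ∀ j₀ : J, (Pi.single j₀ p : J → A3) ∈ LinearMap.range L := by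
    intro p hp
    refine Submodule.span_induction (p := fun p _ => ∀ j₀ : J, (Pi.single j₀ p : J → A3) ∈
      LinearMap.range L) ?_ ?_ ?_ ?_ hp
    · rintro _ ⟨σ, rfl⟩ j₀
      exact hcr σ j₀
    · intro j₀
      rw [Pi.single_zero]
      exact Submodule.zero_mem _
    · intro x y _ _ hx hy j₀
      rw [Pi.single_add]
      exact Submodule.add_mem _ (hx j₀) (hy j₀)
    · intro r x _ hx j₀
      rw [Pi.single_smul]
      exact Submodule.smul_mem _ _ (hx j₀)
  -- no common zero
  have hzero : ∀ a : Fin 3 → ℂ, a ≠ 0 → ∃ σ : J → I, MvPolynomial.eval a (M σ).det ≠ 0 := by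
    intro a ha
    obtain ⟨σ, hσ⟩ := rrA07_minor (Matrix.of fun j i => MvPolynomial.eval a (s j i)) (hrank a ha)
    refine ⟨σ, ?_⟩
    rw [RingHom.map_det]
    exact hσ
  have hrad : ∀ i : Fin 3, (MvPolynomial.X i : A3) ∈ 𝔞.radical := by
    intro i
    rw [← MvPolynomial.vanishingIdeal_zeroLocus_eq_radical (K := ℂ), MvPolynomial.mem_vanishingIdeal_iff]
    intro a ha
    rw [MvPolynomial.mem_zeroLocus_iff] at ha
    have h0 : a = 0 := by
      by_contra hne
      obtain ⟨σ, hσ⟩ := hzero a hne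
      apply hσ
      have := ha (M σ).det (Ideal.subset_span ⟨σ, rfl⟩)
      rw [MvPolynomial.aeval_eq_eval] at this
      exact this
    rw [h0]
    simp
  have hpow : ∀ i : Fin 3, ∃ N : ℕ, (MvPolynomial.X i : A3) ^ N ∈ 𝔞 := fun i => hrad i
  choose N hN using hpow
  set N₀ : ℕ := ∑ i, N i with hN₀
  have hN0 : ∀ i : Fin 3, (MvPolynomial.X i : A3) ^ N₀ ∈ 𝔞 := by
    intro i
    have h1 : N i ≤ N₀ := Finset.single_le_sum (f := N) (fun _ _ => Nat.zero_le _)
      (Finset.mem_univ i)
    obtain ⟨t, ht⟩ := Nat.exists_eq_add_of_le h1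
    rw [ht, pow_add]
    exact Ideal.mul_mem_right _ _ (hN i)
  refine ⟨3 * (N₀ : ℤ) + ∑ j, |c j|, fun m hm y hy => ?_⟩
  have hy𝔞 : ∀ j, y j ∈ 𝔞 := by
    intro j
    apply rrA07_large 𝔞 N₀ hN0 _ (hy j)
    have h1 : |c j| ≤ ∑ j, |c j| :=
      Finset.single_le_sum (f := fun j => |c j|) (fun _ _ => abs_nonneg _) (Finset.mem_univ j)
    have h2 := neg_abs_le (c j)
    linarith
  have hyL : y ∈ LinearMap.range L := by
    have h1 : y = ∑ j, (Pi.single j (y j) : J → A3) := by
      funext j
      rw [Finset.sum_apply, Finset.sum_eq_single j]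
      · rw [Pi.single_eq_same]
      · intro j' _ hj'
        rw [Pi.single_eq_of_ne (Ne.symm hj')]
      · intro h
        exact absurd (Finset.mem_univ _) h
    rw [h1]
    exact Submodule.sum_mem _ fun j _ => hideal _ (hy𝔞 j) j
  obtain ⟨q, hq⟩ := hyL
  refine ⟨fun i => hc (m + d i) (q i), fun i => hc_mem _ _, fun j => ?_⟩
  have h1 : ∀ i, s j i * hc (m + d i) (q i) = hc (m + c j) (s j i * q i) := by
    intro i
    have h2 := hc_mul (m := m + d i) (hs j i) (q i)
    rw [show m + d i + (c j - d i) = m + c j by ring] at h2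
    exact h2.symm
  simp only [h1]
  rw [← map_sum, ← hLapp, hq]
  exact hc_of_mem (hy j)

end Pool.Agent.LibRR
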