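import Pool.Agent.LibRR.Mod
import Pool.Agent.LibRR.A03

/-!
[RR A08] The relations of a graded module of depth two form a graded syzygy module.

Write `π a = ∑ i, algebraMap k L (ev (a i)) * e i`; `π (p • a) = ev p * π a`. `le`, `smul` are clear
(`HP_mul`). `gamma`: `ev X₀ * π a = 0` and `ev X₀ ≠ 0` by `inj` (`X₀ ∈ HP 1`, `X₀ ≠ 0`).
`beta`: let `f = π a`, `g = π b` (both in `V n`: by `mem`, `smul`, a sum of elements
`ev (a i) * e i ∈ V ((n - d i) + d i)`). From `π (u • a + v • b) = 0`: `ev u * f + ev v * g = 0`, so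
`ev v * (-g) = ev u * f`, and `koszul` (with `f := -g`, `g := f`) gives `h ∈ V (n - 1)` with
`-g = ev u * h`, `f = ev v * h`. By `gen`, `- h = π γ` with `γ ∈ F0 d (n - 1)`. Then
`π (a + v • γ) = f - ev v * h = 0` and `π (b - u • γ) = g + ev u * h = 0`; the degrees are right by
`smul_mem_F0` (`1 + (n - 1) = n`).
-/

set_option autoImplicit false

namespace Pool.Agent.LibRR

variable {k L : Type} [Field k] [Field L] [Algebra ℂ k] [Algebra ℂ L] [Algebra k L]
  [IsScalarTower ℂ k L]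

theorem IsGMod.sum_mem {ev : A3 →ₐ[ℂ] k} {V : ℤ → Submodule ℂ L} {I : Type} [Fintype I]
    {d : I → ℤ} {e : I → L} (h : IsGMod ev V d e) {n : ℤ} {a : I → A3} (ha : a ∈ F0 d n) :
    ∑ i, algebraMap k L (ev (a i)) * e i ∈ V n := by
  refine Submodule.sum_mem _ fun i _ => ?_
  have h1 := h.smul (n - d i) (d i) (a i) (e i) (ha i) (h.mem i)
  have h2 : n - d i + d i = n := by ring
  rwa [h2] at h1

theorem rrA08_smul {k L : Type} [Field k] [Field L] [Algebra ℂ k] [Algebra k L]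
    (ev : A3 →ₐ[ℂ] k) {I : Type} [Fintype I] (e : I → L) (p : A3) (a : I → A3) :
    ∑ i, algebraMap k L (ev ((p • a) i)) * e i =
      algebraMap k L (ev p) * ∑ i, algebraMap k L (ev (a i)) * e i := by
  rw [Finset.mul_sum]
  refine Finset.sum_congr rfl fun i _ => ?_
  rw [Pi.smul_apply, smul_eq_mul, map_mul, map_mul, mul_assoc]

theorem rrA08_add {k L : Type} [Field k] [Field L] [Algebra ℂ k] [Algebra k L]
    (ev : A3 →ₐ[ℂ] k) {I : Type} [Fintype I] (e : I → L) (a b : I → A3) :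
    ∑ i, algebraMap k L (ev ((a + b) i)) * e i =
      ∑ i, algebraMap k L (ev (a i)) * e i + ∑ i, algebraMap k L (ev (b i)) * e i := by
  rw [← Finset.sum_add_distrib]
  refine Finset.sum_congr rfl fun i _ => ?_
  rw [Pi.add_apply, map_add, map_add, add_mul]

theorem rrA08_sub {k L : Type} [Field k] [Field L] [Algebra ℂ k] [Algebra k L]
    (ev : A3 →ₐ[ℂ] k) {I : Type} [Fintype I] (e : I → L) (a b : I → A3) :
    ∑ i, algebraMap k L (ev ((a - b) i)) * e i =
      ∑ i, algebraMap k L (ev (a i)) * e i - ∑ i, algebraMap k L (ev (b i)) * e i := by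
  rw [← Finset.sum_sub_distrib]
  refine Finset.sum_congr rfl fun i _ => ?_
  rw [Pi.sub_apply, map_sub, map_sub, sub_mul]

theorem rrA08_X0_ne {k : Type} [Field k] [Algebra ℂ k] (ev : A3 →ₐ[ℂ] k)
    (hinj : ∀ (m : ℤ) (p : A3), p ∈ HP m → ev p = 0 → p = 0) :
    ev (MvPolynomial.X 0) ≠ 0 := by
  intro h0
  exact MvPolynomial.X_ne_zero (R := ℂ) (0 : Fin 3) (hinj 1 _ (HP_X 0) h0)

theorem IsGMod.isSyz {ev : A3 →ₐ[ℂ] k} {V : ℤ → Submodule ℂ L} {I : Type} [Fintype I]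
    {d : I → ℤ} {e : I → L} (h : IsGMod ev V d e) : IsSyz d (relF ev d e) := by
  have hmem : ∀ (n : ℤ) (a : I → A3), a ∈ relF ev d e n ↔
      a ∈ F0 d n ∧ ∑ i, algebraMap k L (ev (a i)) * e i = 0 := fun n a => Iff.rfl
  refine ⟨?_, ?_, ?_, ?_⟩
  · intro n a ha
    exact ((hmem n a).1 ha).1
  · intro m n p a hp ha
    obtain ⟨h1, h2⟩ := (hmem n a).1 ha
    refine (hmem (m + n) (p • a)).2 ⟨smul_mem_F0 hp h1, ?_⟩
    rw [rrA08_smul, h2, mul_zero]
  · intro n u v hu hv huv a b ha hb hab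
    obtain ⟨_, h2⟩ := (hmem (n + 1) _).1 hab
    rw [rrA08_add, rrA08_smul, rrA08_smul] at h2
    have hf := h.sum_mem ha
    have hg := h.sum_mem hb
    obtain ⟨f, hfe⟩ : ∃ f, f = ∑ i, algebraMap k L (ev (a i)) * e i := ⟨_, rfl⟩
    obtain ⟨g, hge⟩ : ∃ g, g = ∑ i, algebraMap k L (ev (b i)) * e i := ⟨_, rfl⟩
    rw [← hfe] at hf h2
    rw [← hge] at hg h2
    have h3 : algebraMap k L (ev v) * (-g) = algebraMap k L (ev u) * f := by
      linear_combination -h2
    obtain ⟨w, hw, hw1, hw2⟩ := h.koszul n u v hu hv huv (-g) f (Submodule.neg_mem _ hg) hf h3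
    obtain ⟨γ, hγ, hγ2⟩ := h.gen (n - 1) (-w) (Submodule.neg_mem _ hw)
    have hγF : γ ∈ F0 d (n - 1) := hγ
    have e1 : (1 : ℤ) + (n - 1) = n := by ring
    have hvγ : v • γ ∈ F0 d n := by
      have := smul_mem_F0 hv hγF
      rwa [e1] at this
    have huγ : u • γ ∈ F0 d n := by
      have := smul_mem_F0 hu hγF
      rwa [e1] at this
    refine ⟨γ, hγF, (hmem n _).2 ⟨Submodule.add_mem _ ha hvγ, ?_⟩,
      (hmem n _).2 ⟨Submodule.sub_mem _ hb huγ, ?_⟩⟩
    · rw [rrA08_add, rrA08_smul, ← hγ2, ← hfe, hw2]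
      ring
    · rw [rrA08_sub, rrA08_smul, ← hγ2, ← hge]
      linear_combination -hw1
  · intro n a ha hXa
    obtain ⟨_, h2⟩ := (hmem (n + 1) _).1 hXa
    rw [rrA08_smul] at h2
    refine (hmem n a).2 ⟨ha, ?_⟩
    rcases mul_eq_zero.1 h2 with h3 | h3
    · exfalso
      exact rrA08_X0_ne ev h.inj ((map_eq_zero _).1 h3)
    · exact h3

end Pool.Agent.LibRR
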