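import Pool.Agent.LibRR.A08
import Pool.Agent.LibRR.A02

/-!
[RR A09] The Hilbert function of a graded module with a resolution of length one.

`F0 d n → V n`, `a ↦ ∑ i, ev (a i) * e i` is linear (as a map of `ℂ`-vector spaces; `F0 d n` is
finite dimensional, `finite_F0`) and surjective (`gen`, `sum_mem`), with kernel
`relF ev d e n` (as a subspace of `F0 d n`); and `(b j) ↦ ∑ b j • s j` is a linear isomorphism from
`{b | ∀ j, b j ∈ HP (n - c j)} = F0 c n` onto `relF ev d e n` (`gen`, `inj`, and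
`s j i ∈ HP (c j - d i)` from `mem`). Rank-nullity and `finrank_F0`.
-/

set_option autoImplicit false

namespace Pool.Agent.LibRR

variable {k L : Type} [Field k] [Field L] [Algebra ℂ k] [Algebra ℂ L] [Algebra k L]
  [IsScalarTower ℂ k L]

/-- the linear map `a ↦ ∑ i, ev (a i) * e i` -/
noncomputable def rrA09_phi (ev : A3 →ₐ[ℂ] k) {I : Type} [Fintype I] (e : I → L) :
    (I → A3) →ₗ[ℂ] L :=
  ∑ i, (LinearMap.mulRight ℂ (e i)) ∘ₗ (IsScalarTower.toAlgHom ℂ k L).toLinearMap ∘ₗ
    ev.toLinearMap ∘ₗ (LinearMap.proj i)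

theorem rrA09_phi_apply (ev : A3 →ₐ[ℂ] k) {I : Type} [Fintype I] (e : I → L) (a : I → A3) :
    rrA09_phi ev e a = ∑ i, algebraMap k L (ev (a i)) * e i := by
  unfold rrA09_phi
  rw [LinearMap.sum_apply]
  rfl

/-- the linear map `F0 d n → V n` -/
noncomputable def rrA09_psi {ev : A3 →ₐ[ℂ] k} {V : ℤ → Submodule ℂ L} {I : Type} [Fintype I]
    {d : I → ℤ} {e : I → L} (h : IsGMod ev V d e) (n : ℤ) : F0 d n →ₗ[ℂ] V n :=
  ((rrA09_phi ev e).domRestrict (F0 d n)).codRestrict (V n) (fun a => by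
    rw [LinearMap.domRestrict_apply, rrA09_phi_apply]
    exact h.sum_mem a.2)

theorem rrA09_psi_surj {ev : A3 →ₐ[ℂ] k} {V : ℤ → Submodule ℂ L} {I : Type} [Fintype I]
    {d : I → ℤ} {e : I → L} (h : IsGMod ev V d e) (n : ℤ) : Function.Surjective (rrA09_psi h n) := by
  rintro ⟨f, hf⟩
  obtain ⟨a, ha, hfa⟩ := h.gen n f hf
  refine ⟨⟨a, ha⟩, Subtype.ext ?_⟩
  show rrA09_phi ev e a = f
  rw [rrA09_phi_apply, hfa]

theorem IsGMod.finite {ev : A3 →ₐ[ℂ] k} {V : ℤ → Submodule ℂ L} {I : Type} [Fintype I]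
    {d : I → ℤ} {e : I → L} (h : IsGMod ev V d e) (n : ℤ) : Module.Finite ℂ (V n) := by
  haveI := finite_F0 d n
  exact Module.Finite.of_surjective (rrA09_psi h n) (rrA09_psi_surj h n)

theorem rrA09_rel {ev : A3 →ₐ[ℂ] k} {V : ℤ → Submodule ℂ L} {I J : Type} [Fintype I]
    [Fintype J] {d : I → ℤ} {e : I → L} (h : IsGMod ev V d e) {c : J → ℤ} {s : J → I → A3}
    (hs : IsGBasis (relF ev d e) c s) (n : ℤ) :
    Module.finrank ℂ (relF ev d e n) = Module.finrank ℂ (F0 c n) := by
  -- the map b ↦ ∑ b j • s j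
  let Φ : (J → A3) →ₗ[ℂ] (I → A3) :=
    { toFun := fun b => ∑ j, b j • s j
      map_add' := fun a b => by
        simp only [Pi.add_apply, add_smul, Finset.sum_add_distrib]
      map_smul' := fun r b => by
        simp only [Pi.smul_apply, RingHom.id_apply, smul_assoc, Finset.smul_sum] }
  have hmem : ∀ b : F0 c n, Φ b ∈ relF ev d e n := by
    intro b
    show ∑ j, (b : J → A3) j • s j ∈ relF ev d e n
    apply Submodule.sum_mem
    intro j _
    have h1 := h.isSyz.smul (n - c j) (c j) ((b : J → A3) j) (s j) (b.2 j) (hs.mem j)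
    rwa [sub_add_cancel] at h1
  let Ψ : F0 c n →ₗ[ℂ] relF ev d e n := (Φ.domRestrict (F0 c n)).codRestrict _ hmem
  have hΨ : Function.Bijective Ψ := by
    constructor
    · rw [injective_iff_map_eq_zero]
      intro b hb
      have h1 : ∑ j, (b : J → A3) j • s j = 0 := congrArg Subtype.val hb
      exact Subtype.ext (hs.inj _ h1)
    · rintro ⟨a, ha⟩
      obtain ⟨b, hb, hab⟩ := hs.gen n a ha
      exact ⟨⟨b, hb⟩, Subtype.ext hab.symm⟩
  exact (LinearEquiv.ofBijective Ψ hΨ).finrank_eq.symm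

theorem IsGMod.finrank {ev : A3 →ₐ[ℂ] k} {V : ℤ → Submodule ℂ L} {I J : Type} [Fintype I]
    [Fintype J] {d : I → ℤ} {e : I → L} (h : IsGMod ev V d e) {c : J → ℤ} {s : J → I → A3}
    (hs : IsGBasis (relF ev d e) c s) (n : ℤ) :
    Module.finrank ℂ (V n) + ∑ j, Module.finrank ℂ (HP (n - c j)) =
      ∑ i, Module.finrank ℂ (HP (n - d i)) := by
  haveI := finite_F0 d n
  haveI := h.finite n
  have h1 := LinearMap.finrank_range_add_finrank_ker (rrA09_psi h n)
  rw [LinearMap.range_eq_top.mpr (rrA09_psi_surj h n), finrank_top] at h1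
  have hle : relF ev d e n ≤ F0 d n := h.isSyz.le n
  have hker : LinearMap.ker (rrA09_psi h n) = (relF ev d e n).comap (F0 d n).subtype := by
    ext a
    rw [LinearMap.mem_ker, Submodule.mem_comap]
    constructor
    · intro ha
      have h2 : rrA09_phi ev e a = 0 := congrArg Subtype.val ha
      rw [rrA09_phi_apply] at h2
      exact ⟨a.2, h2⟩
    · intro ha
      apply Subtype.ext
      show rrA09_phi ev e a = 0
      rw [rrA09_phi_apply]
      exact ha.2
  have h2 : Module.finrank ℂ (LinearMap.ker (rrA09_psi h n)) =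
      Module.finrank ℂ (relF ev d e n) := by
    rw [hker]
    exact (Submodule.comapSubtypeEquivOfLe hle).finrank_eq
  rw [h2, rrA09_rel h hs n, finrank_F0, finrank_F0] at h1
  exact h1

end Pool.Agent.LibRR
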