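import Pool.Agent.LibRR.A08

/-!
[RR A10] The dual of a graded module is the kernel of the dual matrix.

MAP: `z ∈ dualW ev V m`. For every `i` there is a unique `p i ∈ HP (m + d i)` with
`ev (p i) = Tr (z * e i)` (`mem i`, existence by definition with `n = d i`; uniqueness by `inj`).
`∑ i, s j i * p i = 0`: it is in `HP (c j + m)` and `ev` of it is
`∑ ev (s j i) * Tr (z e i) = Tr (z * ∑ ev (s j i) e i) = Tr 0 = 0`; `inj`.
INJECTIVE: if `Tr (z e i) = 0` for all `i` then `Tr (z w) = 0` for all `w ∈ L` (`span`), so `z = 0`
(`traceForm_nondegenerate`; `L/k` is separable: characteristic zero).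
SURJECTIVE: let `p ∈ kerP d s m`. CLAIM: if `κ : I → k` and `∑ i, κ i • e i = 0` then
`∑ i, κ i * ev (p i) = 0`. By `frac` write `κ i = ev (a i) / ev (b i)`, `a i, b i ∈ HP (m i)`; let
`N ≥ m i + ...` hmm: choose a common denominator `B = ∏ i, b i ∈ HP M`, `M = ∑ m i`, so
`κ i = ev (A i) / ev B` with `A i = a i * ∏_{i' ≠ i} b i' ∈ HP M`. To have the right degrees choose
an integer `n ≥ M + d i` for all `i` and multiply by powers of a linear form: with
`A' i = X₀ ^ (n - M - d i) * A i ∈ HP (n - d i)` one gets
`∑ ev (A' i) * ev (X₀) ^ (d i) ...`: since `ev X₀` need not be `1`, ASSUME `ev X₀ = 1`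
(hypothesis `hX0`), so that `ev (A' i) = ev (A i) = κ i * ev B`. So
`∑ i, ev (A' i) * e i = ev B * ∑ κ i e i = 0`, `A' ∈ relF ev d e n`, `A' = ∑ b j • s j` (`gen`) and
`∑ i, A' i * p i = ∑ j, b j * ∑ i, s j i * p i = 0`; apply `ev` and divide by `ev B`.
Hence (CLAIM, `span`) there is a `k`-linear `φ : L → k` with `φ (e i) = ev (p i)`
(the linear map `(I → k) → L`, `κ ↦ ∑ κ i • e i` is surjective with kernel contained in the kernel
of `κ ↦ ∑ κ i * ev (p i)`), and `φ = Tr (z * ·)` for some `z` (nondegenerate). `z ∈ dualW`: for
`f ∈ V n`, `f = ∑ ev (a i) e i` (`gen`), `Tr (z f) = ∑ ev (a i) ev (p i) = ev (∑ a i * p i)`, and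
`a i * p i ∈ HP ((n - d i) + (m + d i))`.
-/

set_option autoImplicit false

namespace Pool.Agent.LibRR

variable {k L : Type} [Field k] [Field L] [Algebra ℂ k] [Algebra ℂ L] [Algebra k L]
  [IsScalarTower ℂ k L] [FiniteDimensional k L]

theorem rrA10_prod {I : Type} (S : Finset I) (m : I → ℤ) (b : I → A3) (hb : ∀ i ∈ S, b i ∈ HP (m i)) :
    ∏ i ∈ S, b i ∈ HP (∑ i ∈ S, m i) := by
  classical
  induction S using Finset.induction_on with
  | empty =>
    rw [Finset.prod_empty, Finset.sum_empty]
    have := HP_C 1
    rwa [MvPolynomial.C_1] at this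
  | insert i S hi ih =>
    rw [Finset.prod_insert hi, Finset.sum_insert hi]
    exact HP_mul (hb i (Finset.mem_insert_self _ _))
      (ih (fun j hj => hb j (Finset.mem_insert_of_mem hj)))

/-- a common denominator of finitely many elements of `k`, with numerators of prescribed degrees -/
theorem rrA10_common {ev : A3 →ₐ[ℂ] k} (hfrac : ∀ z : k, ∃ (m : ℤ) (p q : A3), p ∈ HP m ∧ q ∈ HP m ∧
      ev q ≠ 0 ∧ z = ev p / ev q) (hX0 : ev (MvPolynomial.X 0) = 1) {I : Type} [Fintype I]
    (d : I → ℤ) (κ : I → k) :
    ∃ (n : ℤ) (B : A3) (A : I → A3), ev B ≠ 0 ∧ (∀ i, A i ∈ HP (n - d i)) ∧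
      ∀ i, ev (A i) = κ i * ev B := by
  classical
  choose m a b ha hb hb0 hκ using fun i => hfrac (κ i)
  set M : ℤ := ∑ i, m i with hM
  set n : ℤ := M + ∑ i, |d i| with hn
  refine ⟨n, ∏ i, b i, fun i => (MvPolynomial.X 0 : A3) ^ (n - M - d i).toNat *
    (a i * ∏ i' ∈ Finset.univ.erase i, b i'), ?_, ?_, ?_⟩
  · rw [map_prod]
    exact Finset.prod_ne_zero_iff.mpr fun i _ => hb0 i
  · intro i
    have h0 : 0 ≤ n - M - d i := by
      have h1 : |d i| ≤ ∑ i, |d i| :=
        Finset.single_le_sum (f := fun i => |d i|) (fun i _ => abs_nonneg (d i))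
          (Finset.mem_univ i)
      have h2 := le_abs_self (d i)
      rw [hn]
      linarith
    have h1 := HP_pow (HP_X 0) (n - M - d i).toNat
    rw [mul_one, Int.toNat_of_nonneg h0] at h1
    have h2 := HP_mul (ha i) (rrA10_prod (Finset.univ.erase i) m b (fun i' _ => hb i'))
    rw [Finset.add_sum_erase _ m (Finset.mem_univ i), ← hM] at h2
    have h3 := HP_mul h1 h2
    have h4 : n - M - d i + M = n - d i := by ring
    rwa [h4] at h3
  · intro i
    rw [map_mul, map_pow, hX0, one_pow, one_mul, map_mul, map_prod, map_prod,
      ← Finset.mul_prod_erase Finset.univ (fun i => ev (b i)) (Finset.mem_univ i)]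
    have h1 : κ i * ev (b i) = ev (a i) := by
      have := hκ i
      rw [this, div_mul_cancel₀ _ (hb0 i)]
    rw [← mul_assoc, h1]

theorem IsGMod.dual_equiv {ev : A3 →ₐ[ℂ] k} {V : ℤ → Submodule ℂ L} {I J : Type} [Fintype I]
    [Fintype J] {d : I → ℤ} {e : I → L} (h : IsGMod ev V d e) (hfull : IsGFull ev e)
    (hX0 : ev (MvPolynomial.X 0) = 1) {c : J → ℤ} {s : J → I → A3}
    (hs : IsGBasis (relF ev d e) c s) (m : ℤ) :
    Nonempty (dualW ev V m ≃ₗ[ℂ] kerP d s m) := by
  haveI : CharZero k := charZero_of_injective_algebraMap (algebraMap ℂ k).injective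
  haveI : Algebra.IsSeparable k L := inferInstance
  have hnd := traceForm_nondegenerate k L
  -- the map to I → k on the dual
  let G : dualW ev V m →ₗ[ℂ] (I → k) :=
    { toFun := fun z i => Algebra.trace k L ((z : L) * e i)
      map_add' := fun a b => by
        funext i
        simp only [Submodule.coe_add, add_mul, map_add, Pi.add_apply]
      map_smul' := fun r a => by
        funext i
        simp only [Submodule.coe_smul, smul_mul_assoc, RingHom.id_apply, Pi.smul_apply]
        rw [← algebraMap_smul k r ((a : L) * e i), map_smul, algebraMap_smul] }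
  let H : kerP d s m →ₗ[ℂ] (I → k) :=
    { toFun := fun p i => ev ((p : I → A3) i)
      map_add' := fun a b => by
        funext i
        simp only [Submodule.coe_add, Pi.add_apply, map_add]
      map_smul' := fun r a => by
        funext i
        simp only [Submodule.coe_smul, Pi.smul_apply, map_smul, RingHom.id_apply] }
  -- the linear combinations
  have hspan : ∀ w : L, ∃ κ : I → k, ∑ i, κ i • e i = w := by
    intro w
    have h1 : w ∈ Submodule.span k (Set.range e) := by rw [hfull.span]; trivial
    rw [Submodule.mem_span_range_iff_exists_fun] at h1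
    exact h1
  have hG : Function.Injective G := by
    rw [injective_iff_map_eq_zero]
    intro z hz
    have h1 : ∀ i, Algebra.trace k L ((z : L) * e i) = 0 := fun i => congrFun hz i
    have h2 : ∀ w : L, Algebra.traceForm k L (z : L) w = 0 := by
      intro w
      obtain ⟨κ, rfl⟩ := hspan w
      rw [Algebra.traceForm_apply, Finset.mul_sum, map_sum]
      apply Finset.sum_eq_zero
      intro i _
      rw [mul_smul_comm, map_smul, h1 i, smul_zero]
    exact Subtype.ext (hnd.1 _ h2)
  have hH : Function.Injective H := by
    rw [injective_iff_map_eq_zero]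
    intro p hp
    apply Subtype.ext
    funext i
    exact h.inj (m + d i) _ (p.2.1 i) (congrFun hp i)
  have hrange : LinearMap.range G = LinearMap.range H := by
    apply le_antisymm
    · rintro _ ⟨z, rfl⟩
      have hz : ∀ i, ∃ p ∈ HP (m + d i), ev p = Algebra.trace k L ((z : L) * e i) := by
        intro i
        obtain ⟨p, hp, hp'⟩ := z.2 (d i) (e i) (h.mem i)
        rw [add_comm] at hp
        exact ⟨p, hp, hp'⟩
      choose p hp hp' using hz
      have hker : p ∈ kerP d s m := by
        refine ⟨hp, fun j => ?_⟩
        have hsj := hs.mem j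
        apply h.inj (c j + m)
        · apply Submodule.sum_mem
          intro i _
          have h1 := HP_mul (hsj.1 i) (hp i)
          have h2 : c j - d i + (m + d i) = c j + m := by ring
          rwa [h2] at h1
        · rw [map_sum]
          have h1 : ∀ i, ev (s j i * p i) =
              Algebra.trace k L ((z : L) * (algebraMap k L (ev (s j i)) * e i)) := by
            intro i
            rw [map_mul, hp' i]
            have h2 : (z : L) * (algebraMap k L (ev (s j i)) * e i) =
                ev (s j i) • ((z : L) * e i) := by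
              rw [Algebra.smul_def]
              ring
            rw [h2, map_smul, smul_eq_mul]
          rw [Finset.sum_congr rfl fun i _ => h1 i, ← map_sum, ← Finset.mul_sum, hsj.2,
            mul_zero, map_zero]
      exact ⟨⟨p, hker⟩, funext hp'⟩
    · rintro _ ⟨⟨p, hp1, hp2⟩, rfl⟩
      -- the claim
      have hclaim : ∀ κ : I → k, ∑ i, κ i • e i = 0 → ∑ i, κ i * ev (p i) = 0 := by
        intro κ hκ
        obtain ⟨n, B, A, hB, hA, hAB⟩ := rrA10_common hfull.frac hX0 d κ
        have hArel : A ∈ relF ev d e n := by
          refine ⟨hA, ?_⟩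
          have h1 : ∀ i, algebraMap k L (ev (A i)) * e i =
              algebraMap k L (ev B) * (κ i • e i) := by
            intro i
            rw [hAB i, map_mul, Algebra.smul_def]
            ring
          rw [Finset.sum_congr rfl fun i _ => h1 i, ← Finset.mul_sum, hκ, mul_zero]
        obtain ⟨b, _, hb⟩ := hs.gen n A hArel
        have h2 : ∑ i, A i * p i = 0 := by
          have h3 : ∀ i, A i * p i = ∑ j, b j * (s j i * p i) := by
            intro i
            rw [hb, Finset.sum_apply, Finset.sum_mul]
            apply Finset.sum_congr rfl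
            intro j _
            rw [Pi.smul_apply, smul_eq_mul, mul_assoc]
          rw [Finset.sum_congr rfl fun i _ => h3 i, Finset.sum_comm]
          apply Finset.sum_eq_zero
          intro j _
          rw [← Finset.mul_sum, hp2 j, mul_zero]
        have h4 : ev B * ∑ i, κ i * ev (p i) = 0 := by
          rw [Finset.mul_sum, ← map_zero ev, ← h2, map_sum]
          apply Finset.sum_congr rfl
          intro i _
          rw [map_mul, hAB i]
          ring
        exact (mul_eq_zero.mp h4).resolve_left hB
      -- the functional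
      set π : (I → k) →ₗ[k] L := Fintype.linearCombination k e with hπ
      set ψ : (I → k) →ₗ[k] k := Fintype.linearCombination k (fun i => ev (p i)) with hψ
      have hπa : ∀ κ, π κ = ∑ i, κ i • e i := fun κ => by
        rw [hπ, Fintype.linearCombination_apply]
      have hψa : ∀ κ, ψ κ = ∑ i, κ i * ev (p i) := fun κ => by
        rw [hψ, Fintype.linearCombination_apply]
        rfl
      have hsurj : LinearMap.range π = ⊤ := by
        rw [LinearMap.range_eq_top]
        intro w
        obtain ⟨κ, hκ⟩ := hspan w
        exact ⟨κ, by rw [hπa, hκ]⟩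
      obtain ⟨g, hg⟩ := LinearMap.exists_rightInverse_of_surjective π hsurj
      have hgg : ∀ w, π (g w) = w := fun w => by
        have := LinearMap.congr_fun hg w
        simpa using this
      have hφ : ∀ κ, ψ (g (π κ)) = ψ κ := by
        intro κ
        have h1 : π (g (π κ) - κ) = 0 := by rw [map_sub, hgg, sub_self]
        rw [hπa] at h1
        have h2 := hclaim _ h1
        rw [← hψa, map_sub] at h2
        exact sub_eq_zero.mp h2
      set φ : L →ₗ[k] k := ψ ∘ₗ g with hφdef
      set z : L := ((Algebra.traceForm k L).toDual hnd).symm φ with hz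
      have hzφ : ∀ w, Algebra.trace k L (z * w) = φ w := by
        intro w
        rw [← Algebra.traceForm_apply, hz]
        exact LinearMap.BilinForm.apply_toDual_symm_apply φ w
      have hzW : z ∈ dualW ev V m := by
        intro n f hf
        obtain ⟨a, ha, hfa⟩ := h.gen n f hf
        refine ⟨∑ i, a i * p i, ?_, ?_⟩
        · apply Submodule.sum_mem
          intro i _
          have h1 := HP_mul (ha i) (hp1 i)
          have h2 : n - d i + (m + d i) = n + m := by ring
          rwa [h2] at h1
        · have h1 : f = π (fun i => ev (a i)) := by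
            rw [hπa, hfa]
            apply Finset.sum_congr rfl
            intro i _
            rw [Algebra.smul_def]
          rw [hzφ, h1, hφdef, LinearMap.comp_apply, hφ, hψa, map_sum]
          apply Finset.sum_congr rfl
          intro i _
          rw [map_mul]
      refine ⟨⟨z, hzW⟩, ?_⟩
      funext i
      show Algebra.trace k L (z * e i) = ev (p i)
      classical
      have h1 : e i = π (Pi.single i 1) := by
        rw [hπa]
        simp [Pi.single_apply]
      rw [hzφ, h1, hφdef, LinearMap.comp_apply, hφ, hψa]
      simp [Pi.single_apply]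
  exact ⟨(LinearEquiv.ofInjective G hG).trans
    ((LinearEquiv.ofEq _ _ hrange).trans (LinearEquiv.ofInjective H hH).symm)⟩

end Pool.Agent.LibRR
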