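import Pool.Agent.LibRR.Mod
import Pool.Agent.LibRR.A02
import Pool.Agent.LibRR.A07

/-!
[RR A11] The dimension of the kernel of the dual matrix.

`Ψ : {p | ∀ i, p i ∈ HP (m + d i)} → {y | ∀ j, y j ∈ HP (m + c j)}`, `p ↦ (∑ i, s j i * p i)_j`
(degrees: `(c j - d i) + (m + d i)`), linear, between finite dimensional spaces of dimensions
`∑ i, finrank (HP (m + d i))`, `∑ j, finrank (HP (m + c j))` (these are `F0 (fun i => - d i) m` and
`F0 (fun j => - c j) m`, `finrank_F0`), with kernel `kerP d s m`. Rank-nullity gives the inequality;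
for `m ≥ m₀` of [RR A07] `Ψ` is surjective and there is equality.
-/

set_option autoImplicit false

namespace Pool.Agent.LibRR

private noncomputable def rrA11_phi {I J : Type} [Fintype I] (s : J → I → A3) :
    (I → A3) →ₗ[ℂ] (J → A3) where
  toFun := fun p j => ∑ i, s j i * p i
  map_add' := by
    intro p q
    funext j
    simp only [Pi.add_apply, mul_add, Finset.sum_add_distrib]
  map_smul' := by
    intro c p
    funext j
    simp only [Pi.smul_apply, mul_smul_comm, ← Finset.smul_sum, RingHom.id_apply]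

private theorem rrA11_mem {I : Type} (d : I → ℤ) (m : ℤ) (p : I → A3) :
    p ∈ F0 (fun i => - d i) m ↔ ∀ i, p i ∈ HP (m + d i) := by
  rw [mem_F0]
  constructor
  · intro h i
    have := h i
    rwa [sub_neg_eq_add] at this
  · intro h i
    rw [sub_neg_eq_add]
    exact h i

private theorem rrA11_fin {I : Type} [Fintype I] (d : I → ℤ) (m : ℤ) :
    Module.finrank ℂ (F0 (fun i => - d i) m) = ∑ i, Module.finrank ℂ (HP (m + d i)) := by
  rw [finrank_F0]
  refine Finset.sum_congr rfl fun i _ => ?_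
  rw [sub_neg_eq_add]

private theorem rrA11_ker {I J : Type} [Fintype I] (d : I → ℤ) (s : J → I → A3) (m : ℤ) :
    Module.finrank ℂ (LinearMap.ker ((rrA11_phi s).domRestrict (F0 (fun i => - d i) m))) =
      Module.finrank ℂ (kerP d s m) := by
  rw [← Submodule.finrank_map_subtype_eq]
  have e : Submodule.map (F0 (fun i => - d i) m).subtype
      (LinearMap.ker ((rrA11_phi s).domRestrict (F0 (fun i => - d i) m))) = kerP d s m := by
    ext p
    constructor
    · rintro ⟨⟨q, hq⟩, hq', rfl⟩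
      refine ⟨(rrA11_mem d m q).1 hq, ?_⟩
      intro j
      have h1 : (rrA11_phi s) q = 0 := hq'
      exact congrFun h1 j
    · rintro ⟨h1, h2⟩
      refine ⟨⟨p, (rrA11_mem d m p).2 h1⟩, ?_, rfl⟩
      show (rrA11_phi s) p = 0
      funext j
      exact h2 j
  rw [e]

private theorem rrA11_range {I J : Type} [Fintype I] (d : I → ℤ) (c : J → ℤ)
    (s : J → I → A3) (hs : ∀ j i, s j i ∈ HP (c j - d i)) (m : ℤ) :
    LinearMap.range ((rrA11_phi s).domRestrict (F0 (fun i => - d i) m)) ≤
      F0 (fun j => - c j) m := by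
  rintro y ⟨⟨p, hp⟩, rfl⟩
  rw [rrA11_mem]
  intro j
  show ∑ i, s j i * p i ∈ HP (m + c j)
  refine Submodule.sum_mem _ fun i _ => ?_
  have h := HP_mul (hs j i) ((rrA11_mem d m p).1 hp i)
  have e : c j - d i + (m + d i) = m + c j := by ring
  rw [e] at h
  exact h

theorem finite_kerP {I J : Type} [Fintype I] (d : I → ℤ) (s : J → I → A3) (m : ℤ) :
    Module.Finite ℂ (kerP d s m) := by
  have : Module.Finite ℂ (F0 (fun i => - d i) m) := finite_F0 _ _
  have hle : kerP d s m ≤ F0 (fun i => - d i) m := by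
    rintro p ⟨h1, _⟩
    exact (rrA11_mem d m p).2 h1
  exact Module.Finite.of_injective (Submodule.inclusion hle) (Submodule.inclusion_injective hle)

theorem finrank_kerP_ge {I J : Type} [Fintype I] [Fintype J] (d : I → ℤ) (c : J → ℤ)
    (s : J → I → A3) (hs : ∀ j i, s j i ∈ HP (c j - d i)) (m : ℤ) :
    ∑ i, Module.finrank ℂ (HP (m + d i)) ≤
      Module.finrank ℂ (kerP d s m) + ∑ j, Module.finrank ℂ (HP (m + c j)) := by
  have : Module.Finite ℂ (F0 (fun i => - d i) m) := finite_F0 _ _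
  have : Module.Finite ℂ (F0 (fun j => - c j) m) := finite_F0 _ _
  have h1 := LinearMap.finrank_range_add_finrank_ker
    ((rrA11_phi s).domRestrict (F0 (fun i => - d i) m))
  rw [rrA11_ker, rrA11_fin] at h1
  have h2 := Submodule.finrank_mono (rrA11_range d c s hs m)
  rw [rrA11_fin] at h2
  omega

theorem finrank_kerP_eq {I J : Type} [Fintype I] [Fintype J] (d : I → ℤ) (c : J → ℤ)
    (s : J → I → A3) (hs : ∀ j i, s j i ∈ HP (c j - d i))
    (hrank : ∀ a : Fin 3 → ℂ, a ≠ 0 →
      LinearIndependent ℂ fun (j : J) (i : I) => MvPolynomial.eval a (s j i)) :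
    ∃ m₀ : ℤ, ∀ m, m₀ ≤ m → ∑ i, Module.finrank ℂ (HP (m + d i)) =
      Module.finrank ℂ (kerP d s m) + ∑ j, Module.finrank ℂ (HP (m + c j)) := by
  obtain ⟨m₀, hm₀⟩ := surj_of_rank d c s hs hrank
  refine ⟨m₀, fun m hm => ?_⟩
  have : Module.Finite ℂ (F0 (fun i => - d i) m) := finite_F0 _ _
  have : Module.Finite ℂ (F0 (fun j => - c j) m) := finite_F0 _ _
  have h1 := LinearMap.finrank_range_add_finrank_ker
    ((rrA11_phi s).domRestrict (F0 (fun i => - d i) m))
  rw [rrA11_ker, rrA11_fin] at h1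
  have h2 : LinearMap.range ((rrA11_phi s).domRestrict (F0 (fun i => - d i) m)) =
      F0 (fun j => - c j) m := by
    refine le_antisymm (rrA11_range d c s hs m) ?_
    intro y hy
    obtain ⟨p, hp1, hp2⟩ := hm₀ m hm y ((rrA11_mem c m y).1 hy)
    refine ⟨⟨p, (rrA11_mem d m p).2 hp1⟩, ?_⟩
    funext j
    exact hp2 j
  rw [h2, rrA11_fin] at h1
  omega

end Pool.Agent.LibRR
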