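import Pool.Agent.LibRR.A08

/-!
[RR A12] The rank of the resolution.

The `k`-linear map `(I → k) → L`, `κ ↦ ∑ κ i • e i` is surjective (`span`). The `k`-linear map
`(J → k) → (I → k)`, `β ↦ (∑ j, β j * ev (s j i))_i` is injective with image the kernel:
image: if `∑ κ i • e i = 0` then, as in [RR A10], `ev B * κ i = ev (A' i)` with
`A' ∈ relF ev d e n`, `ev B ≠ 0`, so `A' = ∑ b j • s j` and `κ = ev B⁻¹ * ∑ ev (b j) ev (s j i)`.
injective: if `∑ β j * ev (s j i) = 0` for all `i`, write `β j = ev (b j) / ev B` with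
`B ∈ HP M`, `b j ∈ HP M`, multiply `b j` by `X₀ ^ (n - M - c j)` (`ev X₀ = 1`) for a large `n`: get
`b' j ∈ HP (n - c j)` with `∑ ev (b' j * s j i) = 0`, and `∑ b' j * s j i ∈ HP (n - d i)`, so it is
zero (`inj`), `b' = 0` (`IsGBasis.inj`), `β = 0`. Rank-nullity over `k`.
-/

set_option autoImplicit false

namespace Pool.Agent.LibRR

variable {k L : Type} [Field k] [Field L] [Algebra ℂ k] [Algebra ℂ L] [Algebra k L]
  [IsScalarTower ℂ k L] [FiniteDimensional k L]

theorem rrA12_prod {I : Type} (S : Finset I) (m : I → ℤ) (b : I → A3) (hb : ∀ i ∈ S, b i ∈ HP (m i)) :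
    ∏ i ∈ S, b i ∈ HP (∑ i ∈ S, m i) := by
  classical
  induction S using Finset.induction_on with
  | empty =>
    rw [Finset.prod_empty, Finset.sum_empty]
    have := HP_C 1
    rwa [MvPolynomial.C_1] at this
  | insert i S hi ih =>
    rw [Finset.prod_insert hi, Finset.sum_insert hi]
    exact HP_mul (hb i (Finset.mem_insert_self _ _))
      (ih (fun j hj => hb j (Finset.mem_insert_of_mem hj)))

/-- a common denominator of finitely many elements of `k`, with numerators of prescribed degrees -/
theorem rrA12_common {ev : A3 →ₐ[ℂ] k} (hfrac : ∀ z : k, ∃ (m : ℤ) (p q : A3), p ∈ HP m ∧ q ∈ HP m ∧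
      ev q ≠ 0 ∧ z = ev p / ev q) (hX0 : ev (MvPolynomial.X 0) = 1) {I : Type} [Fintype I]
    (d : I → ℤ) (κ : I → k) :
    ∃ (n : ℤ) (B : A3) (A : I → A3), ev B ≠ 0 ∧ (∀ i, A i ∈ HP (n - d i)) ∧
      ∀ i, ev (A i) = κ i * ev B := by
  classical
  choose m a b ha hb hb0 hκ using fun i => hfrac (κ i)
  set M : ℤ := ∑ i, m i with hM
  set n : ℤ := M + ∑ i, |d i| with hn
  refine ⟨n, ∏ i, b i, fun i => (MvPolynomial.X 0 : A3) ^ (n - M - d i).toNat *
    (a i * ∏ i' ∈ Finset.univ.erase i, b i'), ?_, ?_, ?_⟩
  · rw [map_prod]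
    exact Finset.prod_ne_zero_iff.mpr fun i _ => hb0 i
  · intro i
    have h0 : 0 ≤ n - M - d i := by
      have h1 : |d i| ≤ ∑ i, |d i| :=
        Finset.single_le_sum (f := fun i => |d i|) (fun i _ => abs_nonneg (d i))
          (Finset.mem_univ i)
      have h2 := le_abs_self (d i)
      rw [hn]
      linarith
    have h1 := HP_pow (HP_X 0) (n - M - d i).toNat
    rw [mul_one, Int.toNat_of_nonneg h0] at h1
    have h2 := HP_mul (ha i) (rrA12_prod (Finset.univ.erase i) m b (fun i' _ => hb i'))
    rw [Finset.add_sum_erase _ m (Finset.mem_univ i), ← hM] at h2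
    have h3 := HP_mul h1 h2
    have h4 : n - M - d i + M = n - d i := by ring
    rwa [h4] at h3
  · intro i
    rw [map_mul, map_pow, hX0, one_pow, one_mul, map_mul, map_prod, map_prod,
      ← Finset.mul_prod_erase Finset.univ (fun i => ev (b i)) (Finset.mem_univ i)]
    have h1 : κ i * ev (b i) = ev (a i) := by
      have := hκ i
      rw [this, div_mul_cancel₀ _ (hb0 i)]
    rw [← mul_assoc, h1]

theorem IsGMod.card_eq {ev : A3 →ₐ[ℂ] k} {V : ℤ → Submodule ℂ L} {I J : Type} [Fintype I]
    [Fintype J] {d : I → ℤ} {e : I → L} (h : IsGMod ev V d e) (hfull : IsGFull ev e)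
    (hX0 : ev (MvPolynomial.X 0) = 1) {c : J → ℤ} {s : J → I → A3}
    (hs : IsGBasis (relF ev d e) c s) :
    Fintype.card I = Fintype.card J + Module.finrank k L := by
  set π : (I → k) →ₗ[k] L := Fintype.linearCombination k e with hπ
  set σ : (J → k) →ₗ[k] (I → k) := Fintype.linearCombination k (fun j i => ev (s j i)) with hσ
  have hπa : ∀ κ, π κ = ∑ i, κ i • e i := fun κ => by
    rw [hπ, Fintype.linearCombination_apply]
  have hσa : ∀ β i, σ β i = ∑ j, β j * ev (s j i) := fun β i => by
    rw [hσ, Fintype.linearCombination_apply, Finset.sum_apply]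
    rfl
  have hsurj : LinearMap.range π = ⊤ := by
    rw [eq_top_iff, ← hfull.span, Submodule.span_le]
    rintro _ ⟨i, rfl⟩
    classical
    exact ⟨Pi.single i 1, by rw [hπa]; simp [Pi.single_apply]⟩
  have hker : LinearMap.ker π = LinearMap.range σ := by
    apply le_antisymm
    · intro κ hκ
      rw [LinearMap.mem_ker, hπa] at hκ
      obtain ⟨n, B, A, hB, hA, hAB⟩ := rrA12_common hfull.frac hX0 d κ
      have hArel : A ∈ relF ev d e n := by
        refine ⟨hA, ?_⟩
        have h1 : ∀ i, algebraMap k L (ev (A i)) * e i =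
            algebraMap k L (ev B) * (κ i • e i) := by
          intro i
          rw [hAB i, map_mul, Algebra.smul_def]
          ring
        rw [Finset.sum_congr rfl fun i _ => h1 i, ← Finset.mul_sum, hκ, mul_zero]
      obtain ⟨b, _, hb⟩ := hs.gen n A hArel
      refine ⟨fun j => (ev B)⁻¹ * ev (b j), ?_⟩
      funext i
      rw [hσa]
      have h2 : κ i = (ev B)⁻¹ * ev (A i) := by
        rw [hAB i]
        field_simp
      rw [h2, hb, Finset.sum_apply, map_sum, Finset.mul_sum]
      apply Finset.sum_congr rfl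
      intro j _
      rw [Pi.smul_apply, smul_eq_mul, map_mul, mul_assoc]
    · rintro _ ⟨β, rfl⟩
      rw [LinearMap.mem_ker, hπa]
      have h1 : ∀ i, σ β i • e i = ∑ j, β j • (algebraMap k L (ev (s j i)) * e i) := by
        intro i
        rw [hσa, Finset.sum_smul]
        apply Finset.sum_congr rfl
        intro j _
        rw [Algebra.smul_def, Algebra.smul_def, map_mul, mul_assoc]
      rw [Finset.sum_congr rfl fun i _ => h1 i, Finset.sum_comm]
      apply Finset.sum_eq_zero
      intro j _
      rw [← Finset.smul_sum, (hs.mem j).2, smul_zero]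
  have hinj : Function.Injective σ := by
    rw [injective_iff_map_eq_zero]
    intro β hβ
    obtain ⟨n, B, b, hB, hb, hbB⟩ := rrA12_common hfull.frac hX0 c β
    have h1 : ∑ j, b j • s j = 0 := by
      funext i
      rw [Finset.sum_apply]
      apply h.inj (n - d i)
      · apply Submodule.sum_mem
        intro j _
        have h2 := HP_mul (hb j) ((hs.mem j).1 i)
        have h3 : n - c j + (c j - d i) = n - d i := by ring
        rw [h3] at h2
        rwa [Pi.smul_apply, smul_eq_mul]
      · rw [map_sum]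
        have h2 : ∀ j, ev ((b j • s j) i) = ev B * (β j * ev (s j i)) := by
          intro j
          rw [Pi.smul_apply, smul_eq_mul, map_mul, hbB j]
          ring
        rw [Finset.sum_congr rfl fun j _ => h2 j, ← Finset.mul_sum, ← hσa, hβ, Pi.zero_apply,
          mul_zero]
    have h2 := hs.inj b h1
    funext j
    have h3 := hbB j
    rw [h2, Pi.zero_apply, map_zero] at h3
    exact (mul_eq_zero.mp h3.symm).resolve_right hB
  have h1 := LinearMap.finrank_range_add_finrank_ker π
  rw [hsurj, finrank_top, hker, LinearMap.finrank_range_of_inj hinj, Module.finrank_fintype_fun_eq_card,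
    Module.finrank_fintype_fun_eq_card] at h1
  omega

end Pool.Agent.LibRR
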