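import Pool.Agent.LibRR.A05
import Pool.Agent.LibRR.A06
import Pool.Agent.LibRR.A09
import Pool.Agent.LibRR.A10
import Pool.Agent.LibRR.A11
import Pool.Agent.LibRR.A12

/-!
[RR A13] The abstract Riemann-Roch theorem for graded modules of depth two over the plane.

Take the basis of `relF` ([RR A05], `IsGMod.isSyz`). Put
`Q n = ∑ i (n - d i + 1)(n - d i + 2) - ∑ j (n - c j + 1)(n - c j + 2)`. It is
`deg n² + b n + 2 χ` with `deg = card I - card J = finrank k L` ([RR A12]),
`b = 3 deg - 2 (∑ d i - ∑ c j)` and `2 χ = ∑ (d i - 1)(d i - 2) - ∑ (c j - 1)(c j - 2)`, which is even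
(product of consecutive integers). By `two_finrank_HP` (`p(m) = 2 h(m) + 2 h(-3 - m)` with
`m = n - d i`, `-3 - m = (-3 - n) + d i`):
`Q n = 2 finrank (V n) + 2 (∑ i h((-3-n) + d i) - ∑ j h((-3-n) + c j))` by [RR A09], and the second
bracket is `≤ finrank (kerP d s (-3-n)) = finrank (dualW ev V (-3-n))` ([RR A11], [RR A10]): `ineq`.
`large`: for `n ≥ d i - 2, c j - 2` (all `i`, `j`), `2 h(n - d i) = (n - d i + 1)(n - d i + 2)`
(`two_finrank_HP_of_nonneg`). `small`: for `-3 - n ≥ m₀` there is equality in [RR A11], and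
`V n = 0` (`finrank_HP_neg` for all `n - d i < 0` and [RR A09]). `dual_zero` : for `n` large
`HP ((-3-n) + d i) = 0` for all `i`, so `kerP = 0` and `dualW = 0`.
-/

set_option autoImplicit false

namespace Pool.Agent.LibRR

variable {k L : Type} [Field k] [Field L] [Algebra ℂ k] [Algebra ℂ L] [Algebra k L]
  [IsScalarTower ℂ k L] [FiniteDimensional k L]

theorem rrA13_poly (n d : ℤ) :
    (n - d + 1) * (n - d + 2) = n ^ 2 + (3 - 2 * d) * n + (d - 1) * (d - 2) := by
  ring

theorem rrA13_half (d : ℤ) : 2 * ((d - 1) * (d - 2) / 2) = (d - 1) * (d - 2) := by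
  have h : Even ((d - 1) * (d - 2)) := by
    have h1 := Int.even_mul_succ_self (d - 2)
    have h2 : (d - 2) * (d - 2 + 1) = (d - 1) * (d - 2) := by ring
    rwa [h2] at h1
  exact Int.mul_ediv_cancel' h.two_dvd

theorem rrA13_sum {I : Type} [Fintype I] (d : I → ℤ) (n : ℤ) :
    ∑ i, (n - d i + 1) * (n - d i + 2) = (Fintype.card I : ℤ) * n ^ 2 +
      (3 * (Fintype.card I : ℤ) - 2 * ∑ i, d i) * n + 2 * ∑ i, (d i - 1) * (d i - 2) / 2 := by
  obtain ⟨K, hK⟩ : ∃ K : ℤ, K = n ^ 2 + 3 * n := ⟨_, rfl⟩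
  have h1 : ∀ i ∈ (Finset.univ : Finset I), (n - d i + 1) * (n - d i + 2) =
      K + ((-2 * n) * d i + 2 * ((d i - 1) * (d i - 2) / 2)) := by
    intro i _
    rw [rrA13_half, rrA13_poly, hK]
    ring
  rw [Finset.sum_congr rfl h1, Finset.sum_add_distrib, Finset.sum_add_distrib, Finset.sum_const,
    ← Finset.mul_sum, ← Finset.mul_sum, Finset.card_univ, nsmul_eq_mul, hK]
  ring

theorem rrA13_abs_le {I : Type} [Fintype I] (d : I → ℤ) (i : I) : |d i| ≤ ∑ i, |d i| :=
  Finset.single_le_sum (f := fun i => |d i|) (fun _ _ => abs_nonneg _) (Finset.mem_univ i)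

theorem IsGMod.riemannRoch {ev : A3 →ₐ[ℂ] k} {V : ℤ → Submodule ℂ L} {I : Type} [Fintype I]
    {d : I → ℤ} {e : I → L} (h : IsGMod ev V d e) (hfull : IsGFull ev e)
    (hX0 : ev (MvPolynomial.X 0) = 1) :
    ∃ b χ n₀ : ℤ,
      (∀ n, (Module.finrank k L : ℤ) * n ^ 2 + b * n + 2 * χ ≤
        2 * Module.finrank ℂ (V n) + 2 * Module.finrank ℂ (dualW ev V (-3 - n))) ∧
      (∀ n, n₀ ≤ n → 2 * (Module.finrank ℂ (V n) : ℤ) =
        (Module.finrank k L : ℤ) * n ^ 2 + b * n + 2 * χ) ∧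
      (∀ n, n ≤ - n₀ → V n = ⊥) ∧
      (∀ n, n₀ ≤ n → dualW ev V (-3 - n) = ⊥) ∧
      (∀ n, n ≤ - n₀ → 2 * (Module.finrank ℂ (dualW ev V (-3 - n)) : ℤ) =
        (Module.finrank k L : ℤ) * n ^ 2 + b * n + 2 * χ) ∧
      (∀ m, Module.Finite ℂ (dualW ev V m)) := by
  obtain ⟨N, c, s, hs⟩ := exists_gbasis d (relF ev d e) h.isSyz
  have hsm : ∀ j i, s j i ∈ HP (c j - d i) := fun j i => (hs.mem j).1 i
  obtain ⟨m₀, hm₀⟩ := finrank_kerP_eq d c s hsm (IsGBasis.rank h.isSyz hs)
  have hcard := h.card_eq hfull hX0 hs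
  have hdual : ∀ m, Nonempty (dualW ev V m ≃ₗ[ℂ] kerP d s m) := fun m =>
    h.dual_equiv hfull hX0 hs m
  have hdr : ∀ m, Module.finrank ℂ (dualW ev V m) = Module.finrank ℂ (kerP d s m) := by
    intro m
    obtain ⟨E⟩ := hdual m
    exact E.finrank_eq
  have hdf : ∀ m, Module.Finite ℂ (dualW ev V m) := by
    intro m
    obtain ⟨E⟩ := hdual m
    have := finite_kerP d s m
    exact Module.Finite.equiv E.symm
  have hV : ∀ n, (Module.finrank ℂ (V n) : ℤ) + ∑ j, (Module.finrank ℂ (HP (n - c j)) : ℤ) =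
      ∑ i, (Module.finrank ℂ (HP (n - d i)) : ℤ) := by
    intro n
    have := h.finrank hs n
    exact_mod_cast this
  obtain ⟨deg, hdeg⟩ : ∃ deg : ℤ, deg = (Module.finrank k L : ℤ) := ⟨_, rfl⟩
  have hcardZ : (Fintype.card I : ℤ) = (Fintype.card (Fin N) : ℤ) + deg := by
    rw [hdeg]
    exact_mod_cast hcard
  obtain ⟨b, hb⟩ : ∃ b : ℤ, b = 3 * deg - 2 * (∑ i, d i - ∑ j, c j) := ⟨_, rfl⟩
  obtain ⟨χ, hχ⟩ : ∃ χ : ℤ, χ = ∑ i, (d i - 1) * (d i - 2) / 2 -
    ∑ j, (c j - 1) * (c j - 2) / 2 := ⟨_, rfl⟩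
  have hQ : ∀ n : ℤ, deg * n ^ 2 + b * n + 2 * χ =
      ∑ i, (n - d i + 1) * (n - d i + 2) - ∑ j, (n - c j + 1) * (n - c j + 2) := by
    intro n
    rw [rrA13_sum, rrA13_sum, hcardZ, hb, hχ]
    ring
  obtain ⟨M, hM⟩ : ∃ M : ℤ, M = ∑ i, |d i| + ∑ j, |c j| + |m₀| + 10 := ⟨_, rfl⟩
  have hd0 : 0 ≤ ∑ i, |d i| := Finset.sum_nonneg fun i _ => abs_nonneg _
  have hc0 : 0 ≤ ∑ j, |c j| := Finset.sum_nonneg fun i _ => abs_nonneg _
  have hm0 : 0 ≤ |m₀| := abs_nonneg _
  have hdM : ∀ i, |d i| + 10 ≤ M := by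
    intro i
    have := rrA13_abs_le d i
    linarith
  have hcM : ∀ j, |c j| + 10 ≤ M := by
    intro j
    have := rrA13_abs_le c j
    linarith
  have hmM : |m₀| + 10 ≤ M := by linarith
  rw [← hdeg]
  refine ⟨b, χ, M, ?_, ?_, ?_, ?_, ?_, hdf⟩
  · intro n
    have h1 := finrank_kerP_ge d c s hsm (-3 - n)
    have h1' : ∑ i, (Module.finrank ℂ (HP (-3 - n + d i)) : ℤ) ≤
        (Module.finrank ℂ (kerP d s (-3 - n)) : ℤ) +
          ∑ j, (Module.finrank ℂ (HP (-3 - n + c j)) : ℤ) := by exact_mod_cast h1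
    have h2 := hV n
    have h3 : ∀ i ∈ (Finset.univ : Finset I), (n - d i + 1) * (n - d i + 2) =
        2 * (Module.finrank ℂ (HP (n - d i)) : ℤ) +
          2 * (Module.finrank ℂ (HP (-3 - n + d i)) : ℤ) := by
      intro i _
      rw [← two_finrank_HP, show -3 - (n - d i) = -3 - n + d i by ring]
    have h4 : ∀ j ∈ (Finset.univ : Finset (Fin N)), (n - c j + 1) * (n - c j + 2) =
        2 * (Module.finrank ℂ (HP (n - c j)) : ℤ) +
          2 * (Module.finrank ℂ (HP (-3 - n + c j)) : ℤ) := by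
      intro i _
      rw [← two_finrank_HP, show -3 - (n - c i) = -3 - n + c i by ring]
    rw [hQ, Finset.sum_congr rfl h3, Finset.sum_congr rfl h4, Finset.sum_add_distrib,
      Finset.sum_add_distrib, ← Finset.mul_sum, ← Finset.mul_sum, ← Finset.mul_sum,
      ← Finset.mul_sum, hdr]
    linarith
  · intro n hn
    have h2 := hV n
    have h3 : ∀ i ∈ (Finset.univ : Finset I), (n - d i + 1) * (n - d i + 2) =
        2 * (Module.finrank ℂ (HP (n - d i)) : ℤ) := by
      intro i _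
      have := hdM i
      have := le_abs_self (d i)
      exact (two_finrank_HP_of_nonneg (by linarith)).symm
    have h4 : ∀ j ∈ (Finset.univ : Finset (Fin N)), (n - c j + 1) * (n - c j + 2) =
        2 * (Module.finrank ℂ (HP (n - c j)) : ℤ) := by
      intro j _
      have := hcM j
      have := le_abs_self (c j)
      exact (two_finrank_HP_of_nonneg (by linarith)).symm
    rw [hQ, Finset.sum_congr rfl h3, Finset.sum_congr rfl h4, ← Finset.mul_sum, ← Finset.mul_sum]
    linarith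
  · intro n hn
    have h2 := h.finrank hs n
    have h3 : ∑ i, Module.finrank ℂ (HP (n - d i)) = 0 := by
      refine Finset.sum_eq_zero fun i _ => finrank_HP_neg ?_
      have := hdM i
      have := neg_abs_le (d i)
      linarith
    rw [h3] at h2
    have h4 : Module.finrank ℂ (V n) = 0 := by omega
    have := h.finite n
    exact Submodule.finrank_eq_zero.1 h4
  · intro n hn
    obtain ⟨E⟩ := hdual (-3 - n)
    rw [Submodule.eq_bot_iff]
    intro x hx
    have h1 : ∀ y : kerP d s (-3 - n), y = 0 := by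
      rintro ⟨y, hy, hy'⟩
      refine Subtype.ext (funext fun i => ?_)
      have h5 := hy i
      rw [HP_neg (by
        have := hdM i
        have := le_abs_self (d i)
        linarith)] at h5
      exact (Submodule.mem_bot ℂ).1 h5
    have h2 : (⟨x, hx⟩ : dualW ev V (-3 - n)) = 0 := by
      apply E.injective
      rw [h1 (E ⟨x, hx⟩), map_zero]
    exact congrArg Subtype.val h2
  · intro n hn
    have h1 := hm₀ (-3 - n) (by
      have := le_abs_self m₀
      linarith)
    have h1' : ∑ i, (Module.finrank ℂ (HP (-3 - n + d i)) : ℤ) =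
        (Module.finrank ℂ (kerP d s (-3 - n)) : ℤ) +
          ∑ j, (Module.finrank ℂ (HP (-3 - n + c j)) : ℤ) := by exact_mod_cast h1
    have h3 : ∀ i ∈ (Finset.univ : Finset I), (n - d i + 1) * (n - d i + 2) =
        2 * (Module.finrank ℂ (HP (-3 - n + d i)) : ℤ) := by
      intro i _
      have := hdM i
      have := neg_abs_le (d i)
      rw [two_finrank_HP_of_nonneg (m := -3 - n + d i) (by linarith)]
      ring
    have h4 : ∀ j ∈ (Finset.univ : Finset (Fin N)), (n - c j + 1) * (n - c j + 2) =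
        2 * (Module.finrank ℂ (HP (-3 - n + c j)) : ℤ) := by
      intro j _
      have := hcM j
      have := neg_abs_le (c j)
      rw [two_finrank_HP_of_nonneg (m := -3 - n + c j) (by linarith)]
      ring
    rw [hQ, Finset.sum_congr rfl h3, Finset.sum_congr rfl h4, ← Finset.mul_sum, ← Finset.mul_sum,
      hdr, h1']
    ring

end Pool.Agent.LibRR
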