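import Mathlib

/-!
Riemann-Roch for surfaces by graded modules over `ℂ[X₀, X₁, X₂]` (block RR of THEOREM K+,
MP_badc2d). Pure algebra: homogeneous polynomials, graded free modules, resolutions of length one.
-/

set_option autoImplicit false

namespace Pool.Agent.LibRR

/-- The polynomial ring in three variables. -/
abbrev A3 : Type := MvPolynomial (Fin 3) ℂ

/-- The space of homogeneous polynomials of degree `m` (`0` for `m < 0`). -/
noncomputable def HP (m : ℤ) : Submodule ℂ A3 :=
  if 0 ≤ m then MvPolynomial.homogeneousSubmodule (Fin 3) ℂ m.toNat else ⊥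

/-- The homogeneous component of degree `m`. -/
noncomputable def hc (m : ℤ) : A3 →ₗ[ℂ] A3 :=
  if 0 ≤ m then MvPolynomial.homogeneousComponent m.toNat else 0

/-- The piece of degree `n` of the graded free module with generators of degrees `d i`. -/
noncomputable def F0 {I : Type} (d : I → ℤ) (n : ℤ) : Submodule ℂ (I → A3) where
  carrier := {a | ∀ i, a i ∈ HP (n - d i)}
  zero_mem' := fun i => Submodule.zero_mem _
  add_mem' := fun ha hb i => Submodule.add_mem _ (ha i) (hb i)
  smul_mem' := fun c _ ha i => Submodule.smul_mem _ c (ha i)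

theorem mem_F0 {I : Type} {d : I → ℤ} {n : ℤ} {a : I → A3} :
    a ∈ F0 d n ↔ ∀ i, a i ∈ HP (n - d i) := Iff.rfl

/-- `F` is a graded submodule of the graded free module with generators of degrees `d i`, with a
quotient of depth at least two (`β`: Koszul exactness for `X₀, X₁`, `γ`: `X₀` is regular). -/
structure IsSyz {I : Type} (d : I → ℤ) (F : ℤ → Submodule ℂ (I → A3)) : Prop where
  le : ∀ n, F n ≤ F0 d n
  smul : ∀ (m n : ℤ) (p : A3) (a : I → A3), p ∈ HP m → a ∈ F n → p • a ∈ F (m + n)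
  beta : ∀ (n : ℤ) (u v : A3), u ∈ HP 1 → v ∈ HP 1 → LinearIndependent ℂ ![u, v] →
    ∀ a b : I → A3, a ∈ F0 d n → b ∈ F0 d n → u • a + v • b ∈ F (n + 1) →
      ∃ g ∈ F0 d (n - 1), a + v • g ∈ F n ∧ b - u • g ∈ F n
  gamma : ∀ (n : ℤ) (a : I → A3), a ∈ F0 d n →
    (MvPolynomial.X 0 : A3) • a ∈ F (n + 1) → a ∈ F n

/-- `s` is a graded basis of `F`. -/
structure IsGBasis {I J : Type} [Fintype J] (F : ℤ → Submodule ℂ (I → A3)) (c : J → ℤ)
    (s : J → I → A3) : Prop where
  mem : ∀ j, s j ∈ F (c j)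
  gen : ∀ n, ∀ a ∈ F n, ∃ b : J → A3, (∀ j, b j ∈ HP (n - c j)) ∧ a = ∑ j, b j • s j
  inj : ∀ b : J → A3, ∑ j, b j • s j = 0 → b = 0

end Pool.Agent.LibRR
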