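import Pool.Agent.LibRR.Geo

/-!
[RR G04] Homogenisation and dehomogenisation of polynomials (`evk x y` is evaluation at `(1, x, y)`,
`ev x y` of `LibKB1a` evaluation of polynomials in two variables at `(x, y)`).

`deh : A3 → Pol` is `aeval ![1, X 0, X 1]`. `ev_deh`: algebra homomorphisms agreeing on the
variables (`MvPolynomial.algHom_ext`, `Fin.cases`). `deh_degree`: a monomial of degree `m` goes to
a monomial of degree `≤ m`; sum over the support (`MvPolynomial.totalDegree_finset_sum`,
`(HP m)` unfolds to `homogeneousSubmodule` for `m ≥ 0`, and to `⊥` for `m < 0`). `deh_inj`: the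
coefficient of `X 0 ^ s 1 * X 1 ^ s 2` in `deh p` is the coefficient of the monomial `s` in `p`,
`s 0 = m - s 1 - s 2` (all monomials of `p` have degree `m`).
`exists_hom`: for `P = ∑ c_s X^s` (`s : Fin 2 →₀ ℕ`), `totalDegree P ≤ m`, take
`∑ c_s X₀^(m - |s|) X₁^(s 0) X₂^(s 1)`.
-/

set_option autoImplicit false

open Pool.Agent.LibGMM Pool.Agent.LibCov80 Pool.Agent.LibK
open Pool.Agent.LibKB1a (planeAll IsInf Aff Ess Pol ev)

namespace Pool.Agent.LibRR

/-- Dehomogenisation. -/
noncomputable def deh : A3 →ₐ[ℂ] Pol :=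
  MvPolynomial.aeval ![1, MvPolynomial.X 0, MvPolynomial.X 1]

theorem g04_deh_monomial (s : Fin 3 →₀ ℕ) (c : ℂ) :
    deh (MvPolynomial.monomial s c) = MvPolynomial.monomial (Finsupp.tail s) c := by
  rw [deh, MvPolynomial.aeval_monomial, MvPolynomial.monomial_eq, MvPolynomial.algebraMap_eq]
  congr 1
  rw [Finsupp.prod_fintype _ _ (fun i => pow_zero _), Finsupp.prod_fintype _ _ (fun i => pow_zero _),
    Fin.prod_univ_three, Fin.prod_univ_two]
  simp [Finsupp.tail_apply]

theorem g04_deg3 (s : Fin 3 →₀ ℕ) : s.degree = s 0 + (Finsupp.tail s).degree := by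
  rw [Finsupp.degree_eq_sum, Finsupp.degree_eq_sum, Fin.sum_univ_succ]
  rfl

theorem g04_deh (p : A3) : deh p = ∑ s ∈ p.support, MvPolynomial.monomial (Finsupp.tail s) (p.coeff s) := by
  conv_lhs => rw [p.as_sum]
  rw [map_sum]
  exact Finset.sum_congr rfl fun s _ => g04_deh_monomial s _

theorem g04_coeff {M : ℕ} {p : A3} (hp : p.IsHomogeneous M) (t : Fin 2 →₀ ℕ) :
    (deh p).coeff t = if t.degree ≤ M then p.coeff (Finsupp.cons (M - t.degree) t) else 0 := by
  classical
  rw [g04_deh, MvPolynomial.coeff_sum]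
  simp only [MvPolynomial.coeff_monomial]
  have hs : ∀ s ∈ p.support, s.degree = M := by
    intro s hs
    by_contra h
    exact (MvPolynomial.mem_support_iff.1 hs) (hp.coeff_eq_zero h)
  have h1 : ∀ s ∈ p.support, Finsupp.tail s = t → t.degree ≤ M ∧ s = Finsupp.cons (M - t.degree) t := by
    intro s h2 h3
    have h4 := hs s h2
    rw [g04_deg3, h3] at h4
    refine ⟨by omega, ?_⟩
    have h5 : M - t.degree = s 0 := by omega
    rw [h5, ← h3, Finsupp.cons_tail]
  by_cases ht : t.degree ≤ M
  · rw [if_pos ht]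
    by_cases hmem : Finsupp.cons (M - t.degree) t ∈ p.support
    · rw [Finset.sum_eq_single (Finsupp.cons (M - t.degree) t)]
      · rw [Finsupp.tail_cons, if_pos rfl]
      · intro s h2 h3
        rw [if_neg fun h4 => h3 (h1 s h2 h4).2]
      · intro h
        exact absurd hmem h
    · rw [MvPolynomial.notMem_support_iff.1 hmem]
      refine Finset.sum_eq_zero fun s h2 => ?_
      rw [if_neg]
      intro h3
      rw [(h1 s h2 h3).2] at h2
      exact hmem h2
  · rw [if_neg ht]
    refine Finset.sum_eq_zero fun s h2 => ?_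
    rw [if_neg fun h3 => ht (h1 s h2 h3).1]

theorem deh_inj {m : ℤ} {p : A3} (hp : p ∈ HP m) (h0 : deh p = 0) : p = 0 := by
  unfold HP at hp
  split_ifs at hp with hm
  · rw [MvPolynomial.mem_homogeneousSubmodule] at hp
    ext s
    rw [MvPolynomial.coeff_zero]
    by_cases hs : s.degree = m.toNat
    · have h1 := g04_coeff hp (Finsupp.tail s)
      rw [h0, MvPolynomial.coeff_zero] at h1
      have h2 := g04_deg3 s
      rw [if_pos (by omega)] at h1
      have h3 : m.toNat - (Finsupp.tail s).degree = s 0 := by omega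
      rw [h3, Finsupp.cons_tail] at h1
      exact h1.symm
    · exact hp.coeff_eq_zero hs
  · exact (Submodule.mem_bot ℂ).1 hp

theorem deh_degree {m : ℤ} {p : A3} (hp : p ∈ HP m) (h0 : deh p ≠ 0) :
    ((deh p).totalDegree : ℤ) ≤ m := by
  unfold HP at hp
  split_ifs at hp with hm
  · rw [MvPolynomial.mem_homogeneousSubmodule] at hp
    have h1 : (deh p).totalDegree ≤ m.toNat := by
      unfold MvPolynomial.totalDegree
      refine Finset.sup_le fun t ht => ?_
      have h2 := MvPolynomial.mem_support_iff.1 ht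
      rw [g04_coeff hp] at h2
      have h3 : t.degree ≤ m.toNat := by
        by_contra h4
        rw [if_neg h4] at h2
        exact h2 rfl
      exact h3
    omega
  · rw [(Submodule.mem_bot ℂ).1 hp, map_zero] at h0
    exact absurd rfl h0

theorem exists_hom {m : ℤ} {P : Pol} (hP : P ≠ 0 → (P.totalDegree : ℤ) ≤ m) :
    ∃ p ∈ HP m, deh p = P := by
  by_cases h0 : P = 0
  · exact ⟨0, Submodule.zero_mem _, by rw [map_zero, h0]⟩
  · have h1 := hP h0
    have hm : 0 ≤ m := by omega
    refine ⟨∑ t ∈ P.support, MvPolynomial.monomial (Finsupp.cons (m.toNat - t.degree) t) (P.coeff t), ?_, ?_⟩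
    · unfold HP
      rw [if_pos hm]
      refine Submodule.sum_mem _ fun t ht => ?_
      rw [MvPolynomial.mem_homogeneousSubmodule]
      refine MvPolynomial.isHomogeneous_monomial _ ?_
      rw [g04_deg3, Finsupp.tail_cons, Finsupp.cons_zero]
      have h2 : t.degree ≤ P.totalDegree := MvPolynomial.le_totalDegree ht
      omega
    · rw [map_sum]
      conv_rhs => rw [P.as_sum]
      refine Finset.sum_congr rfl fun t _ => ?_
      rw [g04_deh_monomial, Finsupp.tail_cons]

theorem ev_deh {k : Type} [Field k] [Algebra ℂ k] (x y : k) (p : A3) :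
    ev x y (deh p) = evk x y p := by
  have h : (ev x y).comp deh = evk x y := by
    apply MvPolynomial.algHom_ext
    intro i
    rw [AlgHom.comp_apply, deh, MvPolynomial.aeval_X, evk, MvPolynomial.aeval_X]
    fin_cases i
    · simp
    · simp
    · simp
  rw [← h]
  rfl

end Pool.Agent.LibRR
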