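import Pool.Agent.LibRR.G04
import Pool.Agent.LibKB1a.E8

/-!
[RR G05] The sections of the multiples of the line at infinity on the plane are the homogeneous
polynomials. `hk x y q = - min 0 (min (q.ord x) (q.ord y))`.

`hInf_eq`: `ord_algebraMap`. `hk_ess`: `x, y ∈ Aff x y ≤ q.ring`. `hk_inf`: `IsInf` with `P = X 0, X 1` of total
degree `1`: `q.ord x = q.ord y = -1`. `evk_HP_iff`: `plane_sections` (E8) with `d = m`, `hk_ess`,
`hk_inf`, `exists_hom`, `deh_degree`, `ev_deh`. `evk_inj`: `ev x y` is injective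
(`LibKB1a.ev_injective`, A3.lean), `deh_inj`. `evk_frac`: `LibKB1a.exists_div` (A3.lean) gives `z = ev P / ev Q`
(or similar); homogenise both to degree `m = max` of the total degrees.
`mul_hk_nonneg`: immediate from the definition (`0 ≤ hk`).
-/

set_option autoImplicit false

open Pool.Agent.LibGMM Pool.Agent.LibCov80 Pool.Agent.LibK
open Pool.Agent.LibKB1a (planeAll IsInf Aff Ess Pol ev)

namespace Pool.Agent.LibRR

section

variable {k : Type} [Field k] [Algebra ℂ k]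

/-- The line at infinity. -/
noncomputable def hk (x y : k) (q : DVal k) : ℤ := - min 0 (min (q.ord x) (q.ord y))

theorem hk_nonneg (x y : k) (q : DVal k) : 0 ≤ hk x y q := by
  unfold hk
  omega

theorem hk_ess {x y : k} {q : DVal k} (hq : Ess (Aff x y) q) : hk x y q = 0 := by
  have h1 : (0 : ℤ) ≤ q.ord x := hq.le (show x ∈ Aff x y from
    ⟨MvPolynomial.X 0, LibKB1a.ev_X0 x y⟩)
  have h2 : (0 : ℤ) ≤ q.ord y := hq.le (show y ∈ Aff x y from
    ⟨MvPolynomial.X 1, LibKB1a.ev_X1 x y⟩)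
  unfold hk
  omega

theorem hk_inf {x y : k} {q : DVal k} (hq : IsInf x y q) : hk x y q = 1 := by
  have h1 := hq (MvPolynomial.X 0) (MvPolynomial.X_ne_zero 0)
  have h2 := hq (MvPolynomial.X 1) (MvPolynomial.X_ne_zero 1)
  rw [LibKB1a.ev_X0, MvPolynomial.totalDegree_X] at h1
  rw [LibKB1a.ev_X1, MvPolynomial.totalDegree_X] at h2
  unfold hk
  rw [h1, h2]
  rfl

theorem evk_HP_iff {x y : k} (h : IsPlane x y) (m : ℤ) (f : k) :
    (∃ p ∈ HP m, evk x y p = f) ↔
      (f ≠ 0 → ∀ q ∈ planeAll x y, 0 ≤ q.ord f + m * hk x y q) := by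
  have key := LibKB1a.plane_sections h m f
  constructor
  · rintro ⟨p, hp, hf⟩ hf0 q hq
    have h1 : ∃ P : Pol, f = ev x y P ∧ (P ≠ 0 → (P.totalDegree : ℤ) ≤ m) :=
      ⟨deh p, by rw [ev_deh, hf], fun h0 => deh_degree hp h0⟩
    obtain ⟨h2, h3⟩ := key.2 h1 hf0
    rcases hq with hq | hq
    · rw [hk_ess hq, mul_zero, add_zero]
      exact h2 q hq
    · rw [hk_inf hq, mul_one]
      exact h3 q hq
  · intro hf
    have h1 : f ≠ 0 → (∀ v, Ess (Aff x y) v → 0 ≤ v.ord f) ∧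
        ∀ v, IsInf x y v → 0 ≤ v.ord f + m := by
      intro hf0
      refine ⟨fun v hv => ?_, fun v hv => ?_⟩
      · have h2 := hf hf0 v (Or.inl hv)
        rwa [hk_ess hv, mul_zero, add_zero] at h2
      · have h2 := hf hf0 v (Or.inr hv)
        rwa [hk_inf hv, mul_one] at h2
    obtain ⟨P, hP, hP'⟩ := key.1 h1
    obtain ⟨p, hp, hpP⟩ := exists_hom hP'
    exact ⟨p, hp, by rw [← ev_deh, hpP, hP]⟩

theorem evk_inj {x y : k} (h : IsPlane x y) {m : ℤ} {p : A3} (hp : p ∈ HP m)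
    (h0 : evk x y p = 0) : p = 0 := by
  apply deh_inj hp
  apply LibKB1a.ev_injective h
  rw [ev_deh, h0, map_zero]

theorem evk_frac {x y : k} (h : IsPlane x y) (z : k) :
    ∃ (m : ℤ) (p q : A3), p ∈ HP m ∧ q ∈ HP m ∧ evk x y q ≠ 0 ∧
      z = evk x y p / evk x y q := by
  obtain ⟨P, Q, hQ, hz⟩ := LibKB1a.exists_div h z
  obtain ⟨p, hp, hpP⟩ := exists_hom (m := ((max P.totalDegree Q.totalDegree : ℕ) : ℤ)) (P := P)
    fun _ => by exact_mod_cast le_max_left _ _
  obtain ⟨q, hq, hqQ⟩ := exists_hom (m := ((max P.totalDegree Q.totalDegree : ℕ) : ℤ)) (P := Q)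
    fun _ => by exact_mod_cast le_max_right _ _
  refine ⟨_, p, q, hp, hq, ?_, ?_⟩
  · rw [← ev_deh, hqQ]
    exact LibKB1a.ev_ne_zero h hQ
  · rw [← ev_deh, ← ev_deh, hpP, hqQ, hz]

end

section

variable {k L : Type} [Field k] [Field L] [Algebra ℂ k] [Algebra ℂ L] [Algebra k L]
  [IsScalarTower ℂ k L] [FiniteDimensional k L]

theorem hInf_eq (x y : k) (Q : DVal L) : hInf x y Q = rami k Q * hk x y (bel k Q) := by
  have h0 : (0 : ℤ) ≤ (rami k Q : ℤ) := Int.natCast_nonneg _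
  unfold hInf hk
  rw [ord_algebraMap, ord_algebraMap, mul_neg, mul_min_of_nonneg _ _ h0,
    mul_min_of_nonneg _ _ h0, mul_zero]

theorem hInf_nonneg (x y : k) (Q : DVal L) : 0 ≤ hInf x y Q := by
  unfold hInf
  omega

end

end Pool.Agent.LibRR
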