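import Pool.Agent.LibRR.G05
import Pool.Agent.LibRR.A01
import Pool.Agent.LibKB1a.B4
import Pool.Agent.LibKB1a.E1

/-!
[RR G06] Linear forms on the plane, and forms with prescribed zeros.

`linear_pair`: `u = u₀ X₀ + u₁ X₁ + u₂ X₂`, `evk u = u₀ + u₁ x + u₂ y`. At `IsInf`
(`hk = 1`): the order of `evk u` is `-1` (total degree `1`) unless `u₁ = u₂ = 0`; `u`, `v` cannot
both be multiples of `X₀`. At `Ess (Aff x y) q` (`hk = 0`): all orders are `≥ 0`. If both are `> 0`: if
some nontrivial combination of `u`, `v` is a multiple of `X₀` (nonzero constant), its order is `0`,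
contradiction. Otherwise `x - α`, `y - β` are combinations of `evk u`, `evk v` for some `α, β ∈ ℂ`,
so `q.ord (x - α) > 0`, `q.ord (y - β) > 0`. By `LibKB1a` (B2/B3: every `Ess (Aff x y)` valuation
is `IsPolyVal x y g` for a prime `g`; look for the converse of `IsPolyVal.ess` in B3.lean / B4.lean)
`g` divides `X 0 - α` and `X 1 - β`, both irreducible of degree `1`: impossible.

`exists_form`: for `IsInf`: `m = 1`, `p = X 0` (`evk = 1`). For `Ess`: `q` is `IsPolyVal x y g`,
`m = totalDegree g`, `p` with `deh p = g` (`exists_hom`): `q.ord = multiplicity g g = 1`; for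
another `Ess` valuation `q'` (`IsPolyVal x y g'`, `g'` not associated to `g`, otherwise `q' = q` by
`IsPolyVal.unique`) the order is `0`; at infinity `-m + m * 1 = 0`.

`exists_clear`: product over the finite set `S ∩ planeAll` of the `N`-th powers of the forms of `exists_form`
(`HP m * HP n ≤ HP (m + n)` is in [RR A01]; `evk` is multiplicative, `ord_prod`, `ord_pow`).
-/

set_option autoImplicit false

open Pool.Agent.LibGMM Pool.Agent.LibCov80 Pool.Agent.LibK
open Pool.Agent.LibKB1a (planeAll IsInf Aff Ess Pol ev)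

namespace Pool.Agent.LibRR

variable {k : Type} [Field k] [Algebra ℂ k]

theorem linear_pair {x y : k} (h : IsPlane x y) {u v : A3} (hu : u ∈ HP 1) (hv : v ∈ HP 1)
    (huv : LinearIndependent ℂ ![u, v]) {q : DVal k} (hq : q ∈ planeAll x y) :
    q.ord (evk x y u) + hk x y q = 0 ∨ q.ord (evk x y v) + hk x y q = 0 := by
  rw [LinearIndependent.pair_iff] at huv
  have hu0 : u ≠ 0 := by
    rintro rfl
    have := (huv 1 0 (by simp)).1
    exact one_ne_zero this
  have hv0 : v ≠ 0 := by
    rintro rfl
    have := (huv 0 1 (by simp)).2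
    exact one_ne_zero this
  have hdu : deh u ≠ 0 := fun h0 => hu0 (deh_inj hu h0)
  have hdv : deh v ≠ 0 := fun h0 => hv0 (deh_inj hv h0)
  have htu : (deh u).totalDegree ≤ 1 := by
    have := deh_degree hu hdu
    exact_mod_cast this
  have htv : (deh v).totalDegree ≤ 1 := by
    have := deh_degree hv hdv
    exact_mod_cast this
  rw [← ev_deh, ← ev_deh]
  by_contra hcon
  push Not at hcon
  obtain ⟨h1, h2⟩ := hcon
  -- both are multiples of the same polynomial
  have key : ∀ (w : Pol) (a b : ℂ), deh u = w * MvPolynomial.C a → deh v = w * MvPolynomial.C b →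
      False := by
    intro w a b ha hb
    have h3 : deh (b • u - a • v) = 0 := by
      rw [map_sub, map_smul, map_smul, ha, hb, MvPolynomial.smul_eq_C_mul,
        MvPolynomial.smul_eq_C_mul]
      ring
    have h4 : b • u - a • v ∈ HP 1 :=
      Submodule.sub_mem _ (Submodule.smul_mem _ _ hu) (Submodule.smul_mem _ _ hv)
    have h5 := deh_inj h4 h3
    have h6 := (huv b (-a) (by rw [neg_smul, ← sub_eq_add_neg]; exact h5)).1
    apply hdv
    rw [hb, h6, map_zero, mul_zero]
  rcases hq with hq | hq
  · rw [hk_ess hq, add_zero] at h1 h2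
    obtain ⟨g, hg, hgv⟩ := (LibKB1a.ess_aff_iff h q).1 hq
    have h3 : 0 ≤ q.ord (ev x y (deh u)) := hq.le ⟨_, rfl⟩
    have h4 : 0 ≤ q.ord (ev x y (deh v)) := hq.le ⟨_, rfl⟩
    obtain ⟨r, hr⟩ := hgv.dvd_of_pos hdu (lt_of_le_of_ne h3 (Ne.symm h1))
    obtain ⟨s, hs⟩ := hgv.dvd_of_pos hdv (lt_of_le_of_ne h4 (Ne.symm h2))
    have hr0 : r ≠ 0 := by
      rintro rfl
      rw [mul_zero] at hr
      exact hdu hr
    have hs0 : s ≠ 0 := by
      rintro rfl
      rw [mul_zero] at hs
      exact hdv hs
    have hg1 : g.totalDegree ≠ 0 := by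
      intro h0
      rw [MvPolynomial.totalDegree_eq_zero_iff_eq_C] at h0
      have hc : MvPolynomial.coeff 0 g ≠ 0 := by
        intro hc
        rw [hc, map_zero] at h0
        exact hg.ne_zero h0
      apply hg.not_isUnit
      rw [h0]
      exact (IsUnit.mk0 _ hc).map MvPolynomial.C
    have hr1 : r.totalDegree = 0 := by
      have := MvPolynomial.totalDegree_mul_of_isDomain hg.ne_zero hr0
      rw [← hr] at this
      omega
    have hs1 : s.totalDegree = 0 := by
      have := MvPolynomial.totalDegree_mul_of_isDomain hg.ne_zero hs0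
      rw [← hs] at this
      omega
    rw [MvPolynomial.totalDegree_eq_zero_iff_eq_C] at hr1 hs1
    rw [hr1] at hr
    rw [hs1] at hs
    exact key g _ _ hr hs
  · rw [hk_inf hq, hq _ hdu] at h1
    rw [hk_inf hq, hq _ hdv] at h2
    have h3 : (deh u).totalDegree = 0 := by
      by_contra h3
      apply h1
      have : (deh u).totalDegree = 1 := by omega
      rw [this]
      norm_num
    have h4 : (deh v).totalDegree = 0 := by
      by_contra h4
      apply h2
      have : (deh v).totalDegree = 1 := by omega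
      rw [this]
      norm_num
    rw [MvPolynomial.totalDegree_eq_zero_iff_eq_C] at h3 h4
    exact key 1 _ _ (by rw [one_mul]; exact h3) (by rw [one_mul]; exact h4)

theorem exists_form {x y : k} (h : IsPlane x y) {q : DVal k} (hq : q ∈ planeAll x y) :
    ∃ (m : ℤ) (p : A3), p ∈ HP m ∧ evk x y p ≠ 0 ∧ q.ord (evk x y p) + m * hk x y q = 1 ∧
      ∀ q' ∈ planeAll x y, q' ≠ q → q'.ord (evk x y p) + m * hk x y q' = 0 := by
  rcases hq with hq | hq
  · obtain ⟨g, hg, hgv⟩ := (LibKB1a.ess_aff_iff h q).1 hq
    obtain ⟨p, hp, hpg⟩ := exists_hom (m := (g.totalDegree : ℤ)) (P := g) (fun _ => le_refl _)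
    have he : evk x y p = ev x y g := by rw [← ev_deh, hpg]
    refine ⟨(g.totalDegree : ℤ), p, hp, ?_, ?_, ?_⟩
    · rw [he]
      exact LibKB1a.ev_ne_zero h hg.ne_zero
    · rw [he, hgv.ord_self hg, hk_ess hq]
      ring
    · intro q' hq' hne
      rw [he]
      rcases hq' with hq' | hq'
      · rw [hk_ess hq', mul_zero, add_zero]
        by_contra hcon
        have h3 : 0 ≤ q'.ord (ev x y g) := hq'.le ⟨_, rfl⟩
        have h4 := LibKB1a.isPolyVal_of_ord_pos h hg hq' (lt_of_le_of_ne h3 (Ne.symm hcon))
        exact hne (h4.unique h hgv)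
      · rw [hk_inf hq', hq' g hg.ne_zero]
        ring
  · refine ⟨1, MvPolynomial.X 0, HP_X 0, ?_, ?_, ?_⟩
    · rw [evk_X0]
      exact one_ne_zero
    · rw [evk_X0, hk_inf hq, DVal.ord_one]
      norm_num
    · intro q' hq' hne
      rcases hq' with hq' | hq'
      · rw [evk_X0, hk_ess hq', DVal.ord_one]
        norm_num
      · exact absurd (hq'.unique h hq) hne

theorem exists_clear {x y : k} (h : IsPlane x y) (S : Set (DVal k)) (hS : S.Finite) (N : ℕ) :
    ∃ (m : ℤ) (p : A3), p ∈ HP m ∧ evk x y p ≠ 0 ∧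
      (∀ q ∈ planeAll x y, q ∈ S → q.ord (evk x y p) + m * hk x y q = N) ∧
      ∀ q ∈ planeAll x y, q ∉ S → q.ord (evk x y p) + m * hk x y q = 0 := by
  induction S, hS using Set.Finite.induction_on with
  | empty =>
    refine ⟨0, 1, ?_, ?_, ?_, ?_⟩
    · have := HP_C 1
      rwa [map_one] at this
    · rw [map_one]
      exact one_ne_zero
    · intro q _ hq
      exact absurd hq (Set.notMem_empty q)
    · intro q _ _
      rw [map_one, DVal.ord_one]
      ring
  | @insert a S ha hS ih =>
    obtain ⟨m, p, hp, hp0, h1, h2⟩ := ih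
    by_cases haP : a ∈ planeAll x y
    · obtain ⟨m', p', hp', hp0', h1', h2'⟩ := exists_form h haP
      have hord : ∀ q : DVal k, q.ord (evk x y (p * p' ^ N)) + (m + N * m') * hk x y q =
          (q.ord (evk x y p) + m * hk x y q) + N * (q.ord (evk x y p') + m' * hk x y q) := by
        intro q
        rw [map_mul, map_pow, q.ord_mul _ _ hp0 (pow_ne_zero _ hp0'), DVal.ord_pow]
        ring
      refine ⟨m + N * m', p * p' ^ N, HP_mul hp (HP_pow hp' N), ?_, ?_, ?_⟩
      · rw [map_mul, map_pow]
        exact mul_ne_zero hp0 (pow_ne_zero _ hp0')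
      · intro q hq hqS
        rw [hord]
        by_cases hqa : q = a
        · subst hqa
          rw [h2 q hq ha, h1']
          ring
        · rw [h2' q hq hqa, h1 q hq (hqS.resolve_left hqa)]
          ring
      · intro q hq hqS
        rw [Set.mem_insert_iff, not_or] at hqS
        rw [hord, h2' q hq hqS.1, h2 q hq hqS.2]
        ring
    · refine ⟨m, p, hp, hp0, ?_, ?_⟩
      · intro q hq hqS
        refine h1 q hq (hqS.resolve_left ?_)
        rintro rfl
        exact haP hq
      · intro q hq hqS
        rw [Set.mem_insert_iff, not_or] at hqS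
        exact h2 q hq hqS.2

end Pool.Agent.LibRR
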