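import Pool.Agent.LibRR.N01
import Pool.Agent.LibRR.G05
import Pool.Agent.LibKP.Fin80
import Pool.Agent.LibKV.Fin
import Pool.Agent.LibKV.Div

/-!
[RR G07] Finiteness. Let `X` be the plane (`exists_planeModel`, N01), `Y` its normalisation in `L`
(`LibCov80.exists_cover`): `primes Y = upP L x y` by `LibCov80.isPrimeDiv_iff` (Pull.lean) and
`over_bel`. Then `finDiv_upP` is the finiteness of zeros and poles on a normal model (search `FinDiv` in
LibK*/LibKD/LibKV: there is a theorem for `primes X`). `finite_hInf`: `hInf ≠ 0` implies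
`Q.ord x ≠ 0` or `Q.ord y ≠ 0`. `divisorial_plane`: `LibKV.divisorial_of_prime` for `X`.
-/

set_option autoImplicit false

open Pool.Agent.LibGMM Pool.Agent.LibCov80 Pool.Agent.LibK
open Pool.Agent.LibKB1a (planeAll IsInf Aff Ess Pol ev)

namespace Pool.Agent.LibRR

variable {k L : Type} [Field k] [Field L] [Algebra ℂ k] [Algebra ℂ L] [Algebra k L]
  [IsScalarTower ℂ k L] [FiniteDimensional k L]

/-- The normalisation of the plane in `L`. -/
theorem exists_upModel (L : Type) [Field L] [Algebra ℂ L] [Algebra k L] [IsScalarTower ℂ k L]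
    [FiniteDimensional k L] {x y : k} (h : IsPlane x y) :
    ∃ Y : NormalModel L, primes Y = upP L x y := by
  obtain ⟨X, hX⟩ := exists_planeModel h
  obtain ⟨Y, hY⟩ := exists_cover (K := L) X
  refine ⟨Y, ?_⟩
  ext Q
  have h1 := isPrimeDiv_iff hY (over_bel k Q)
  constructor
  · intro hQ
    exact (hX _).1 (h1.1 hQ)
  · intro hQ
    exact h1.2 ((hX _).2 hQ)

theorem divisorial_plane {x y : k} (h : IsPlane x y) {q : DVal k} (hq : q ∈ planeAll x y) :
    q.Divisorial := by
  obtain ⟨X, hX⟩ := exists_planeModel h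
  exact Pool.Agent.LibKV.divisorial_of_prime ((hX q).2 hq)

theorem finDiv_upP {x y : k} (h : IsPlane x y) : FinDiv (upP L x y) := by
  obtain ⟨Y, hY⟩ := exists_upModel L h
  intro f hf
  refine (Y.finite_ord_ne (Units.mk0 f hf)).subset ?_
  rintro Q ⟨hQ, hQ0⟩
  rw [← hY] at hQ
  exact ⟨hQ, hQ0⟩

theorem finSup_hInf {x y : k} (h : IsPlane x y) : FinSup (L := L) x y (hInf x y) := by
  obtain ⟨hx, hy⟩ := LibKB1a.ne_zero_of_isPlane h
  have hx' : algebraMap k L x ≠ 0 := (map_ne_zero _).2 hx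
  have hy' : algebraMap k L y ≠ 0 := (map_ne_zero _).2 hy
  refine ((finDiv_upP (L := L) h _ hx').union (finDiv_upP (L := L) h _ hy')).subset ?_
  rintro Q ⟨hQ, hQ0⟩
  by_cases h1 : Q.ord (algebraMap k L x) = 0
  · by_cases h2 : Q.ord (algebraMap k L y) = 0
    · exfalso
      apply hQ0
      unfold hInf
      rw [h1, h2]
      simp
    · exact Or.inr ⟨hQ, h2⟩
  · exact Or.inl ⟨hQ, h1⟩

end Pool.Agent.LibRR
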