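import Pool.Agent.LibRR.G06

/-!
[RR G08] `VD x y D` is a graded module of depth two. `VD_smul`: for `Q ∈ upP`, `q = bel k Q`,
`e = rami k Q`: `Q.ord (evk p) + m * hInf = e * (q.ord (evk p) + m * hk q) ≥ 0` (`evk_HP_iff`,
`ord_algebraMap`, `hInf_eq`). `VD_koszul`: `evk u ≠ 0`, `evk v ≠ 0` (`evk_inj`, the forms are not
`0`), `h = f / evk u = g / evk v`; for `Q ∈ upP` use `linear_pair`: if `q.ord (evk u) + hk q = 0`
then `Q.ord (evk u) = - hInf Q` and `Q.ord h + D + (n - 1) hInf = Q.ord f + D + n hInf ≥ 0`;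
otherwise the same with `v`, `g`.
-/

set_option autoImplicit false

open Pool.Agent.LibGMM Pool.Agent.LibCov80 Pool.Agent.LibK
open Pool.Agent.LibKB1a (planeAll IsInf Aff Ess Pol ev)

namespace Pool.Agent.LibRR

variable {k L : Type} [Field k] [Field L] [Algebra ℂ k] [Algebra ℂ L] [Algebra k L]
  [IsScalarTower ℂ k L] [FiniteDimensional k L]

theorem VD_smul {x y : k} (h : IsPlane x y) (D : DVal L → ℤ) (m n : ℤ) (p : A3) (f : L)
    (hp : p ∈ HP m) (hf : f ∈ VD x y D n) :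
    algebraMap k L (evk x y p) * f ∈ VD x y D (m + n) := by
  have hf' := mem_HZ.1 hf
  refine mem_HZ.2 fun Q hQ hne => ?_
  have h1 : algebraMap k L (evk x y p) ≠ 0 := fun h0 => hne (by rw [h0, zero_mul])
  have h2 : f ≠ 0 := fun h0 => hne (by rw [h0, mul_zero])
  have h3 : evk x y p ≠ 0 := fun h0 => h1 (by rw [h0, map_zero])
  have h4 := (evk_HP_iff h m (evk x y p)).1 ⟨p, hp, rfl⟩ h3 (bel k Q) hQ
  have h5 := hf' Q hQ h2
  rw [Q.ord_mul _ _ h1 h2, ord_algebraMap (k := k)]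
  rw [hInf_eq] at h5 ⊢
  have h6 : (0 : ℤ) ≤ rami k Q * ((bel k Q).ord (evk x y p) + m * hk x y (bel k Q)) :=
    mul_nonneg (Int.natCast_nonneg _) h4
  have h7 : (rami k Q : ℤ) * (bel k Q).ord (evk x y p) + Q.ord f +
      (D Q + (m + n) * (rami k Q * hk x y (bel k Q))) =
      rami k Q * ((bel k Q).ord (evk x y p) + m * hk x y (bel k Q)) +
        (Q.ord f + (D Q + n * (rami k Q * hk x y (bel k Q)))) := by ring
  rw [h7]
  exact add_nonneg h6 h5

theorem rrG08_div {x y : k} (D : DVal L → ℤ) (n : ℤ) (u : A3) (f : L) (hf : f ∈ VD x y D n)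
    (Q : DVal L) (hQ : Q ∈ upP L x y) (hf0 : f ≠ 0) (hu : evk x y u ≠ 0)
    (h : (bel k Q).ord (evk x y u) + hk x y (bel k Q) = 0) :
    0 ≤ Q.ord (f / algebraMap k L (evk x y u)) + (D Q + (n - 1) * hInf x y Q) := by
  have h1 := mem_HZ.1 hf Q hQ hf0
  have h2 : algebraMap k L (evk x y u) ≠ 0 := (map_ne_zero _).2 hu
  rw [DVal.ord_div _ hf0 h2, ord_algebraMap (k := k)]
  rw [hInf_eq] at h1 ⊢
  have h3 : (bel k Q).ord (evk x y u) = - hk x y (bel k Q) := by linarith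
  rw [h3]
  have h4 : Q.ord f - (rami k Q : ℤ) * -hk x y (bel k Q) +
      (D Q + (n - 1) * (rami k Q * hk x y (bel k Q))) =
      Q.ord f + (D Q + n * (rami k Q * hk x y (bel k Q))) := by ring
  rw [h4]
  exact h1

theorem VD_koszul {x y : k} (h : IsPlane x y) (D : DVal L → ℤ) (n : ℤ) (u v : A3)
    (hu : u ∈ HP 1) (hv : v ∈ HP 1) (huv : LinearIndependent ℂ ![u, v]) (f g : L)
    (hf : f ∈ VD x y D n) (hg : g ∈ VD x y D n)
    (hfg : algebraMap k L (evk x y v) * f = algebraMap k L (evk x y u) * g) :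
    ∃ z ∈ VD x y D (n - 1), f = algebraMap k L (evk x y u) * z ∧
      g = algebraMap k L (evk x y v) * z := by
  have hu0 : evk x y u ≠ 0 := fun h0 => huv.ne_zero 0 (evk_inj h hu h0)
  have hv0 : evk x y v ≠ 0 := fun h0 => huv.ne_zero 1 (evk_inj h hv h0)
  have hu1 : algebraMap k L (evk x y u) ≠ 0 := (map_ne_zero _).2 hu0
  have hv1 : algebraMap k L (evk x y v) ≠ 0 := (map_ne_zero _).2 hv0
  have hz : f / algebraMap k L (evk x y u) = g / algebraMap k L (evk x y v) := by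
    rw [div_eq_div_iff hu1 hv1]
    linear_combination hfg
  refine ⟨f / algebraMap k L (evk x y u), mem_HZ.2 fun Q hQ hne => ?_, ?_, ?_⟩
  · rcases linear_pair h hu hv huv (q := bel k Q) hQ with h1 | h1
    · exact rrG08_div D n u f hf Q hQ (fun h0 => hne (by rw [h0, zero_div])) hu0 h1
    · have hg0 : g ≠ 0 := by
        intro h0
        rw [hz, h0, zero_div] at hne
        exact hne rfl
      rw [hz]
      exact rrG08_div D n v g hg Q hQ hg0 hv0 h1
  · rw [mul_div_cancel₀ _ hu1]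
  · rw [hz, mul_div_cancel₀ _ hv1]

end Pool.Agent.LibRR
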