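import Pool.Agent.LibRR.G06
import Pool.Agent.LibRR.G07

/-!
[RR G09] Clearing denominators in `L`. `clear_at`: let `w ≠ 0` (otherwise trivial: `p = 1`), `B` =
the finite set of `Q ∈ upP` with `bel k Q ≠ q` and (`Q.ord w ≠ 0` or `E Q ≠ 0`) (`finDiv_upP`,
`hE`), `N ≥ |Q.ord w| + |E Q|` on `B`; apply `exists_clear` to `S = bel k '' B` (so `q ∉ S`) and `N`.
For `Q ∈ upP`, `q' = bel k Q`: `Q.ord (evk p * w) + E Q + m * hInf Q = rami * (q'.ord (evk p) +
m * hk q') + Q.ord w + E Q`; if `q' ∈ S` the bracket is `N` (`rami ≥ 1`) and the sum is `≥ 0` [if `Q ∉ B`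
then `Q.ord w = E Q = 0`]; if `q' ∉ S` the bracket is `0`, and `Q ∉ B`, so `bel k Q = q` (use `hw`) or
`Q.ord w = E Q = 0`.
`clear`: the same without `q`.
-/

set_option autoImplicit false

open Pool.Agent.LibGMM Pool.Agent.LibCov80 Pool.Agent.LibK
open Pool.Agent.LibKB1a (planeAll IsInf Aff Ess Pol ev)

namespace Pool.Agent.LibRR

variable {k L : Type} [Field k] [Field L] [Algebra ℂ k] [Algebra ℂ L] [Algebra k L]
  [IsScalarTower ℂ k L] [FiniteDimensional k L]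

/-- The common step: a set `A` of prime divisors of the plane which needs no clearing. -/
theorem rrG09_clear {x y : k} (h : IsPlane x y) (E : DVal L → ℤ) (hE : FinSup x y E) (w : L)
    (A : Set (DVal k)) (hw : w ≠ 0 → ∀ Q : DVal L, bel k Q ∈ A → 0 ≤ Q.ord w + E Q) :
    ∃ (m : ℤ) (p : A3), p ∈ HP m ∧ evk x y p ≠ 0 ∧
      (∀ q ∈ A, q ∈ planeAll x y → q.ord (evk x y p) + m * hk x y q = 0) ∧
      algebraMap k L (evk x y p) * w ∈ VD x y E m := by
  classical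
  have hB : {Q : DVal L | Q ∈ upP L x y ∧ bel k Q ∉ A ∧ ((w ≠ 0 ∧ Q.ord w ≠ 0) ∨ E Q ≠ 0)}.Finite := by
    have h1 : {Q : DVal L | Q ∈ upP L x y ∧ (w ≠ 0 ∧ Q.ord w ≠ 0)}.Finite := by
      by_cases hw0 : w = 0
      · have : {Q : DVal L | Q ∈ upP L x y ∧ (w ≠ 0 ∧ Q.ord w ≠ 0)} = ∅ := by
          ext Q; simp [hw0]
        rw [this]; exact Set.finite_empty
      · have h2 := finDiv_upP (L := L) h w hw0
        refine h2.subset ?_
        rintro Q ⟨hQ, _, hQ2⟩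
        exact ⟨hQ, hQ2⟩
    have h3 : {Q : DVal L | Q ∈ upP L x y ∧ E Q ≠ 0}.Finite := hE
    refine (h1.union h3).subset ?_
    rintro Q ⟨hQ, _, hQ2⟩
    rcases hQ2 with h4 | h4
    · exact Or.inl ⟨hQ, h4⟩
    · exact Or.inr ⟨hQ, h4⟩
  set B := {Q : DVal L | Q ∈ upP L x y ∧ bel k Q ∉ A ∧ ((w ≠ 0 ∧ Q.ord w ≠ 0) ∨ E Q ≠ 0)}
    with hBdef
  obtain ⟨N, hN⟩ : ∃ N : ℕ, ∀ Q ∈ B, |Q.ord w| + |E Q| ≤ (N : ℤ) := by
    refine ⟨(∑ Q ∈ hB.toFinset, (|Q.ord w| + |E Q|)).toNat, ?_⟩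
    intro Q hQ
    have h5 : |Q.ord w| + |E Q| ≤ ∑ Q ∈ hB.toFinset, (|Q.ord w| + |E Q|) :=
      Finset.single_le_sum (f := fun Q : DVal L => |Q.ord w| + |E Q|)
        (fun i _ => add_nonneg (abs_nonneg _) (abs_nonneg _)) (hB.mem_toFinset.2 hQ)
    exact h5.trans (Int.self_le_toNat _)
  obtain ⟨m, p, hp, hp0, hS, hnS⟩ := exists_clear h (bel k '' B) (hB.image _) N
  have hA : ∀ q ∈ A, q ∉ bel k '' B := by
    rintro q hq ⟨Q, hQ, rfl⟩
    exact hQ.2.1 hq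
  refine ⟨m, p, hp, hp0, fun q hq hq' => hnS q hq' (hA q hq), ?_⟩
  unfold VD
  rw [mem_HZ]
  intro Q hQ hne
  have hw0 : w ≠ 0 := fun h0 => hne (by rw [h0, mul_zero])
  have hp1 : algebraMap k L (evk x y p) ≠ 0 := fun h0 => hne (by rw [h0, zero_mul])
  have hQk : bel k Q ∈ planeAll x y := hQ
  rw [Q.ord_mul _ _ hp1 hw0, ord_algebraMap k Q, hInf_eq x y Q]
  have hr : 0 < (rami k Q : ℤ) := by exact_mod_cast rami_pos k Q
  have key : (rami k Q : ℤ) * (bel k Q).ord (evk x y p) + Q.ord w +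
      (E Q + m * ((rami k Q : ℤ) * hk x y (bel k Q))) =
      (rami k Q : ℤ) * ((bel k Q).ord (evk x y p) + m * hk x y (bel k Q)) + (Q.ord w + E Q) := by
    ring
  rw [key]
  by_cases hq : bel k Q ∈ bel k '' B
  · rw [hS _ hQk hq]
    have h6 : (N : ℤ) ≤ (rami k Q : ℤ) * N := by nlinarith [Int.natCast_nonneg N]
    by_cases hQB : Q ∈ B
    · have h7 := hN Q hQB
      have h8 := neg_abs_le (Q.ord w)
      have h9 := neg_abs_le (E Q)
      linarith
    · have hnA : bel k Q ∉ A := fun h10 => hA _ h10 hq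
      have h11 : Q.ord w = 0 ∧ E Q = 0 := by
        by_contra h12
        apply hQB
        refine ⟨hQ, hnA, ?_⟩
        by_cases h13 : Q.ord w = 0
        · right
          intro h14
          exact h12 ⟨h13, h14⟩
        · left
          exact ⟨hw0, h13⟩
      rw [h11.1, h11.2]
      have := Int.natCast_nonneg N
      linarith
  · rw [hnS _ hQk hq, mul_zero, zero_add]
    have hQB : Q ∉ B := fun h15 => hq ⟨Q, h15, rfl⟩
    by_cases hqA : bel k Q ∈ A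
    · exact hw hw0 Q hqA
    · have h11 : Q.ord w = 0 ∧ E Q = 0 := by
        by_contra h12
        apply hQB
        refine ⟨hQ, hqA, ?_⟩
        by_cases h13 : Q.ord w = 0
        · right
          intro h14
          exact h12 ⟨h13, h14⟩
        · left
          exact ⟨hw0, h13⟩
      rw [h11.1, h11.2]
      norm_num

theorem clear_at {x y : k} (h : IsPlane x y) (E : DVal L → ℤ) (hE : FinSup x y E) (w : L)
    {q : DVal k} (hq : q ∈ planeAll x y)
    (hw : w ≠ 0 → ∀ Q : DVal L, bel k Q = q → 0 ≤ Q.ord w + E Q) :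
    ∃ (m : ℤ) (p : A3), p ∈ HP m ∧ evk x y p ≠ 0 ∧ q.ord (evk x y p) + m * hk x y q = 0 ∧
      algebraMap k L (evk x y p) * w ∈ VD x y E m := by
  obtain ⟨m, p, hp, hp0, hA, hm⟩ := rrG09_clear h E hE w {q}
    (fun hw0 Q hQ => hw hw0 Q (Set.mem_singleton_iff.1 hQ))
  exact ⟨m, p, hp, hp0, hA q (Set.mem_singleton q) hq, hm⟩

theorem clear {x y : k} (h : IsPlane x y) (E : DVal L → ℤ) (hE : FinSup x y E) (w : L) :
    ∃ (m : ℤ) (p : A3), p ∈ HP m ∧ evk x y p ≠ 0 ∧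
      algebraMap k L (evk x y p) * w ∈ VD x y E m := by
  obtain ⟨m, p, hp, hp0, _, hm⟩ := rrG09_clear h E hE w ∅
    (fun _ Q hQ => absurd hQ (Set.notMem_empty _))
  exact ⟨m, p, hp, hp0, hm⟩

end Pool.Agent.LibRR
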