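import Pool.Agent.LibRR.G03
import Pool.Agent.LibRR.G08
import Pool.Agent.LibRR.G09

/-!
[RR G10] The dual of `VD x y D` with respect to the trace. `E = rami - 1 - D`, so the claim is
`dualW m = VD x y E m`.

`⊇`: `z` with `0 ≤ Q.ord z + rami - 1 - D Q + m * hInf Q` on `upP`, `f ∈ VD D n`. If
`trace (z f) ≠ 0`, then `z, f ≠ 0` and for `q ∈ planeAll`, `c = (n + m) * hk q`, `trace_ord` applies to `z * f`
(`hInf_eq`: `(n + m) * hInf Q = rami * c`): `0 ≤ q.ord (trace) + (n + m) hk q`; `evk_HP_iff`.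
`⊆`: `z ∈ dualW`, `z ≠ 0`, `Q0 ∈ upP`, `q = bel k Q0`. Apply `local_dual` with `c = m * hk q`: let `f ≠ 0` with
`0 ≤ Q.ord f + D Q` for all `Q` over `q`; `clear_at` (with `E := D`) gives `m'`, `p ∈ HP m'`,
`evk p * f ∈ VD D m'`, so `trace (z * evk p * f) = evk p * trace (z f)` is `evk p''` with
`p'' ∈ HP (m' + m)`; by `evk_HP_iff`, `0 ≤ q.ord (evk p) + q.ord (trace (z f)) + (m' + m) hk q`, and
`q.ord (evk p) + m' hk q = 0`.
-/

set_option autoImplicit false

open Pool.Agent.LibGMM Pool.Agent.LibCov80 Pool.Agent.LibK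
open Pool.Agent.LibKB1a (planeAll IsInf Aff Ess Pol ev)

namespace Pool.Agent.LibRR

variable {k L : Type} [Field k] [Field L] [Algebra ℂ k] [Algebra ℂ L] [Algebra k L]
  [IsScalarTower ℂ k L] [FiniteDimensional k L]

theorem rrG10_sup {x y : k} (h : IsPlane x y) (D : DVal L → ℤ) (m : ℤ) {z : L}
    (hz : z ∈ VD x y (fun Q => (rami k Q : ℤ) - 1 - D Q) m) :
    z ∈ dualW (evk x y) (VD x y D) m := by
  intro n f hf
  have h1 := mem_HZ.1 hz
  have h2 := mem_HZ.1 hf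
  refine (evk_HP_iff h (n + m) _).2 ?_
  intro h0 q hq
  have hne : z * f ≠ 0 := by
    intro h3
    exact h0 (by rw [h3, map_zero])
  have hz0 : z ≠ 0 := left_ne_zero_of_mul hne
  have hf0 : f ≠ 0 := right_ne_zero_of_mul hne
  refine trace_ord q (z * f) ((n + m) * hk x y q) ?_ h0
  intro Q hQ
  have hQ' : Q ∈ upP L x y := by
    change bel k Q ∈ planeAll x y
    rw [hQ]
    exact hq
  have h4 := h1 Q hQ' hz0
  have h5 := h2 Q hQ' hf0
  have h6 := hInf_eq x y Q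
  rw [hQ] at h6
  rw [h6] at h4 h5
  rw [DVal.ord_mul Q z f hz0 hf0]
  have h7 : Q.ord z + Q.ord f + (rami k Q : ℤ) - 1 + (rami k Q : ℤ) * ((n + m) * hk x y q) =
      (Q.ord z + ((rami k Q : ℤ) - 1 - D Q + m * ((rami k Q : ℤ) * hk x y q))) +
      (Q.ord f + (D Q + n * ((rami k Q : ℤ) * hk x y q))) := by ring
  rw [h7]
  exact add_nonneg h4 h5

theorem rrG10_sub {x y : k} (h : IsPlane x y) (D : DVal L → ℤ) (hD : FinSup x y D) (m : ℤ)
    {z : L} (hz : z ∈ dualW (evk x y) (VD x y D) m) :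
    z ∈ VD x y (fun Q => (rami k Q : ℤ) - 1 - D Q) m := by
  refine mem_HZ.2 ?_
  intro Q0 hQ0 hz0
  have hq : bel k Q0 ∈ planeAll x y := hQ0
  have h1 := local_dual (bel k Q0) D (m * hk x y (bel k Q0)) z hz0 (by
    intro f hf0 hfQ h0
    obtain ⟨m', p, hp, hp0, hp1, hp2⟩ := clear_at h D hD f hq (fun _ => hfQ)
    obtain ⟨p', hp', hp''⟩ := hz m' _ hp2
    have h2 : Algebra.trace k L (z * (algebraMap k L (evk x y p) * f)) =
        evk x y p * Algebra.trace k L (z * f) := by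
      have h3 : z * (algebraMap k L (evk x y p) * f) = evk x y p • (z * f) := by
        rw [Algebra.smul_def]
        ring
      rw [h3, map_smul, smul_eq_mul]
    rw [h2] at hp''
    have h4 := (evk_HP_iff h (m' + m) (evk x y p * Algebra.trace k L (z * f))).1
      ⟨p', hp', hp''⟩ (mul_ne_zero hp0 h0) (bel k Q0) hq
    rw [DVal.ord_mul (bel k Q0) _ _ hp0 h0] at h4
    have h5 : (bel k Q0).ord (evk x y p) + (bel k Q0).ord (Algebra.trace k L (z * f)) +
        (m' + m) * hk x y (bel k Q0) =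
        ((bel k Q0).ord (evk x y p) + m' * hk x y (bel k Q0)) +
        ((bel k Q0).ord (Algebra.trace k L (z * f)) + m * hk x y (bel k Q0)) := by ring
    rw [h5, hp1, zero_add] at h4
    exact h4) Q0 rfl
  have h6 := hInf_eq x y Q0
  change 0 ≤ Q0.ord z + ((rami k Q0 : ℤ) - 1 - D Q0 + m * hInf x y Q0)
  rw [h6]
  have h7 : Q0.ord z + ((rami k Q0 : ℤ) - 1 - D Q0 + m * ((rami k Q0 : ℤ) * hk x y (bel k Q0))) =
      Q0.ord z - D Q0 + (rami k Q0 : ℤ) - 1 + (rami k Q0 : ℤ) * (m * hk x y (bel k Q0)) := by ring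
  rw [h7]
  exact h1

theorem dualW_VD {x y : k} (h : IsPlane x y) (D : DVal L → ℤ) (hD : FinSup x y D) (m : ℤ) :
    dualW (evk x y) (VD x y D) m = VD x y (fun Q => (rami k Q : ℤ) - 1 - D Q) m :=
  le_antisymm (fun _ hz => rrG10_sub h D hD m hz) (fun _ hz => rrG10_sup h D m hz)

end Pool.Agent.LibRR
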