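import Pool.Agent.LibRR.Defs

/-!
Graded modules of depth two over `ℂ[X₀, X₁, X₂]` inside a finite extension `L` of the field `k` of
rational functions of the plane, and their duals with respect to the trace.
-/

set_option autoImplicit false

namespace Pool.Agent.LibRR

section

variable {k L : Type} [Field k] [Field L] [Algebra ℂ k] [Algebra ℂ L] [Algebra k L]

/-- `V n ⊆ L`, `n ∈ ℤ`, is a graded module over the homogeneous polynomials (acting by `ev`),
generated by `e i ∈ V (d i)`, in which any two independent linear forms are a regular sequence. -/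
structure IsGMod (ev : A3 →ₐ[ℂ] k) (V : ℤ → Submodule ℂ L) {I : Type} [Fintype I] (d : I → ℤ)
    (e : I → L) : Prop where
  mem : ∀ i, e i ∈ V (d i)
  gen : ∀ n, ∀ f ∈ V n, ∃ a : I → A3, (∀ i, a i ∈ HP (n - d i)) ∧
    f = ∑ i, algebraMap k L (ev (a i)) * e i
  smul : ∀ (m n : ℤ) (p : A3) (f : L), p ∈ HP m → f ∈ V n → algebraMap k L (ev p) * f ∈ V (m + n)
  koszul : ∀ (n : ℤ) (u v : A3), u ∈ HP 1 → v ∈ HP 1 → LinearIndependent ℂ ![u, v] →
    ∀ f g : L, f ∈ V n → g ∈ V n → algebraMap k L (ev v) * f = algebraMap k L (ev u) * g →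
      ∃ h ∈ V (n - 1), f = algebraMap k L (ev u) * h ∧ g = algebraMap k L (ev v) * h
  inj : ∀ (m : ℤ) (p : A3), p ∈ HP m → ev p = 0 → p = 0

/-- The field `k` is the field of quotients of homogeneous polynomials of the same degree, and the
generators span `L`. -/
structure IsGFull (ev : A3 →ₐ[ℂ] k) {I : Type} [Fintype I] (e : I → L) : Prop where
  frac : ∀ z : k, ∃ (m : ℤ) (p q : A3), p ∈ HP m ∧ q ∈ HP m ∧ ev q ≠ 0 ∧ z = ev p / ev q
  span : Submodule.span k (Set.range e) = ⊤

/-- The relations of degree `n` between the generators. -/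
noncomputable def relF (ev : A3 →ₐ[ℂ] k) {I : Type} [Fintype I] (d : I → ℤ) (e : I → L) (n : ℤ) :
    Submodule ℂ (I → A3) where
  carrier := {a | (∀ i, a i ∈ HP (n - d i)) ∧ ∑ i, algebraMap k L (ev (a i)) * e i = 0}
  zero_mem' := ⟨fun i => Submodule.zero_mem _, by simp⟩
  add_mem' := by
    rintro a b ⟨ha, ha'⟩ ⟨hb, hb'⟩
    refine ⟨fun i => Submodule.add_mem _ (ha i) (hb i), ?_⟩
    have h1 : ∀ i, algebraMap k L (ev ((a + b) i)) * e i =
        algebraMap k L (ev (a i)) * e i + algebraMap k L (ev (b i)) * e i := by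
      intro i
      rw [Pi.add_apply, map_add, map_add, add_mul]
    rw [Finset.sum_congr rfl fun i _ => h1 i, Finset.sum_add_distrib, ha', hb', add_zero]
  smul_mem' := by
    rintro c a ⟨ha, ha'⟩
    refine ⟨fun i => Submodule.smul_mem _ c (ha i), ?_⟩
    have h1 : ∀ i, algebraMap k L (ev ((c • a) i)) * e i =
        algebraMap k L (algebraMap ℂ k c) * (algebraMap k L (ev (a i)) * e i) := by
      intro i
      rw [Pi.smul_apply, map_smul, Algebra.smul_def, map_mul, mul_assoc]
    rw [Finset.sum_congr rfl fun i _ => h1 i, ← Finset.mul_sum, ha', mul_zero]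

/-- The elements `z ∈ L` with `Tr(z V n) ⊆ HP (n + m)` for all `n`. -/
noncomputable def dualW (ev : A3 →ₐ[ℂ] k) (V : ℤ → Submodule ℂ L) (m : ℤ) :
    Submodule ℂ L where
  carrier := {z | ∀ n, ∀ f ∈ V n, ∃ p ∈ HP (n + m), ev p = Algebra.trace k L (z * f)}
  zero_mem' := fun n f _ => ⟨0, Submodule.zero_mem _, by simp⟩
  add_mem' := by
    intro a b ha hb n f hf
    obtain ⟨p, hp, hp'⟩ := ha n f hf
    obtain ⟨q, hq, hq'⟩ := hb n f hf
    exact ⟨p + q, Submodule.add_mem _ hp hq, by rw [map_add, hp', hq', add_mul, map_add]⟩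
  smul_mem' := by
    intro c a ha n f hf
    obtain ⟨p, hp, hp'⟩ := ha n (c • f) (Submodule.smul_mem _ c hf)
    exact ⟨p, hp, by rw [hp', mul_smul_comm, smul_mul_assoc]⟩

/-- The kernel in degree `m` of the dual of the matrix of relations. -/
noncomputable def kerP {I J : Type} [Fintype I] (d : I → ℤ) (s : J → I → A3) (m : ℤ) :
    Submodule ℂ (I → A3) where
  carrier := {p | (∀ i, p i ∈ HP (m + d i)) ∧ ∀ j, ∑ i, s j i * p i = 0}
  zero_mem' := ⟨fun i => Submodule.zero_mem _, fun j => by simp⟩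
  add_mem' := by
    rintro a b ⟨ha, ha'⟩ ⟨hb, hb'⟩
    refine ⟨fun i => Submodule.add_mem _ (ha i) (hb i), fun j => ?_⟩
    simp only [Pi.add_apply, mul_add, Finset.sum_add_distrib, ha' j, hb' j, add_zero]
  smul_mem' := by
    rintro c a ⟨ha, ha'⟩
    refine ⟨fun i => Submodule.smul_mem _ c (ha i), fun j => ?_⟩
    simp only [Pi.smul_apply, mul_smul_comm, ← Finset.smul_sum, ha' j, smul_zero]

end

end Pool.Agent.LibRR
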