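import Pool.Agent.LibRR.A01
import Pool.Agent.LibRR.Mod
import Pool.Agent.LibCov80.Norm

/-!
[RR G11] Finite generation of graded modules with a good basis for the trace (pure algebra).
-/

set_option autoImplicit false

namespace Pool.Agent.LibRR

variable {k L : Type} [Field k] [Field L] [Algebra ℂ k] [Algebra ℂ L] [Algebra k L]
  [IsScalarTower ℂ k L] [FiniteDimensional k L]

theorem exists_gmod (ev : A3 →ₐ[ℂ] k) (V : ℤ → Submodule ℂ L)
    (smul : ∀ (m n : ℤ) (p : A3) (f : L), p ∈ HP m → f ∈ V n →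
      algebraMap k L (ev p) * f ∈ V (m + n))
    (koszul : ∀ (n : ℤ) (u v : A3), u ∈ HP 1 → v ∈ HP 1 → LinearIndependent ℂ ![u, v] →
      ∀ f g : L, f ∈ V n → g ∈ V n → algebraMap k L (ev v) * f = algebraMap k L (ev u) * g →
        ∃ h ∈ V (n - 1), f = algebraMap k L (ev u) * h ∧ g = algebraMap k L (ev v) * h)
    (inj : ∀ (m : ℤ) (p : A3), p ∈ HP m → ev p = 0 → p = 0) {r : ℕ} (w : Fin r → L)
    (hw : Submodule.span k (Set.range w) = ⊤) (c : Fin r → ℤ)
    (htr : ∀ (l : Fin r) (n : ℤ), ∀ f ∈ V n, ∃ p ∈ HP (n + c l),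
      ev p = Algebra.trace k L (w l * f)) :
    ∃ (I : Type) (_ : Fintype I) (d : I → ℤ) (e : I → L), IsGMod ev V d e := by
  classical
  have hsep : Algebra.IsSeparable k L := LibCov80.isSeparable
  have hnd := traceForm_nondegenerate k L
  have hzero : ∀ z : L, (∀ l, Algebra.trace k L (w l * z) = 0) → z = 0 := by
    intro z hz
    apply hnd.1 z
    intro y
    have hy : y ∈ Submodule.span k (Set.range w) := hw ▸ Submodule.mem_top
    rw [Algebra.traceForm_apply, mul_comm]
    induction hy using Submodule.span_induction with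
    | mem x hx => obtain ⟨l, rfl⟩ := hx; exact hz l
    | zero => simp
    | add x y _ _ hx hy => rw [add_mul, map_add, hx, hy, add_zero]
    | smul a x _ hx => rw [smul_mul_assoc, map_smul, hx, smul_zero]
  let S : Set (Fin r → A3) := {a | ∃ n, ∃ f ∈ V n, ∀ l, a l ∈ HP (n + c l) ∧
    ev (a l) = Algebra.trace k L (w l * f)}
  have hfg : (Submodule.span A3 S).FG := IsNoetherian.noetherian _
  obtain ⟨t, htS, ht⟩ := (Submodule.fg_span_iff_fg_span_finset_subset S).1 hfg
  have hc' : ∀ i : t, ∃ n, ∃ f ∈ V n, ∀ l, (i : Fin r → A3) l ∈ HP (n + c l) ∧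
      ev ((i : Fin r → A3) l) = Algebra.trace k L (w l * f) := fun i => htS i.2
  choose d e he hde using hc'
  refine ⟨t, inferInstance, d, e, ⟨he, ?_, smul, koszul, inj⟩⟩
  intro n f hf
  choose a ha ha' using fun l => htr l n f hf
  have haS : a ∈ Submodule.span A3 (t : Set (Fin r → A3)) := by
    rw [← ht]
    exact Submodule.subset_span ⟨n, f, hf, fun l => ⟨ha l, ha' l⟩⟩
  obtain ⟨x, hx⟩ := Submodule.mem_span_finset'.1 haS
  refine ⟨fun i => hc (n - d i) (x i), fun i => hc_mem _ _, ?_⟩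
  have hal : ∀ l, a l = ∑ i : t, (i : Fin r → A3) l * hc (n - d i) (x i) := by
    intro l
    have h1 : a l = ∑ i : t, (i : Fin r → A3) l * x i := by
      rw [← hx, Finset.sum_apply]
      exact Finset.sum_congr rfl fun i _ => by rw [Pi.smul_apply, smul_eq_mul, mul_comm]
    have h2 : hc (n + c l) (a l) = a l := hc_of_mem (ha l)
    rw [← h2]
    conv_lhs => rw [h1]
    rw [map_sum]
    refine Finset.sum_congr rfl fun i _ => ?_
    have h3 := hc_mul (m := n - d i) (hde i l).1 (x i)
    rwa [show n - d i + (d i + c l) = n + c l by ring] at h3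
  have hz : f - ∑ i : t, algebraMap k L (ev (hc (n - d i) (x i))) * e i = 0 := by
    apply hzero
    intro l
    rw [mul_sub, map_sub, ← ha' l, hal l, map_sum, Finset.mul_sum, map_sum, sub_eq_zero]
    refine Finset.sum_congr rfl fun i _ => ?_
    rw [map_mul, (hde i l).2, mul_left_comm, ← Algebra.smul_def, map_smul, smul_eq_mul, mul_comm]
  exact sub_eq_zero.1 hz

end Pool.Agent.LibRR
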