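import Pool.Agent.LibRR.G10
import Pool.Agent.LibRR.G11

/-!
[RR G12] `VD x y D` is a finitely generated graded module of depth two, which spans `L`.
Apply `exists_gmod` to `VD_smul`, `VD_koszul`, `evk_inj` and the following `w`: let `b l` be a basis of
`L / k` (`l : Fin r`); `clear` for `E = rami - 1 - D` gives `m l`, `p l` with
`evk (p l) * b l ∈ VD x y E (m l) = dualW (VD D) (m l)` (`dualW_VD`); `w l = evk (p l) * b l`
(still spans, `evk (p l) ≠ 0`), `c l = m l`. To see that `E` has finite support use `finSup_ramE`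
(G13) — it is a hypothesis here: `hr`.
`frac`: `evk_frac`. `span`: for `z ∈ L`, `clear` for `E = D` gives `evk p * z ∈ VD D m`, which is in
the span by `gen`, and `evk p ≠ 0` is invertible in `k`.
-/

set_option autoImplicit false

open Pool.Agent.LibGMM Pool.Agent.LibCov80 Pool.Agent.LibK
open Pool.Agent.LibKB1a (planeAll IsInf Aff Ess Pol ev)

namespace Pool.Agent.LibRR

variable {k L : Type} [Field k] [Field L] [Algebra ℂ k] [Algebra ℂ L] [Algebra k L]
  [IsScalarTower ℂ k L] [FiniteDimensional k L]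

theorem gmod_VD {x y : k} (h : IsPlane x y) (D : DVal L → ℤ) (hD : FinSup x y D)
    (hr : FinSup (L := L) x y fun Q => (rami k Q : ℤ) - 1) :
    ∃ (I : Type) (_ : Fintype I) (d : I → ℤ) (e : I → L),
      IsGMod (evk x y) (VD x y D) d e ∧ IsGFull (evk x y) e := by
  have hE : FinSup (L := L) x y (fun Q => (rami k Q : ℤ) - 1 - D Q) := by
    unfold FinSup at hD hr ⊢
    refine (hD.union hr).subset ?_
    rintro Q ⟨hQ, hne⟩
    by_cases h0 : D Q = 0
    · right
      refine ⟨hQ, ?_⟩
      change (rami k Q : ℤ) - 1 - D Q ≠ 0 at hne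
      rw [h0, sub_zero] at hne
      exact hne
    · exact Or.inl ⟨hQ, h0⟩
  obtain ⟨b⟩ : Nonempty (Module.Basis (Fin (Module.finrank k L)) k L) := ⟨Module.finBasis k L⟩
  choose m p hp hne hmem using fun l => clear h (fun Q => (rami k Q : ℤ) - 1 - D Q) hE (b l)
  have hw : Submodule.span k
      (Set.range (fun l => algebraMap k L (evk x y (p l)) * b l)) = ⊤ := by
    rw [eq_top_iff, ← b.span_eq, Submodule.span_le]
    rintro _ ⟨l, rfl⟩
    have h1 : b l = (evk x y (p l))⁻¹ • (algebraMap k L (evk x y (p l)) * b l) := by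
      rw [← Algebra.smul_def, smul_smul, inv_mul_cancel₀ (hne l), one_smul]
    rw [SetLike.mem_coe, h1]
    exact Submodule.smul_mem _ _ (Submodule.subset_span ⟨l, rfl⟩)
  have htr : ∀ (l : Fin (Module.finrank k L)) (n : ℤ), ∀ f ∈ VD x y D n, ∃ q ∈ HP (n + m l),
      evk x y q = Algebra.trace k L ((algebraMap k L (evk x y (p l)) * b l) * f) := by
    intro l n f hf
    have h1 : algebraMap k L (evk x y (p l)) * b l ∈ dualW (evk x y) (VD x y D) (m l) := by
      rw [dualW_VD h D hD (m l)]
      exact hmem l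
    exact h1 n f hf
  obtain ⟨I, hI, d, e, hG⟩ := exists_gmod (evk x y) (VD x y D) (VD_smul h D) (VD_koszul h D)
    (fun m p hp h0 => evk_inj h hp h0) (fun l => algebraMap k L (evk x y (p l)) * b l) hw m htr
  refine ⟨I, hI, d, e, hG, evk_frac h, ?_⟩
  rw [eq_top_iff]
  intro z _
  obtain ⟨m', p', hp', hne', hmem'⟩ := clear h D hD z
  obtain ⟨a, -, ha⟩ := hG.gen m' _ hmem'
  have h1 : z = (evk x y p')⁻¹ • (algebraMap k L (evk x y p') * z) := by
    rw [← Algebra.smul_def, smul_smul, inv_mul_cancel₀ hne', one_smul]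
  rw [h1]
  apply Submodule.smul_mem
  rw [ha]
  apply Submodule.sum_mem
  intro i _
  rw [← Algebra.smul_def]
  exact Submodule.smul_mem _ _ (Submodule.subset_span ⟨i, rfl⟩)

end Pool.Agent.LibRR
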