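import Pool.Agent.LibRR.G07
import Pool.Agent.LibKB1a.G3

/-!
[RR G13] The canonical divisor of the normalisation of the plane is `rami - 1 - 3 hInf`. By
`LibKP.ram` (Fin80.lean; `X` from `exists_planeModel`, `ω₀ ≠ 0` a form on `k`:
`LibCov80.exists_topForm_ne_zero X`) `canOrd Q ω + 1 = rami * (canOrd q ω₀ + 1) + Q.ord c`,
`q = bel k Q` divisorial (`divisorial_plane`), and by `exists_canOrd_plane` (LibKB1a/G3.lean)
`canOrd q ω₀ = q.ord g - 3 * hk q` (`hk_ess`, `hk_inf`). `u = algebraMap g * c`.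
`finSup_ramE`: the canonical divisor has finite support (`LibKV.finite_canOrd` for the model of
`exists_upModel`), `finDiv_upP`, `finSup_hInf`; a form `ω ≠ 0` on `L` exists
(`exists_topForm_ne_zero` for the model).
-/

set_option autoImplicit false

open Pool.Agent.LibGMM Pool.Agent.LibCov80 Pool.Agent.LibK
open Pool.Agent.LibKB1a (planeAll IsInf Aff Ess Pol ev)
open scoped KaehlerDifferential

namespace Pool.Agent.LibRR

variable {k L : Type} [Field k] [Field L] [Algebra ℂ k] [Algebra ℂ L] [Algebra k L]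
  [IsScalarTower ℂ k L] [FiniteDimensional k L]

/-- a nonzero top form (as `LibCov80.exists_topForm_ne_zero`) -/
theorem rrG13_topForm {F : Type} [Field F] [Algebra ℂ F] (X : NormalModel F) :
    ∃ ω : TopForm F, ω ≠ 0 := by
  have hfin := Pool.Agent.LibCov80.finite_kaehler X
  let b : Module.Basis (Fin (Module.finrank F (Ω[F⁄ℂ]))) F (Ω[F⁄ℂ]) := Module.finBasis F (Ω[F⁄ℂ])
  let e : Module.Basis (Fin (Module.finrank F (Ω[F⁄ℂ]))) F (Derivation ℂ F F) :=
    b.dualBasis.map (KaehlerDifferential.linearMapEquivDerivation ℂ F)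
  refine ⟨e.det, fun h => ?_⟩
  have h1 := e.det_self
  have h2 : e.det = 0 := h
  rw [h2] at h1
  simp at h1

theorem canOrd_eq_canR {x y : k} (h : IsPlane x y) {ω : TopForm L} (hω : ω ≠ 0) :
    ∃ u : L, u ≠ 0 ∧ ∀ Q ∈ upP L x y, canOrd Q ω = canR x y Q + Q.ord u := by
  obtain ⟨X, hX⟩ := exists_planeModel h
  obtain ⟨ω₀, hω₀⟩ := rrG13_topForm X
  obtain ⟨c, hc⟩ := Pool.Agent.LibKP.ram X hω₀ hω
  obtain ⟨g, hg0, hg1, hg2⟩ := Pool.Agent.LibKB1a.exists_canOrd_plane h hω₀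
  have hg0' : algebraMap k L g ≠ 0 := (map_ne_zero _).2 hg0
  refine ⟨algebraMap k L g * (c : L), mul_ne_zero hg0' c.ne_zero, fun Q hQ => ?_⟩
  have hq : bel k Q ∈ planeAll x y := hQ
  have h1 := hc Q (bel k Q) (rami k Q) (over_bel k Q) (divisorial_plane h hq)
  have h2 : canOrd (bel k Q) ω₀ = (bel k Q).ord g - 3 * hk x y (bel k Q) := by
    rcases hq with hq | hq
    · rw [hg1 _ hq, hk_ess hq]
      ring
    · rw [hg2 _ hq, hk_inf hq]
      ring
  rw [h2] at h1
  rw [Q.ord_mul _ _ hg0' c.ne_zero, ord_algebraMap]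
  unfold canR
  rw [hInf_eq]
  linear_combination h1

theorem finSup_ramE {x y : k} (h : IsPlane x y) :
    FinSup (L := L) x y fun Q => (rami k Q : ℤ) - 1 := by
  obtain ⟨Y, hY⟩ := exists_upModel L h
  obtain ⟨ω, hω⟩ := rrG13_topForm Y
  obtain ⟨u, hu0, hu⟩ := canOrd_eq_canR (k := k) h hω
  have h1 := Pool.Agent.LibKV.finite_canOrd Y hω
  have h2 := finDiv_upP (L := L) h u hu0
  have h3 := finSup_hInf (L := L) h
  refine Set.Finite.subset ((h1.union h2).union h3) ?_
  rintro Q ⟨hQ1, hQ2⟩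
  have hQ3 : (rami k Q : ℤ) - 1 ≠ 0 := hQ2
  have h4 := hu Q hQ1
  unfold canR at h4
  by_cases ha : canOrd Q ω = 0
  · by_cases hb : Q.ord u = 0
    · by_cases hc : hInf x y Q = 0
      · exfalso
        rw [ha, hb, hc] at h4
        apply hQ3
        linarith
      · exact Or.inr ⟨hQ1, hc⟩
    · exact Or.inl (Or.inr ⟨hQ1, hb⟩)
  · left
    left
    refine ⟨?_, ha⟩
    have h5 : Q ∈ primes Y := by
      rw [hY]
      exact hQ1
    exact h5

end Pool.Agent.LibRR
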