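import Pool.Agent.LibRR.A13
import Pool.Agent.LibRR.G12
import Pool.Agent.LibRR.G13

/-!
[RR G14] Riemann-Roch for the normalisation of the plane. From `gmod_VD`, `IsGMod.riemannRoch` and
`dualW_VD`: `dualW (evk x y) (VD D) (-3 - n) = VD (rami - 1 - D) (-3 - n) = HZ (canR - D - n * hInf)`.
`finite`: `VD D n` is the image of the finite dimensional space `∏ HP (n - d i)` (`gen`; or
`A02`). The function `n ↦ 2 h0 (canR - D + n hInf)` is `deg n² - b n + 2 χ` for `n` large.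
-/

set_option autoImplicit false

open Pool.Agent.LibGMM Pool.Agent.LibCov80 Pool.Agent.LibK
open Pool.Agent.LibKB1a (planeAll IsInf Aff Ess Pol ev)

namespace Pool.Agent.LibRR

variable {k L : Type} [Field k] [Field L] [Algebra ℂ k] [Algebra ℂ L] [Algebra k L]
  [IsScalarTower ℂ k L] [FiniteDimensional k L]

theorem riemannRoch_up {x y : k} (h : IsPlane x y) (D : DVal L → ℤ) (hD : FinSup x y D) :
    ∃ b χ n₀ : ℤ, (∀ n, Module.Finite ℂ (VD x y D n)) ∧
      (∀ n, n ≤ -n₀ → VD x y D n = ⊥) ∧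
      (∀ n, n₀ ≤ n → 2 * (Module.finrank ℂ (VD x y D n) : ℤ) =
        (Module.finrank k L : ℤ) * n ^ 2 + b * n + 2 * χ) ∧
      (∀ n, n₀ ≤ n → 2 * (Module.finrank ℂ (VD x y (fun Q => canR x y Q - D Q) n) : ℤ) =
        (Module.finrank k L : ℤ) * n ^ 2 - b * n + 2 * χ) ∧
      χ ≤ Module.finrank ℂ (VD x y D 0) +
        Module.finrank ℂ (VD x y (fun Q => canR x y Q - D Q) 0) := by
  have hr : FinSup (L := L) x y fun Q => (rami k Q : ℤ) - 1 := finSup_ramE h
  obtain ⟨I, hI, d, e, hG, hF⟩ := gmod_VD h D hD hr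
  obtain ⟨b, χ, n₀, h1, h2, h3, -, h5, -⟩ := hG.riemannRoch hF (evk_X0 x y)
  have hdual : ∀ n : ℤ, dualW (evk x y) (VD x y D) (-3 - n) =
      VD x y (fun Q => canR x y Q - D Q) (-n) := by
    intro n
    rw [dualW_VD h D hD]
    unfold VD
    congr 1
    funext Q
    unfold canR
    ring
  have hE : FinSup (L := L) x y fun Q => (rami k Q : ℤ) - 1 - D Q := by
    refine Set.Finite.subset (Set.Finite.union hr hD) ?_
    rintro Q ⟨hQ1, hQ2⟩
    by_cases h0 : D Q = 0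
    · left
      refine ⟨hQ1, ?_⟩
      have h9 : (rami k Q : ℤ) - 1 - D Q ≠ 0 := hQ2
      rw [h0, sub_zero] at h9
      exact h9
    · exact Or.inr ⟨hQ1, h0⟩
  refine ⟨b, χ, n₀, ?_, h3, h2, ?_, ?_⟩
  · obtain ⟨I', hI', d', e', hG', hF'⟩ := gmod_VD h (fun Q : DVal L => (rami k Q : ℤ) - 1 - D Q) hE hr
    obtain ⟨-, -, -, -, -, -, -, -, h6⟩ := hG'.riemannRoch hF' (evk_X0 x y)
    intro n
    have h7 := h6 n
    rw [dualW_VD h _ hE] at h7
    have h8 : (fun Q : DVal L => (rami k Q : ℤ) - 1 - ((rami k Q : ℤ) - 1 - D Q)) = D := by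
      funext Q
      ring
    rw [h8] at h7
    exact h7
  · intro n hn
    have h7 := h5 (-n) (by omega)
    rw [hdual (-n), neg_neg] at h7
    rw [h7]
    ring
  · have h7 := h1 0
    rw [hdual 0, neg_zero] at h7
    have h8 : (2 : ℤ) * χ ≤ 2 * (Module.finrank ℂ (VD x y D 0) : ℤ) +
        2 * (Module.finrank ℂ (VD x y (fun Q => canR x y Q - D Q) 0) : ℤ) := by
      linarith
    linarith

end Pool.Agent.LibRR
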