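import Pool.Agent.LibRR.N01
import Pool.Agent.LibRR.G12
import Pool.Agent.LibRR.G13

/-!
[RR G16] `⊕ H⁰(D + n H)` is a finitely generated module over `ℂ[x₀, x₁, x₂]` (`x j` linear forms in
the homogeneous coordinates of `Y`).
-/

set_option autoImplicit false

open Pool.Agent.LibGMM Pool.Agent.LibCov80 Pool.Agent.LibK
open Pool.Agent.LibKB1a (planeAll IsInf Aff Ess Pol)

namespace Pool.Agent.LibRR

/-- Homogeneity. -/
theorem rrG16_homog {L : Type} [Field L] [Algebra ℂ L] (z : Fin 3 → L) (t : L) {m : ℤ} {p : A3}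
    (hp : p ∈ HP m) :
    MvPolynomial.aeval (fun i => t * z i) p = t ^ m * MvPolynomial.aeval z p := by
  by_cases hm : 0 ≤ m
  · obtain ⟨n, rfl⟩ := Int.eq_ofNat_of_zero_le hm
    have h1 : p.IsHomogeneous n := (mem_HP_nat n).1 hp
    rw [zpow_natCast]
    rw [MvPolynomial.aeval_def, MvPolynomial.aeval_def]
    rw [MvPolynomial.eval₂_eq', MvPolynomial.eval₂_eq', Finset.mul_sum]
    refine Finset.sum_congr rfl fun s hs => ?_
    have h5 : s.degree = n := by
      have h6 := h1 (MvPolynomial.mem_support_iff.1 hs)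
      rw [Finsupp.degree_eq_weight_one]
      exact h6
    simp only [mul_pow]
    rw [Finset.prod_mul_distrib]
    have h7 : ∏ i : Fin 3, t ^ s i = t ^ n := by
      rw [Finset.prod_pow_eq_pow_sum, ← h5, Finsupp.degree_eq_sum]
    rw [h7]
    ring
  · have h1 : p = 0 := by
      have h2 := HP_neg (by omega : m < 0)
      rw [h2] at hp
      exact hp
    rw [h1, map_zero, map_zero, mul_zero]

/-- Evaluation at `(t, t x, t y)` of a form of degree `m`. -/
theorem rrG16_hom {k : Type} [Field k] [Algebra ℂ k] {L : Type} [Field L] [Algebra ℂ L]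
    [Algebra k L] [IsScalarTower ℂ k L] (x y : k) (t : L) {m : ℤ} {p : A3} (hp : p ∈ HP m) :
    MvPolynomial.aeval ![t, algebraMap k L x * t, algebraMap k L y * t] p =
      t ^ m * algebraMap k L (evk x y p) := by
  have h2 : ![t, algebraMap k L x * t, algebraMap k L y * t] =
      fun i => t * ![1, algebraMap k L x, algebraMap k L y] i := by
    funext i
    fin_cases i
    · simp
    · simp [mul_comm]
    · simp [mul_comm]
  have h3 : algebraMap k L (evk x y p) =
      MvPolynomial.aeval ![1, algebraMap k L x, algebraMap k L y] p := by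
    have h4 : (fun i => algebraMap k L (![1, x, y] i)) =
        ![1, algebraMap k L x, algebraMap k L y] := by
      funext i
      fin_cases i <;> simp
    rw [evk, ← h4, ← MvPolynomial.aeval_algebraMap_apply]
    rfl
  rw [h2, h3, rrG16_homog _ _ hp]

/-- `⊕ H⁰(D + n H)` is a finitely generated module. -/
theorem exists_gens {L : Type} [Field L] [Algebra ℂ L] (Y : NormalModel L)
    (hd : Algebra.trdeg ℂ L = 2) (D : DVal L → ℤ)
    (hD : {ν | ν ∈ primes Y ∧ D ν ≠ 0}.Finite) :
    ∃ (I : Type) (_ : Fintype I) (x : Fin 3 → L) (d : I → ℤ) (e : I → L),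
      (∀ j, x j ∈ Submodule.span ℂ (Set.range fun i => (Y.g i : L))) ∧
      (∀ i, e i ∈ HZ (primes Y) fun ν => D ν + d i * hypZ Y ν) ∧
      ∀ n, ∀ f ∈ HZ (primes Y) (fun ν => D ν + n * hypZ Y ν),
        ∃ a : I → A3, (∀ i, a i ∈ HP (n - d i)) ∧
          f = ∑ i, MvPolynomial.aeval x (a i) * e i := by
  obtain ⟨k, x, y, x0, _, hxy, hx0, hP, hH, hs0, hs1, hs2⟩ := exists_noether' Y hd
  have hD' : FinSup x y D := by
    unfold FinSup
    rw [← hP]
    exact hD
  obtain ⟨I, _, d, e, hg, hf⟩ := gmod_VD hxy D hD' (finSup_ramE hxy)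
  have hmem : ∀ (n : ℤ) (f : L), f ∈ HZ (primes Y) (fun ν => D ν + n * hypZ Y ν) ↔
      f * x0 ^ (-n) ∈ VD x y D n := by
    intro n f
    rw [VD, ← hP, mem_HZ, mem_HZ]
    refine forall_congr' fun ν => forall_congr' fun hν => ?_
    have h1 := hH ν hν
    by_cases hf0 : f = 0
    · simp [hf0]
    · have h2 : f * x0 ^ (-n) ≠ 0 := mul_ne_zero hf0 (zpow_ne_zero _ hx0)
      rw [ν.ord_mul' hf0 (zpow_ne_zero _ hx0), ν.ord_zpow]
      simp only [hf0, h2, ne_eq, not_false_eq_true, forall_const]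
      rw [← h1]
      have h3 : ν.ord f + -n * ν.ord x0 + (D ν + n * (hypZ Y ν + ν.ord x0)) =
          ν.ord f + (D ν + n * hypZ Y ν) := by ring
      rw [h3]
  refine ⟨I, inferInstance, ![x0, algebraMap k L x * x0, algebraMap k L y * x0], d,
    fun i => e i * x0 ^ (d i), ?_, ?_, ?_⟩
  · intro j
    fin_cases j
    · exact hs0
    · exact hs1
    · exact hs2
  · intro i
    rw [hmem, mul_assoc, ← zpow_add₀ hx0]
    simpa using hg.mem i
  · intro n f hf'
    obtain ⟨a, ha, ha'⟩ := hg.gen n _ ((hmem n f).1 hf')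
    refine ⟨a, ha, ?_⟩
    have h1 : f = (f * x0 ^ (-n)) * x0 ^ n := by
      rw [mul_assoc, ← zpow_add₀ hx0]
      simp
    rw [h1, ha', Finset.sum_mul]
    refine Finset.sum_congr rfl fun i _ => ?_
    rw [rrG16_hom x y x0 (ha i)]
    have h2 : x0 ^ n = x0 ^ (n - d i) * x0 ^ (d i) := by
      rw [← zpow_add₀ hx0]
      simp
    rw [h2]
    ring

end Pool.Agent.LibRR
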