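import Pool.Agent.LibRR.Mod
import Pool.Agent.LibKB1a.Defs
import Pool.Agent.LibCov80.Pull

/-!
Geometry for block RR. `k = ℂ(x, y)` (`IsPlane x y`) is the field of rational functions of the
projective plane, `L` a finite extension. `upP x y` is the set of the prime divisors of the
normalisation of the plane in `L`: all discrete valuations of `L` over the prime divisors
`planeAll x y` of the plane. `hInf x y` is the pull-back of the line at infinity.
-/

set_option autoImplicit false

open Pool.Agent.LibGMM Pool.Agent.LibCov80 Pool.Agent.LibK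
open Pool.Agent.LibKB1a (planeAll IsInf Aff Ess Pol ev)

namespace Pool.Agent.LibRR

section

variable (k : Type) {L : Type} [Field k] [Field L] [Algebra ℂ k] [Algebra ℂ L] [Algebra k L]
  [IsScalarTower ℂ k L] [FiniteDimensional k L]

/-- The restriction of the valuation `Q` to `k`, normalised. -/
noncomputable def bel (Q : DVal L) : DVal k := (exists_over (k := k) Q).choose

/-- The ramification index of `Q` over `k`. -/
noncomputable def rami (Q : DVal L) : ℕ := (exists_over (k := k) Q).choose_spec.choose

theorem over_bel (Q : DVal L) : Over Q (bel k Q) (rami k Q) :=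
  (exists_over (k := k) Q).choose_spec.choose_spec

theorem rami_pos (Q : DVal L) : 0 < rami k Q := (over_bel k Q).pos

theorem ord_algebraMap (Q : DVal L) (z : k) :
    Q.ord (algebraMap k L z) = rami k Q * (bel k Q).ord z := (over_bel k Q).ord z

theorem bel_eq {Q : DVal L} {q : DVal k} {e : ℕ} (h : Over Q q e) : bel k Q = q ∧ rami k Q = e :=
  ⟨(over_bel k Q).unique h, (over_bel k Q).unique' h⟩

end

section

variable {k L : Type} [Field k] [Field L] [Algebra ℂ k] [Algebra ℂ L] [Algebra k L]
  [IsScalarTower ℂ k L] [FiniteDimensional k L]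

/-- Evaluation of polynomials in three variables at `(1, x, y)`. -/
noncomputable def evk (x y : k) : A3 →ₐ[ℂ] k := MvPolynomial.aeval ![1, x, y]

theorem evk_X0 (x y : k) : evk x y (MvPolynomial.X 0) = 1 := by
  simp [evk]

/-- The prime divisors of the normalisation of the plane in `L`. -/
def upP (L : Type) [Field L] [Algebra ℂ L] [Algebra k L] [IsScalarTower ℂ k L]
    [FiniteDimensional k L] (x y : k) : Set (DVal L) := {Q | bel k Q ∈ planeAll x y}

/-- The pull-back of the line at infinity. -/
noncomputable def hInf (x y : k) (Q : DVal L) : ℤ :=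
  - min 0 (min (Q.ord (algebraMap k L x)) (Q.ord (algebraMap k L y)))

/-- The sections over the set of prime divisors `P` of the divisor `D` (integral coefficients). -/
noncomputable def HZ (P : Set (DVal L)) (D : DVal L → ℤ) : Submodule ℂ L :=
  H0 P fun ν => (D ν : ℚ)

theorem mem_HZ {P : Set (DVal L)} {D : DVal L → ℤ} {f : L} :
    f ∈ HZ P D ↔ ∀ ν ∈ P, f ≠ 0 → 0 ≤ ν.ord f + D ν := by
  constructor
  · intro h ν hν hf
    have h1 : (0 : ℚ) ≤ (ν.ord f : ℚ) + (D ν : ℚ) := h ν hν hf
    exact_mod_cast h1
  · intro h ν hν hf
    have h1 := h ν hν hf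
    change (0 : ℚ) ≤ (ν.ord f : ℚ) + (D ν : ℚ)
    exact_mod_cast h1

/-- The graded module of the divisor `D`: the sections of `D + n · hInf`. -/
noncomputable def VD (x y : k) (D : DVal L → ℤ) (n : ℤ) : Submodule ℂ L :=
  HZ (upP L x y) fun Q => D Q + n * hInf x y Q

/-- `e - 1 - 3 hInf`: the canonical divisor. -/
noncomputable def canR (x y : k) (Q : DVal L) : ℤ := (rami k Q : ℤ) - 1 - 3 * hInf x y Q

/-- The divisor `D` has finite support on the prime divisors. -/
def FinSup (x y : k) (D : DVal L → ℤ) : Prop := {Q | Q ∈ upP L x y ∧ D Q ≠ 0}.Finite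

end

end Pool.Agent.LibRR
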