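import Pool.Agent.LibRR.N01a
import Pool.Agent.LibNoe.B3

/-!
PART N (helper85). `exists_noether`: linear Noether normalisation.
-/

set_option autoImplicit false

open Pool.Agent.LibGMM Pool.Agent.LibCov80 Pool.Agent.LibK
open Pool.Agent.LibKB1a (planeAll IsInf Aff Ess Pol)

namespace Pool.Agent.LibRR

/-- The projective plane is a normal model of `ℂ(x, y)` with the prime divisors `planeAll x y`. -/
theorem exists_planeModel {k : Type} [Field k] [Algebra ℂ k] {x y : k} (h : IsPlane x y) :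
    ∃ X : NormalModel k, ∀ q : DVal k, X.IsPrimeDiv q ↔ q ∈ planeAll x y :=
  ⟨planeModel h, planeModel_isPrimeDiv h⟩

/-- Linear Noether normalisation. -/
theorem exists_noether {L : Type} [Field L] [Algebra ℂ L] (Y : NormalModel L)
    (hd : Algebra.trdeg ℂ L = 2) :
    ∃ (k : IntermediateField ℂ L) (x y : k) (x0 : L) (_ : FiniteDimensional k L),
      IsPlane x y ∧ x0 ≠ 0 ∧ primes Y = upP L x y ∧
      ∀ Q ∈ primes Y, hypZ Y Q + Q.ord x0 = hInf x y Q := by
  obtain ⟨N⟩ := Pool.Agent.LibNoe.exists_linNorm Y hd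
  exact ⟨N.kk, N.xk, N.yk, N.x 0, N.finiteDimensional, N.isPlane, (N.x 0).ne_zero, N.primes_eq,
    fun Q _ => N.hyp_eq Q⟩

/-- Linear Noether normalisation, with the linear forms `x₀, x₁ = x x₀, x₂ = y x₀` in the
homogeneous coordinates. -/
theorem exists_noether' {L : Type} [Field L] [Algebra ℂ L] (Y : NormalModel L)
    (hd : Algebra.trdeg ℂ L = 2) :
    ∃ (k : IntermediateField ℂ L) (x y : k) (x0 : L) (_ : FiniteDimensional k L),
      IsPlane x y ∧ x0 ≠ 0 ∧ primes Y = upP L x y ∧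
      (∀ Q ∈ primes Y, hypZ Y Q + Q.ord x0 = hInf x y Q) ∧
      x0 ∈ Submodule.span ℂ (Set.range fun i => (Y.g i : L)) ∧
      (x : L) * x0 ∈ Submodule.span ℂ (Set.range fun i => (Y.g i : L)) ∧
      (y : L) * x0 ∈ Submodule.span ℂ (Set.range fun i => (Y.g i : L)) := by
  obtain ⟨N⟩ := Pool.Agent.LibNoe.exists_linNorm Y hd
  refine ⟨N.kk, N.xk, N.yk, N.x 0, N.finiteDimensional, N.isPlane, (N.x 0).ne_zero, N.primes_eq,
    fun Q _ => N.hyp_eq Q, N.mem 0, ?_, ?_⟩
  · have h1 : (N.xk : L) * N.x 0 = N.x 1 := div_mul_cancel₀ _ (N.x 0).ne_zero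
    rw [h1]
    exact N.mem 1
  · have h1 : (N.yk : L) * N.x 0 = N.x 2 := div_mul_cancel₀ _ (N.x 0).ne_zero
    rw [h1]
    exact N.mem 2

end Pool.Agent.LibRR
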